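import Pool.Agent.Y800.Lin
import Pool.Agent.TH658.Eq.Newt

/-! Matrices of finite order; semisimplicity of representations with finite image. -/

set_option autoImplicit false
set_option linter.all false

namespace Pool.Agent.Y800

open Module Polynomial

section perm

theorem exists_perm {α β : Type*} [Fintype α] [DecidableEq β] (f g : α → β)
    (h : Finset.univ.val.map f = Finset.univ.val.map g) : ∃ σ : α ≃ α, ∀ a, g (σ a) = f a := by
  classical
  have hc : ∀ c, Fintype.card {a // f a = c} = Fintype.card {a // g a = c} := by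
    intro c
    have h1 := congrArg (Multiset.count c) h
    rw [Multiset.count_map, Multiset.count_map] at h1
    rw [Fintype.card_subtype, Fintype.card_subtype]
    have e1 : ∀ F : α → β, (Finset.univ.filter fun a => F a = c).card =
        (Multiset.filter (fun a => c = F a) Finset.univ.val).card := by
      intro F
      rw [Finset.card_def, Finset.filter_val]
      congr 1
      exact Multiset.filter_congr fun a _ => eq_comm
    rw [e1, e1]
    exact h1
  exact ⟨Equiv.ofFiberEquiv fun c => Fintype.equivOfCardEq (hc c),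
    fun a => Equiv.ofFiberEquiv_map _ a⟩

end perm

variable {k : Type*} [Field k] {n : ℕ}

theorem diag_of_pow_eq_one [IsAlgClosed k] [CharZero k] (G : Matrix (Fin n) (Fin n) k) (N : ℕ) (hN : 0 < N)
    (hG : G ^ N = 1) :
    ∃ (b : Basis (Fin n) k (Fin n → k)) (d : Fin n → k), ∀ i, G.mulVec (b i) = d i • b i := by
  classical
  set f : Module.End k (Fin n → k) := Matrix.toLin' G with hf
  have hfN : f ^ N = 1 := by
    rw [hf, ← Matrix.toLin'_pow, hG, Matrix.toLin'_one]
    rfl
  have hsep : (Polynomial.X ^ N - 1 : Polynomial k).Separable := by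
    rw [Polynomial.X_pow_sub_one_separable_iff]
    exact_mod_cast hN.ne'
  have hss : f.IsSemisimple := by
    apply Module.End.isSemisimple_of_squarefree_aeval_eq_zero hsep.squarefree
    simp [hfN]
  have htop := hss.iSup_eigenspace_eq_top
  have hint : DirectSum.IsInternal f.eigenspace :=
    DirectSum.isInternal_submodule_of_iSupIndep_of_iSup_eq_top f.eigenspaces_iSupIndep htop
  set b0 := hint.collectedBasis (fun μ => Module.finBasis k (f.eigenspace μ)) with hb0
  have hfin : Finite (Σ μ : k, Fin (Module.finrank k (f.eigenspace μ))) :=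
    Module.Finite.finite_basis b0
  have : Fintype (Σ μ : k, Fin (Module.finrank k (f.eigenspace μ))) := Fintype.ofFinite _
  have hcard : Fintype.card (Σ μ : k, Fin (Module.finrank k (f.eigenspace μ))) =
      Fintype.card (Fin n) := by
    rw [← Module.finrank_eq_card_basis b0, Module.finrank_fintype_fun_eq_card]
  have e := Fintype.equivOfCardEq hcard
  set b : Module.Basis (Fin n) k (Fin n → k) := b0.reindex e with hb
  set d : Fin n → k := fun i => (e.symm i).1 with hd
  refine ⟨b, d, ?_⟩
  intro i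
  have h1 : b i = b0 (e.symm i) := by rw [hb, Module.Basis.reindex_apply]
  have h2 : b i ∈ f.eigenspace (d i) := by
    rw [h1]
    exact hint.collectedBasis_mem _ _
  rw [Module.End.mem_eigenspace_iff, hf, Matrix.toLin'_apply] at h2
  exact h2

/-- a matrix with an eigenbasis is conjugate to the diagonal matrix of the eigenvalues -/
theorem conj_of_basis (G : Matrix (Fin n) (Fin n) k) (b : Basis (Fin n) k (Fin n → k)) (d : Fin n → k)
    (h : ∀ i, G.mulVec (b i) = d i • b i) :
    ∃ h : GL (Fin n) k, G = (h : Matrix (Fin n) (Fin n) k) * Matrix.diagonal d *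
      ((h⁻¹ : GL (Fin n) k) : Matrix (Fin n) (Fin n) k) := by
  set B : Matrix (Fin n) (Fin n) k := (Pi.basisFun k (Fin n)).toMatrix b with hB
  set B' : Matrix (Fin n) (Fin n) k := b.toMatrix (Pi.basisFun k (Fin n)) with hB'
  have h1 : B' * B = 1 := Module.Basis.toMatrix_mul_toMatrix_flip _ _
  have h2 : B * B' = 1 := Module.Basis.toMatrix_mul_toMatrix_flip _ _
  have h3 : G * B = B * Matrix.diagonal d := by
    ext i j
    have h4 := congrFun (h j) i
    rw [Matrix.mul_diagonal, Matrix.mul_apply]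
    simp only [hB, Module.Basis.toMatrix_apply, Pi.basisFun_repr]
    rw [Matrix.mulVec, dotProduct] at h4
    rw [h4, Pi.smul_apply, smul_eq_mul, mul_comm]
  refine ⟨⟨B, B', h2, h1⟩, ?_⟩
  show G = B * Matrix.diagonal d * B'
  rw [← h3, Matrix.mul_assoc, h2, Matrix.mul_one]

theorem charpoly_conj (h : GL (Fin n) k) (M : Matrix (Fin n) (Fin n) k) :
    ((h : Matrix (Fin n) (Fin n) k) * M * ((h⁻¹ : GL (Fin n) k) : Matrix (Fin n) (Fin n) k)).charpoly =
      M.charpoly := by
  rw [Matrix.coe_units_inv]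
  exact Matrix.charpoly_units_conj h M

theorem charpoly_diag (d : Fin n → k) : (Matrix.diagonal d).charpoly = ∏ i, (X - C (d i)) :=
  Matrix.charpoly_diagonal d

/-- A matrix of finite order is conjugate to the diagonal matrix of the roots of its characteristic
polynomial. -/
theorem conj_diag [IsAlgClosed k] [CharZero k] (G : Matrix (Fin n) (Fin n) k) (N : ℕ) (hN : 0 < N)
    (hG : G ^ N = 1) (β : Fin n → k) (hβ : G.charpoly = ∏ i, (X - C (β i))) :
    ∃ h : GL (Fin n) k, G = (h : Matrix (Fin n) (Fin n) k) * Matrix.diagonal β *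
      ((h⁻¹ : GL (Fin n) k) : Matrix (Fin n) (Fin n) k) := by
  classical
  obtain ⟨b, d, hbd⟩ := diag_of_pow_eq_one G N hN hG
  obtain ⟨h, hh⟩ := conj_of_basis G b d hbd
  have h1 : ∏ i, (X - C (d i)) = ∏ i, (X - C (β i)) := by
    rw [← hβ, hh, charpoly_conj, charpoly_diag]
  have h2 := congrArg Polynomial.roots h1
  have h3 : ∀ d : Fin n → k, (∏ i, (X - C (d i))).roots = Finset.univ.val.map d := by
    intro d
    have : ∏ i, (X - C (d i)) = ((Finset.univ.val.map d).map fun a => X - C a).prod := by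
      rw [Multiset.map_map]; rfl
    rw [this, Polynomial.roots_multiset_prod_X_sub_C]
  rw [h3, h3] at h2
  obtain ⟨σ, hσ⟩ := exists_perm β d h2.symm
  refine conj_of_basis G (b.reindex σ.symm) β (fun i => ?_)
  rw [Module.Basis.reindex_apply, Equiv.symm_symm, hbd, hσ]

/-- A matrix of finite order whose characteristic polynomial is `(X - 1) ^ n` is `1`. -/
theorem eq_one_of_charpoly [IsAlgClosed k] [CharZero k] (G : Matrix (Fin n) (Fin n) k) (N : ℕ) (hN : 0 < N)
    (hG : G ^ N = 1) (hβ : G.charpoly = (1 : Matrix (Fin n) (Fin n) k).charpoly) : G = 1 := by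
  have h1 : (1 : Matrix (Fin n) (Fin n) k).charpoly = ∏ i : Fin n, (X - C ((fun _ => 1) i : k)) := by
    rw [← charpoly_diag, ← Matrix.diagonal_one]
  obtain ⟨h, hh⟩ := conj_diag G N hN hG (fun _ => 1) (hβ.trans h1)
  rw [hh]
  have h2 : Matrix.diagonal (fun _ : Fin n => (1 : k)) = 1 := Matrix.diagonal_one
  rw [h2, mul_one, ← Units.val_mul, mul_inv_cancel, Units.val_one]

/-- traces determine characteristic polynomials -/
theorem charpoly_of_traces {G : Type*} [Group G] {K : Type} [Field K] [CharZero K]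
    (ρ ρ' : G →* GL (Fin n) K)
    (h : ∀ g, (ρ g : Matrix (Fin n) (Fin n) K).trace = (ρ' g : Matrix (Fin n) (Fin n) K).trace) (g : G) :
    (ρ g : Matrix (Fin n) (Fin n) K).charpoly = (ρ' g : Matrix (Fin n) (Fin n) K).charpoly := by
  refine Pool.Agent.TH658.Eq.charpoly_eq_of_traces _ _ fun m => ?_
  have h1 := h (g ^ m)
  rw [map_pow, map_pow, Units.val_pow_eq_pow_val, Units.val_pow_eq_pow_val] at h1
  exact h1

/-- **Maschke**: representations with finite image in characteristic zero are semisimple. -/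
theorem semisimple_of_finite {G : Type*} [Group G] [CharZero k] (ρ : G →* GL (Fin n) k)
    (hfin : Finite (G ⧸ ρ.ker)) : IsSemisimpleRep ρ := by
  classical
  intro W hW
  have hR : Finite ρ.range := by
    have e := QuotientGroup.quotientKerEquivRange ρ
    exact Finite.of_equiv _ e.toEquiv
  have := Fintype.ofFinite ρ.range
  obtain ⟨π, hπ⟩ := W.exists_isCompl
  -- a projection onto `W`
  obtain ⟨p, hp⟩ : ∃ p : (Fin n → k) →ₗ[k] (Fin n → k), (∀ v, p v ∈ W) ∧ ∀ w ∈ W, p w = w := by
    refine ⟨W.subtype ∘ₗ W.projectionOnto π hπ, fun v => ?_, fun w hw => ?_⟩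
    · exact (W.projectionOnto π hπ v).2
    · have := Submodule.projectionOnto_apply_left hπ ⟨w, hw⟩
      rw [LinearMap.comp_apply]
      simp [this]
  obtain ⟨hp1, hp2⟩ := hp
  let L : ρ.range → ((Fin n → k) →ₗ[k] (Fin n → k)) := fun h =>
    Matrix.toLin' ((h.1 : GL (Fin n) k) : Matrix (Fin n) (Fin n) k)
  have hLmul : ∀ h h' : ρ.range, L (h * h') = L h ∘ₗ L h' := by
    intro h h'
    show Matrix.toLin' _ = _
    rw [Subgroup.coe_mul, Units.val_mul, Matrix.toLin'_mul]
  have hL1 : L 1 = LinearMap.id := by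
    show Matrix.toLin' _ = _
    rw [Subgroup.coe_one, Units.val_one, Matrix.toLin'_one]
  have hLW : ∀ (h : ρ.range), ∀ w ∈ W, L h w ∈ W := by
    rintro ⟨_, g, rfl⟩ w hw
    exact hW g w hw
  let q : (Fin n → k) →ₗ[k] (Fin n → k) :=
    (Fintype.card ρ.range : k)⁻¹ • ∑ h : ρ.range, L h ∘ₗ p ∘ₗ L h⁻¹
  have hcard : (Fintype.card ρ.range : k) ≠ 0 := by
    exact_mod_cast Fintype.card_ne_zero
  have hqW : ∀ v, q v ∈ W := by
    intro v
    show ((Fintype.card ρ.range : k)⁻¹ • ∑ h : ρ.range, L h ∘ₗ p ∘ₗ L h⁻¹) v ∈ W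
    rw [LinearMap.smul_apply, LinearMap.sum_apply]
    exact W.smul_mem _ (W.sum_mem fun h _ => hLW h _ (hp1 _))
  have hqw : ∀ w ∈ W, q w = w := by
    intro w hw
    show ((Fintype.card ρ.range : k)⁻¹ • ∑ h : ρ.range, L h ∘ₗ p ∘ₗ L h⁻¹) w = w
    rw [LinearMap.smul_apply, LinearMap.sum_apply]
    have h1 : ∀ h : ρ.range, (L h ∘ₗ p ∘ₗ L h⁻¹) w = w := by
      intro h
      rw [LinearMap.comp_apply, LinearMap.comp_apply, hp2 _ (hLW _ w hw), ← LinearMap.comp_apply,
        ← hLmul, mul_inv_cancel, hL1, LinearMap.id_apply]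
    rw [Finset.sum_congr rfl fun h _ => h1 h, Finset.sum_const, Finset.card_univ,
      ← Nat.cast_smul_eq_nsmul k, smul_smul, inv_mul_cancel₀ hcard, one_smul]
  have hqcomm : ∀ (h : ρ.range) v, q (L h v) = L h (q v) := by
    intro h v
    show ((Fintype.card ρ.range : k)⁻¹ • ∑ h : ρ.range, L h ∘ₗ p ∘ₗ L h⁻¹) (L h v) =
      L h (((Fintype.card ρ.range : k)⁻¹ • ∑ h : ρ.range, L h ∘ₗ p ∘ₗ L h⁻¹) v)
    rw [LinearMap.smul_apply, LinearMap.sum_apply, LinearMap.smul_apply, LinearMap.sum_apply,
      map_smul, map_sum]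
    congr 1
    refine Fintype.sum_equiv (Equiv.mulLeft h⁻¹) _ _ (fun g => ?_)
    show L g (p (L g⁻¹ (L h v))) = L h (L (h⁻¹ * g) (p (L (h⁻¹ * g)⁻¹ v)))
    rw [← LinearMap.comp_apply (L g⁻¹) (L h), ← hLmul, ← LinearMap.comp_apply (L h), ← hLmul,
      mul_inv_cancel_left, mul_inv_rev, inv_inv]
  refine ⟨LinearMap.ker q, ?_, ?_⟩
  · intro g w hw
    rw [LinearMap.mem_ker] at hw ⊢
    have := hqcomm ⟨ρ g, g, rfl⟩ w
    rw [hw, map_zero] at this
    exact this
  · constructor
    · rw [Submodule.disjoint_def]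
      intro x hx hx'
      rw [LinearMap.mem_ker, hqw x hx] at hx'
      exact hx'
    · rw [codisjoint_iff, eq_top_iff]
      intro v _
      rw [Submodule.mem_sup]
      refine ⟨q v, hqW v, v - q v, ?_, by abel⟩
      rw [LinearMap.mem_ker, map_sub, hqw _ (hqW v), sub_self]

end Pool.Agent.Y800
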