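import Pool.Agent.Y800.FinImg

/-! Faltings' argument: two continuous representations whose traces lie in a fixed finite dimensional
`ℚ_ℓ`-space and agree on a set which meets all cosets of a suitable normal open subgroup of bounded index
have the same traces. -/

set_option autoImplicit false
set_option linter.all false

namespace Pool.Agent.Y800

open Module
open scoped Pointwise

section lattice

variable {ℓ : ℕ} [Fact ℓ.Prime]

/-- a finitely generated `ℤ_ℓ`-submodule of a normed space is closed -/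
theorem fg_isClosed {V : Type*} [NormedAddCommGroup V] [NormedSpace ℚ_[ℓ] V] [Module ℤ_[ℓ] V]
    [IsScalarTower ℤ_[ℓ] ℚ_[ℓ] V] (N : Submodule ℤ_[ℓ] V) (hN : N.FG) : IsClosed (N : Set V) := by
  obtain ⟨m, y, hy⟩ := Submodule.fg_iff_exists_fin_generating_family.1 hN
  have hcont : Continuous fun v : Fin m → ℤ_[ℓ] => ∑ i, v i • y i := by
    refine continuous_finset_sum _ fun i _ => ?_
    have h1 : (fun v : Fin m → ℤ_[ℓ] => v i • y i) = fun v => ((v i : ℤ_[ℓ]) : ℚ_[ℓ]) • y i := by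
      funext v
      exact algebra_compatible_smul ℚ_[ℓ] (v i) (y i)
    rw [h1]
    exact (continuous_subtype_val.comp (continuous_apply i)).smul continuous_const
  have h2 : (N : Set V) = Set.range fun v : Fin m → ℤ_[ℓ] => ∑ i, v i • y i := by
    ext x
    rw [SetLike.mem_coe, ← hy, Submodule.mem_span_range_iff_exists_fun]
    rfl
  rw [h2]
  exact (isCompact_range hcont).isClosed

/-- a module over `ℤ_ℓ` generated by `m` elements has at most `ℓ ^ m` elements modulo `ℓ` -/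
theorem card_quot_le {M : Type*} [AddCommGroup M] [Module ℤ_[ℓ] M] (m : ℕ) (y : Fin m → M)
    (hy : ⊤ ≤ Submodule.span ℤ_[ℓ] (Set.range y)) :
    Finite (M ⧸ ((ℓ : ℤ_[ℓ]) • (⊤ : Submodule ℤ_[ℓ] M))) ∧
      Nat.card (M ⧸ ((ℓ : ℤ_[ℓ]) • (⊤ : Submodule ℤ_[ℓ] M))) ≤ ℓ ^ m := by
  have hsurj : Function.Surjective (fun a : Fin m → Fin ℓ =>
      (Submodule.mkQ ((ℓ : ℤ_[ℓ]) • (⊤ : Submodule ℤ_[ℓ] M)) (∑ i, ((a i : ℕ) : ℤ_[ℓ]) • y i))) := by
    intro x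
    obtain ⟨x, rfl⟩ := Submodule.mkQ_surjective _ x
    obtain ⟨c, hc⟩ := (Submodule.mem_span_range_iff_exists_fun ℤ_[ℓ]).1 (hy (Submodule.mem_top : x ∈ ⊤))
    have h1 : ∀ i, ∃ a : Fin ℓ, ∃ b : ℤ_[ℓ], c i = ((a : ℕ) : ℤ_[ℓ]) + (ℓ : ℤ_[ℓ]) * b := by
      intro i
      obtain ⟨a, ha, hab⟩ := PadicInt.exists_mem_range (c i)
      rw [PadicInt.maximalIdeal_eq_span_p, Ideal.mem_span_singleton] at hab
      obtain ⟨b, hb⟩ := hab
      exact ⟨⟨a, ha⟩, b, by rw [← hb]; ring⟩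
    choose a b hab using h1
    refine ⟨a, ?_⟩
    rw [← sub_eq_zero, ← map_sub, Submodule.mkQ_apply, Submodule.Quotient.mk_eq_zero]
    refine Submodule.mem_smul_pointwise_iff_exists _ _ _ |>.2 ⟨-∑ i, b i • y i, Submodule.mem_top, ?_⟩
    rw [← hc, ← Finset.sum_sub_distrib, smul_neg, Finset.smul_sum, ← Finset.sum_neg_distrib]
    refine Finset.sum_congr rfl fun i _ => ?_
    rw [hab i, add_smul, mul_smul]
    abel
  refine ⟨Finite.of_surjective _ hsurj, ?_⟩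
  refine (Nat.card_le_card_of_surjective _ hsurj).trans ?_
  rw [Nat.card_eq_fintype_card, Fintype.card_fun, Fintype.card_fin, Fintype.card_fin]

/-- a bounded family of vectors spans a finitely generated `ℤ_ℓ`-module -/
theorem fg_of_coord {M : Type*} [AddCommGroup M] [Module ℤ_[ℓ] M] {ι : Type*} [Fintype ι]
    (Q : M →ₗ[ℤ_[ℓ]] (ι → ℚ_[ℓ])) {I : Type*} (Φ : I → M) (C : ℝ)
    (hC : ∀ h i, ‖Q (Φ h) i‖ ≤ C)
    (hinj : ∀ x ∈ Submodule.span ℤ_[ℓ] (Set.range Φ), Q x = 0 → x = 0) :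
    ∃ (m : ℕ) (y : Fin m → Submodule.span ℤ_[ℓ] (Set.range Φ)), m ≤ Fintype.card ι ∧
      ⊤ ≤ Submodule.span ℤ_[ℓ] (Set.range y) := by
  classical
  obtain ⟨t, ht⟩ : ∃ t : ℕ, C ≤ (ℓ : ℝ) ^ t := by
    obtain ⟨t, ht⟩ := pow_unbounded_of_one_lt C (by exact_mod_cast (Fact.out : ℓ.Prime).one_lt : (1 : ℝ) < ℓ)
    exact ⟨t, ht.le⟩
  set N := Submodule.span ℤ_[ℓ] (Set.range Φ) with hN
  have hpos : (0 : ℝ) < (ℓ : ℝ) ^ t := by
    have : (0 : ℝ) < ℓ := by exact_mod_cast (Fact.out : ℓ.Prime).pos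
    positivity
  have hnt : ‖((ℓ : ℚ_[ℓ])) ^ t‖ = ((ℓ : ℝ) ^ t)⁻¹ := by
    rw [norm_pow, Padic.norm_p, inv_pow]
  let κ : (ι → ℤ_[ℓ]) →ₗ[ℤ_[ℓ]] (ι → ℚ_[ℓ]) := (Algebra.linearMap ℤ_[ℓ] ℚ_[ℓ]).compLeft ι
  have hκ : Function.Injective κ := by
    intro a b hab
    funext i
    have := congrFun hab i
    exact Subtype.ext this
  let Q' : M →ₗ[ℤ_[ℓ]] (ι → ℚ_[ℓ]) := ((ℓ : ℤ_[ℓ]) ^ t) • Q
  have hQ' : ∀ x i, Q' x i = ((ℓ : ℚ_[ℓ]) ^ t) * Q x i := by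
    intro x i
    show ((ℓ : ℤ_[ℓ]) ^ t) • (Q x i) = _
    rw [Algebra.smul_def]
    congr 1
  have hmem : ∀ x ∈ N, Q' x ∈ LinearMap.range κ := by
    have h1 : N ≤ (LinearMap.range κ).comap Q' := by
      rw [hN, Submodule.span_le]
      rintro _ ⟨h, rfl⟩
      have h2 : ∀ i, ‖Q' (Φ h) i‖ ≤ 1 := by
        intro i
        rw [hQ', norm_mul, hnt, inv_mul_le_iff₀ hpos, mul_one]
        exact (hC h i).trans ht
      exact ⟨fun i => ⟨Q' (Φ h) i, h2 i⟩, rfl⟩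
    exact h1
  let f : N →ₗ[ℤ_[ℓ]] (ι → ℤ_[ℓ]) :=
    (LinearEquiv.ofInjective κ hκ).symm.toLinearMap ∘ₗ
      ((Q' ∘ₗ N.subtype).codRestrict (LinearMap.range κ) fun x => hmem x x.2)
  have hf : Function.Injective f := by
    rw [← LinearMap.ker_eq_bot, LinearMap.ker_eq_bot']
    intro x hx
    have h1 : ((Q' ∘ₗ N.subtype).codRestrict (LinearMap.range κ) fun x => hmem x x.2) x = 0 :=
      (LinearEquiv.ofInjective κ hκ).symm.map_eq_zero_iff.1 hx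
    have h2 : Q' x = 0 := congrArg Subtype.val h1
    have h3 : Q x = 0 := by
      funext i
      have h4 := congrFun h2 i
      rw [hQ', Pi.zero_apply, mul_eq_zero] at h4
      rcases h4 with h4 | h4
      · exfalso
        exact (pow_ne_zero t (by exact_mod_cast (Fact.out : ℓ.Prime).ne_zero : (ℓ : ℚ_[ℓ]) ≠ 0)) h4
      · exact h4
    exact Subtype.ext (hinj x x.2 h3)
  haveI : Module.Finite ℤ_[ℓ] N := Module.Finite.of_injective f hf
  haveI : Module.IsTorsionFree ℤ_[ℓ] N := hf.moduleIsTorsionFree f (fun _ _ => map_smul _ _ _)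
  haveI : Module.Free ℤ_[ℓ] N := inferInstance
  refine ⟨finrank ℤ_[ℓ] N, Module.finBasis ℤ_[ℓ] N, ?_, (Module.finBasis ℤ_[ℓ] N).span_eq.ge⟩
  have := LinearMap.finrank_le_finrank_of_injective hf
  rwa [Module.finrank_fintype_fun_eq_card] at this

end lattice

section core

variable {ℓ : ℕ} [Fact ℓ.Prime] {G : Type*} [Group G] {k : Type*} [NormedField k]
  [NormedAlgebra ℚ_[ℓ] k] [Algebra ℤ_[ℓ] k] [IsScalarTower ℤ_[ℓ] ℚ_[ℓ] k]
  {A : Type*} [Ring A] [Algebra k A]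

/-- translates -/
def Phi (r : G →* A) (τ₁ τ₂ : A →ₗ[k] k) (h : G) : G → k × k :=
  fun g => (τ₁ (r (h * g)), τ₂ (r (h * g)))

/-- the action of `G` by right translations -/
noncomputable def Tr (ℓ : ℕ) [Fact ℓ.Prime] {G : Type*} [Group G] {k : Type*} [NormedField k]
    [Algebra ℤ_[ℓ] k] (u : G) : (G → k × k) →ₗ[ℤ_[ℓ]] (G → k × k) :=
  LinearMap.funLeft ℤ_[ℓ] (k × k) (fun g => g * u)

omit [NormedAlgebra ℚ_[ℓ] k] [IsScalarTower ℤ_[ℓ] ℚ_[ℓ] k] in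
theorem Tr_apply (u : G) (f : G → k × k) (g : G) : Tr ℓ u f g = f (g * u) := rfl

omit [NormedAlgebra ℚ_[ℓ] k] [IsScalarTower ℤ_[ℓ] ℚ_[ℓ] k] in
theorem Tr_mul (u v : G) (f : G → k × k) : Tr ℓ (u * v) f = Tr ℓ u (Tr ℓ v f) := by
  funext g
  rw [Tr_apply, Tr_apply, Tr_apply, mul_assoc]

omit [NormedAlgebra ℚ_[ℓ] k] [IsScalarTower ℤ_[ℓ] ℚ_[ℓ] k] in
theorem Tr_one (f : G → k × k) : Tr ℓ (1 : G) f = f := by
  funext g
  rw [Tr_apply, mul_one]

omit [NormedAlgebra ℚ_[ℓ] k] [IsScalarTower ℤ_[ℓ] ℚ_[ℓ] k] in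
theorem Tr_Phi (r : G →* A) (τ₁ τ₂ : A →ₗ[k] k) (h₁ : ∀ x y, τ₁ (x * y) = τ₁ (y * x))
    (h₂ : ∀ x y, τ₂ (x * y) = τ₂ (y * x)) (u h : G) :
    Tr ℓ u (Phi r τ₁ τ₂ h) = Phi r τ₁ τ₂ (u * h) := by
  funext g
  rw [Tr_apply]
  show (τ₁ (r (h * (g * u))), τ₂ (r (h * (g * u)))) = (τ₁ (r (u * h * g)), τ₂ (r (u * h * g)))
  rw [← mul_assoc, map_mul, h₁, h₂, ← map_mul, ← mul_assoc]

/-- **Faltings' argument.** -/
theorem falt_core [TopologicalSpace G] [IsTopologicalGroup G] [CompactSpace G]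
    [FiniteDimensional k A] (r : G →* A) (τ₁ τ₂ : A →ₗ[k] k)
    (h₁ : ∀ x y, τ₁ (x * y) = τ₁ (y * x)) (h₂ : ∀ x y, τ₂ (x * y) = τ₂ (y * x))
    (c₁ : Continuous fun g => τ₁ (r g)) (c₂ : Continuous fun g => τ₂ (r g))
    (E : Submodule ℚ_[ℓ] k) [FiniteDimensional ℚ_[ℓ] E] (hE₁ : ∀ g, τ₁ (r g) ∈ E)
    (hE₂ : ∀ g, τ₂ (r g) ∈ E) :
    ∃ H : Subgroup G, H.Normal ∧ IsOpen (H : Set G) ∧
      H.index ≤ (ℓ ^ (2 * finrank k A * finrank ℚ_[ℓ] E)) ^ (ℓ ^ (2 * finrank k A * finrank ℚ_[ℓ] E)) ∧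
      (∀ g, r g = 1 → g ∈ H) ∧
      ∀ Z : Set G, (∀ g, ∃ s ∈ Z, s * g⁻¹ ∈ H) → (∀ s ∈ Z, τ₁ (r s) = τ₂ (r s)) →
        ∀ g, τ₁ (r g) = τ₂ (r g) := by
  classical
  set N := Submodule.span ℤ_[ℓ] (Set.range (Phi r τ₁ τ₂)) with hN
  obtain ⟨s, hs, hs'⟩ := exists_basis (k := k) (r : G → A)
  -- elements of `N` are given by functionals
  have hfun : ∀ x ∈ N, ∃ σ₁ σ₂ : A →ₗ[k] k, ∀ g, x g = (σ₁ (r g), σ₂ (r g)) := by
    intro x hx
    refine Submodule.span_induction ?_ ?_ ?_ ?_ hx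
    · rintro _ ⟨h, rfl⟩
      refine ⟨τ₁ ∘ₗ LinearMap.mulLeft k (r h), τ₂ ∘ₗ LinearMap.mulLeft k (r h), fun g => ?_⟩
      show (τ₁ (r (h * g)), τ₂ (r (h * g))) = (τ₁ (r h * r g), τ₂ (r h * r g))
      rw [map_mul]
    · exact ⟨0, 0, fun g => rfl⟩
    · rintro x y _ _ ⟨σ₁, σ₂, h⟩ ⟨σ₁', σ₂', h'⟩
      refine ⟨σ₁ + σ₁', σ₂ + σ₂', fun g => ?_⟩
      rw [Pi.add_apply, h, h']
      rfl
    · rintro a x _ ⟨σ₁, σ₂, h⟩
      refine ⟨(algebraMap ℤ_[ℓ] k a) • σ₁, (algebraMap ℤ_[ℓ] k a) • σ₂, fun g => ?_⟩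
      rw [Pi.smul_apply, h]
      show (a • σ₁ (r g), a • σ₂ (r g)) = (algebraMap ℤ_[ℓ] k a * σ₁ (r g), algebraMap ℤ_[ℓ] k a * σ₂ (r g))
      rw [Algebra.smul_def, Algebra.smul_def]
  have hinj : ∀ x ∈ N, (∀ g ∈ s, x g = 0) → x = 0 := by
    intro x hx h0
    obtain ⟨σ₁, σ₂, h⟩ := hfun x hx
    funext g
    rw [h, hs' σ₁ (fun g hg => ?_) g, hs' σ₂ (fun g hg => ?_) g]
    · rfl
    · have := h0 g hg
      rw [h, Prod.mk_eq_zero] at this
      exact this.2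
    · have := h0 g hg
      rw [h, Prod.mk_eq_zero] at this
      exact this.1
  -- values in `E`
  have hNE : ∀ x ∈ N, ∀ g, (x g).1 ∈ E ∧ (x g).2 ∈ E := by
    intro x hx g
    refine Submodule.span_induction ?_ ?_ ?_ ?_ hx
    · rintro _ ⟨h, rfl⟩
      exact ⟨hE₁ _, hE₂ _⟩
    · exact ⟨E.zero_mem, E.zero_mem⟩
    · rintro x y _ _ h h'
      exact ⟨E.add_mem h.1 h'.1, E.add_mem h.2 h'.2⟩
    · rintro a x _ h
      have h3 : ∀ z : k, a • z = (algebraMap ℤ_[ℓ] ℚ_[ℓ] a) • z := fun z => by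
        rw [algebraMap_smul]
      refine ⟨?_, ?_⟩
      · show a • (x g).1 ∈ E
        rw [h3]; exact E.smul_mem _ h.1
      · show a • (x g).2 ∈ E
        rw [h3]; exact E.smul_mem _ h.2
  -- coordinates of `E`
  let b := Module.finBasis ℚ_[ℓ] E
  obtain ⟨q, hq⟩ := LinearMap.exists_extend (b.equivFun : E →ₗ[ℚ_[ℓ]] (Fin (finrank ℚ_[ℓ] E) → ℚ_[ℓ]))
  have hqE : ∀ z (hz : z ∈ E), q z = b.equivFun ⟨z, hz⟩ := by
    intro z hz
    have := LinearMap.congr_fun hq ⟨z, hz⟩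
    exact this
  have hq0 : ∀ z ∈ E, q z = 0 → z = 0 := by
    intro z hz h0
    rw [hqE z hz] at h0
    have := b.equivFun.map_eq_zero_iff.1 h0
    exact congrArg Subtype.val this
  have hqc : ∀ (f : G → k), Continuous f → ∀ (hf : ∀ g, f g ∈ E), ∃ C : ℝ, ∀ g i, ‖q (f g) i‖ ≤ C := by
    intro f hf hfE
    have h1 : Continuous fun g => b.equivFun ⟨f g, hfE g⟩ :=
      (LinearMap.continuous_of_finiteDimensional b.equivFun.toLinearMap).comp
        (hf.subtype_mk hfE)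
    obtain ⟨C, hC⟩ := (isCompact_range h1).isBounded.exists_norm_le
    refine ⟨C, fun g i => ?_⟩
    rw [hqE _ (hfE g)]
    exact (norm_le_pi_norm _ i).trans (hC _ ⟨g, rfl⟩)
  obtain ⟨C₁, hC₁⟩ := hqc _ c₁ hE₁
  obtain ⟨C₂, hC₂⟩ := hqc _ c₂ hE₂
  have hqs : ∀ (a : ℤ_[ℓ]) (z : k), q (a • z) = a • q z := by
    intro a z
    rw [← algebraMap_smul ℚ_[ℓ] a z, map_smul, algebraMap_smul]
  let Q : (G → k × k) →ₗ[ℤ_[ℓ]] (↥s × (Fin (finrank ℚ_[ℓ] E) ⊕ Fin (finrank ℚ_[ℓ] E)) → ℚ_[ℓ]) :=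
    { toFun := fun x t => Sum.elim (fun i => q (x t.1).1 i) (fun i => q (x t.1).2 i) t.2
      map_add' := by
        intro x y
        funext t
        obtain ⟨j, i | i⟩ := t
        · show q (x j + y j).1 i = q (x j).1 i + q (y j).1 i
          rw [Prod.fst_add, map_add]; rfl
        · show q (x j + y j).2 i = q (x j).2 i + q (y j).2 i
          rw [Prod.snd_add, map_add]; rfl
      map_smul' := by
        intro a x
        funext t
        obtain ⟨j, i | i⟩ := t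
        · show q (a • (x j).1) i = a • (q (x j).1 i)
          rw [hqs]; rfl
        · show q (a • (x j).2) i = a • (q (x j).2 i)
          rw [hqs]; rfl }
  have hQkey : ∃ (m : ℕ) (y : Fin m → N),
      m ≤ Fintype.card (↥s × (Fin (finrank ℚ_[ℓ] E) ⊕ Fin (finrank ℚ_[ℓ] E))) ∧
      ⊤ ≤ Submodule.span ℤ_[ℓ] (Set.range y) := fg_of_coord Q (Phi r τ₁ τ₂) (max C₁ C₂) (by
    rintro h ⟨j, i | i⟩
    · exact (hC₁ (h * j) i).trans (le_max_left _ _)
    · exact (hC₂ (h * j) i).trans (le_max_right _ _)) (by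
    intro x hx h0
    refine hinj x hx fun g hg => ?_
    apply Prod.ext
    · refine hq0 _ (hNE x hx g).1 ?_
      funext i
      exact congrFun h0 (⟨g, hg⟩, Sum.inl i)
    · refine hq0 _ (hNE x hx g).2 ?_
      funext i
      exact congrFun h0 (⟨g, hg⟩, Sum.inr i))
  obtain ⟨m, y, hm, hy⟩ := hQkey
  have hm' : m ≤ 2 * finrank k A * finrank ℚ_[ℓ] E := by
    refine hm.trans ?_
    rw [Fintype.card_prod, Fintype.card_coe, Fintype.card_sum, Fintype.card_fin]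
    nlinarith
  set D := 2 * finrank k A * finrank ℚ_[ℓ] E with hD
  obtain ⟨hXfin, hXcard⟩ := card_quot_le m y hy
  have hXD : Nat.card (N ⧸ ((ℓ : ℤ_[ℓ]) • (⊤ : Submodule ℤ_[ℓ] N))) ≤ ℓ ^ D :=
    hXcard.trans (Nat.pow_le_pow_right (Fact.out : ℓ.Prime).pos hm')
  set P : Submodule ℤ_[ℓ] (G → k × k) := (ℓ : ℤ_[ℓ]) • N with hP
  have hPN : P ≤ N := Submodule.smul_le_self_of_tower _ _
  have hTrN : ∀ (u : G) (x : G → k × k), x ∈ N → Tr ℓ u x ∈ N := by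
    intro u
    have h3 : N ≤ N.comap (Tr ℓ u) := by
      conv_lhs => rw [hN]
      rw [Submodule.span_le]
      rintro _ ⟨h, rfl⟩
      show Tr ℓ u (Phi r τ₁ τ₂ h) ∈ N
      rw [Tr_Phi r τ₁ τ₂ h₁ h₂]
      exact Submodule.subset_span ⟨_, rfl⟩
    exact h3
  have hTrP : ∀ (u : G) (x : G → k × k), x ∈ P → Tr ℓ u x ∈ P := by
    intro u x hx
    obtain ⟨z, hz, rfl⟩ := (Submodule.mem_smul_pointwise_iff_exists _ _ _).1 hx
    rw [map_smul]
    exact Submodule.smul_mem_pointwise_smul _ _ _ (hTrN u z hz)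
  let H : Subgroup G :=
    { carrier := {u | ∀ x ∈ N, Tr ℓ u x - x ∈ P}
      one_mem' := by
        intro x _
        rw [Tr_one, sub_self]
        exact P.zero_mem
      mul_mem' := by
        intro u v hu hv x hx
        rw [Tr_mul]
        have := P.add_mem (hu _ (hTrN v x hx)) (hv x hx)
        rwa [sub_add_sub_cancel] at this
      inv_mem' := by
        intro u hu x hx
        have h3 := hu _ (hTrN u⁻¹ x hx)
        rw [← Tr_mul, mul_inv_cancel, Tr_one] at h3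
        have := P.neg_mem h3
        rwa [neg_sub] at this }
  have hHmem : ∀ u, u ∈ H ↔ ∀ x ∈ N, Tr ℓ u x - x ∈ P := fun u => Iff.rfl
  have hHgen : ∀ u, (∀ h, Phi r τ₁ τ₂ (u * h) - Phi r τ₁ τ₂ h ∈ P) → u ∈ H := by
    intro u hu x hx
    refine Submodule.span_induction ?_ ?_ ?_ ?_ hx
    · rintro _ ⟨h, rfl⟩
      rw [Tr_Phi r τ₁ τ₂ h₁ h₂]
      exact hu h
    · rw [map_zero, sub_zero]; exact P.zero_mem
    · intro x y _ _ hx hy
      rw [map_add, add_sub_add_comm]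
      exact P.add_mem hx hy
    · intro a x _ hx
      rw [map_smul, ← smul_sub]
      exact P.smul_mem _ hx
  have hnormal : H.Normal := by
    refine ⟨fun u hu g x hx => ?_⟩
    have h3 := hTrP g _ (hu _ (hTrN g⁻¹ x hx))
    rw [map_sub, ← Tr_mul, ← Tr_mul, ← Tr_mul, mul_inv_cancel, Tr_one] at h3
    exact h3
  -- finite index
  have hle : ∀ u : G, ((ℓ : ℤ_[ℓ]) • (⊤ : Submodule ℤ_[ℓ] N)) ≤
      ((ℓ : ℤ_[ℓ]) • (⊤ : Submodule ℤ_[ℓ] N)).comap ((Tr ℓ u).restrict (hTrN u)) := by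
    intro u x hx
    obtain ⟨z, _, rfl⟩ := (Submodule.mem_smul_pointwise_iff_exists _ _ _).1 hx
    rw [Submodule.mem_comap, map_smul]
    exact Submodule.smul_mem_pointwise_smul _ _ _ Submodule.mem_top
  let F : G → ((N ⧸ ((ℓ : ℤ_[ℓ]) • (⊤ : Submodule ℤ_[ℓ] N))) →
      (N ⧸ ((ℓ : ℤ_[ℓ]) • (⊤ : Submodule ℤ_[ℓ] N)))) := fun u =>
    Submodule.mapQ _ _ ((Tr ℓ u).restrict (hTrN u)) (hle u)
  have hF : ∀ u v, F u = F v → u⁻¹ * v ∈ H := by
    intro u v huv x hx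
    have h3 := congrFun huv (Submodule.Quotient.mk ⟨x, hx⟩)
    have h4 : (Submodule.Quotient.mk ((Tr ℓ u).restrict (hTrN u) ⟨x, hx⟩) :
        N ⧸ ((ℓ : ℤ_[ℓ]) • (⊤ : Submodule ℤ_[ℓ] N))) =
        Submodule.Quotient.mk ((Tr ℓ v).restrict (hTrN v) ⟨x, hx⟩) := h3
    rw [Submodule.Quotient.eq] at h4
    obtain ⟨z, _, hz⟩ := (Submodule.mem_smul_pointwise_iff_exists _ _ _).1 h4
    have h5 : (ℓ : ℤ_[ℓ]) • (z : G → k × k) = Tr ℓ u x - Tr ℓ v x := congrArg Subtype.val hz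
    have h6 : Tr ℓ u x - Tr ℓ v x ∈ P := by
      rw [← h5]
      exact Submodule.smul_mem_pointwise_smul _ _ _ z.2
    have h7 := P.neg_mem (hTrP u⁻¹ _ h6)
    rw [map_sub, ← Tr_mul, ← Tr_mul, inv_mul_cancel, Tr_one, neg_sub] at h7
    exact h7
  have hFinj : Function.Injective fun a : G ⧸ H => F a.out := by
    intro a b hab
    have h3 := hF _ _ hab
    rw [← QuotientGroup.eq, QuotientGroup.out_eq', QuotientGroup.out_eq'] at h3
    exact h3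
  haveI hfinX : Finite (N ⧸ ((ℓ : ℤ_[ℓ]) • (⊤ : Submodule ℤ_[ℓ] N))) := hXfin
  haveI hfinG : Finite (G ⧸ H) := Finite.of_injective _ hFinj
  have hindex : H.index ≤ (ℓ ^ D) ^ (ℓ ^ D) := by
    have h3 : H.index ≤ Nat.card ((N ⧸ ((ℓ : ℤ_[ℓ]) • (⊤ : Submodule ℤ_[ℓ] N))) →
      (N ⧸ ((ℓ : ℤ_[ℓ]) • (⊤ : Submodule ℤ_[ℓ] N)))) := Nat.card_le_card_of_injective _ hFinj
    rw [Nat.card_fun] at h3
    refine h3.trans ((Nat.pow_le_pow_left hXD _).trans (Nat.pow_le_pow_right ?_ hXD))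
    exact pow_pos (Fact.out : ℓ.Prime).pos _
  haveI : H.FiniteIndex := Subgroup.finiteIndex_of_finite_quotient
  -- generators
  haveI hfinN : Module.Finite ℤ_[ℓ] N := by
    refine ⟨⟨Finset.univ.image y, ?_⟩⟩
    rw [Finset.coe_image, Finset.coe_univ, Set.image_univ]
    exact top_le_iff.1 hy
  have hfgN : N.FG := Module.Finite.iff_fg.1 hfinN
  have hfgP : P.FG := hfgN.map _
  -- the group is closed
  let ev : (G → k × k) →ₗ[ℤ_[ℓ]] (↥s → k × k) := LinearMap.funLeft ℤ_[ℓ] (k × k) Subtype.val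
  have hev : ∀ x ∈ N, ev x = 0 → x = 0 := fun x hx h0 =>
    hinj x hx fun g hg => congrFun h0 ⟨g, hg⟩
  have hclosedP : IsClosed (P.map ev : Set (↥s → k × k)) := fg_isClosed _ (hfgP.map ev)
  have hPhic : ∀ h : G, Continuous fun u => ev (Phi r τ₁ τ₂ (u * h)) := by
    intro h
    refine continuous_pi fun j => ?_
    exact (c₁.comp ((continuous_mul_right h).mul continuous_const)).prodMk
      (c₂.comp ((continuous_mul_right h).mul continuous_const))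
  have hHset : (H : Set G) = ⋂ h : G, {u | ev (Phi r τ₁ τ₂ (u * h)) - ev (Phi r τ₁ τ₂ h) ∈ (P.map ev : Set _)} := by
    ext u
    rw [Set.mem_iInter]
    constructor
    · intro hu h
      have h3 := hu (Phi r τ₁ τ₂ h) (Submodule.subset_span ⟨_, rfl⟩)
      rw [Tr_Phi r τ₁ τ₂ h₁ h₂] at h3
      show ev (Phi r τ₁ τ₂ (u * h)) - ev (Phi r τ₁ τ₂ h) ∈ P.map ev
      rw [← map_sub]
      exact Submodule.mem_map_of_mem h3
    · intro hu
      refine hHgen u fun h => ?_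
      obtain ⟨z, hz, hz'⟩ := hu h
      have h3 : Phi r τ₁ τ₂ (u * h) - Phi r τ₁ τ₂ h ∈ N :=
        N.sub_mem (Submodule.subset_span ⟨_, rfl⟩) (Submodule.subset_span ⟨_, rfl⟩)
      have h4 : Phi r τ₁ τ₂ (u * h) - Phi r τ₁ τ₂ h - z = 0 := by
        refine hev _ (N.sub_mem h3 (hPN hz)) ?_
        rw [map_sub, map_sub, hz', sub_self]
      rw [sub_eq_zero] at h4
      rw [h4]
      exact hz
  have hHclosed : IsClosed (H : Set G) := by
    rw [hHset]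
    exact isClosed_iInter fun h => hclosedP.preimage ((hPhic h).sub continuous_const)
  refine ⟨H, hnormal, H.isOpen_of_isClosed_of_finiteIndex hHclosed, hindex, ?_, ?_⟩
  · intro g hg
    refine hHgen g fun h => ?_
    have h3 : Phi r τ₁ τ₂ (g * h) = Phi r τ₁ τ₂ h := by
      funext t
      show (τ₁ (r (g * h * t)), τ₂ (r (g * h * t))) = (τ₁ (r (h * t)), τ₂ (r (h * t)))
      rw [mul_assoc, map_mul, hg, one_mul]
    rw [h3, sub_self]
    exact P.zero_mem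
  · intro Z hZ hZ' g
    have h3 : N ≤ Submodule.span ℤ_[ℓ] (Phi r τ₁ τ₂ '' Z) ⊔ (Ideal.span {(ℓ : ℤ_[ℓ])} : Ideal ℤ_[ℓ]) • N := by
      rw [Submodule.ideal_span_singleton_smul]
      conv_lhs => rw [hN]
      rw [Submodule.span_le]
      rintro _ ⟨h, rfl⟩
      obtain ⟨t, ht, hth⟩ := hZ h
      have h4 := hth (Phi r τ₁ τ₂ h) (Submodule.subset_span ⟨_, rfl⟩)
      rw [Tr_Phi r τ₁ τ₂ h₁ h₂, inv_mul_cancel_right] at h4
      have h5 : Phi r τ₁ τ₂ h = Phi r τ₁ τ₂ t + -(Phi r τ₁ τ₂ t - Phi r τ₁ τ₂ h) := by abel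
      rw [SetLike.mem_coe, h5]
      exact Submodule.add_mem_sup (Submodule.subset_span ⟨t, ht, rfl⟩) (P.neg_mem h4)
    have h4 : N ≤ Submodule.span ℤ_[ℓ] (Phi r τ₁ τ₂ '' Z) := by
      refine Submodule.le_of_le_smul_of_le_jacobson_bot hfgN ?_ h3
      rw [← PadicInt.maximalIdeal_eq_span_p, IsLocalRing.jacobson_eq_maximalIdeal _ bot_ne_top]
    let lam : (G → k × k) →ₗ[ℤ_[ℓ]] k :=
      { toFun := fun x => (x 1).1 - (x 1).2
        map_add' := by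
          intro x y
          show (x 1 + y 1).1 - (x 1 + y 1).2 = _
          rw [Prod.fst_add, Prod.snd_add]
          ring
        map_smul' := by
          intro a x
          show a • (x 1).1 - a • (x 1).2 = a • ((x 1).1 - (x 1).2)
          rw [smul_sub] }
    have h5 : Submodule.span ℤ_[ℓ] (Phi r τ₁ τ₂ '' Z) ≤ LinearMap.ker lam := by
      rw [Submodule.span_le]
      rintro _ ⟨t, ht, rfl⟩
      show τ₁ (r (t * 1)) - τ₂ (r (t * 1)) = 0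
      rw [mul_one, hZ' t ht, sub_self]
    have h6 : τ₁ (r (g * 1)) - τ₂ (r (g * 1)) = 0 :=
      h5 (h4 (Submodule.subset_span ⟨g, rfl⟩))
    rwa [mul_one, sub_eq_zero] at h6

end core

end Pool.Agent.Y800
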