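import Pool.Agent.Y800.Defs

/-! The Hermite-Minkowski theorem: there are only finitely many open normal subgroups of the absolute
Galois group of `ℚ` of bounded index which contain the inertia groups outside a finite set of primes. -/

set_option autoImplicit false
set_option linter.all false

namespace Pool.Agent.Y800.HM

open NumberField Pool.Agent.Y800 UniqueFactorizationMonoid Module
open scoped Pointwise nonZeroDivisors

section dedekind

variable {R : Type*} [CommRing R] [IsDedekindDomain R]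

theorem pow_dvd_iff {P I : Ideal R} (hP : Prime P) (hI : I ≠ 0) (k : ℕ) :
    P ^ k ∣ I ↔ k ≤ (normalizedFactors I).count P := by
  classical
  rw [pow_dvd_iff_le_emultiplicity, emultiplicity_eq_count_normalizedFactors hP.irreducible hI,
    normalize_eq]
  exact Nat.cast_le

theorem dvd_of_count {I J : Ideal R} (hI : I ≠ 0) (hJ : J ≠ 0)
    (h : ∀ P : Ideal R, Prime P → (normalizedFactors I).count P ≤ (normalizedFactors J).count P) :
    I ∣ J := by
  classical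
  rw [dvd_iff_normalizedFactors_le_normalizedFactors hI hJ, Multiset.le_iff_count]
  intro P
  by_cases hP : P ∈ normalizedFactors I
  · exact h P (prime_of_normalized_factor P hP)
  · rw [Multiset.count_eq_zero_of_notMem hP]
    exact Nat.zero_le _

theorem count_pow (I P : Ideal R) (q : ℕ) :
    (normalizedFactors (I ^ q)).count P = q * (normalizedFactors I).count P := by
  rw [normalizedFactors_pow, Multiset.count_nsmul]

end dedekind

section field

variable (M : Type) [Field M] [NumberField M]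

theorem mem_diff_iff (x : 𝓞 M) : x ∈ differentIdeal ℤ (𝓞 M) ↔
    ∀ y : M, (∀ a : 𝓞 M, IsIntegral ℤ (Algebra.trace ℚ M (y * a))) → IsIntegral ℤ ((x : M) * y) := by
  have h1 : x ∈ differentIdeal ℤ (𝓞 M) ↔ (x : M) ∈ IsLocalization.coeSubmodule M (differentIdeal ℤ (𝓞 M)) := by
    rw [IsLocalization.mem_coeSubmodule]
    constructor
    · intro h; exact ⟨x, h, rfl⟩
    · rintro ⟨z, hz, hzx⟩
      have : z = x := RingOfIntegers.coe_injective hzx
      rwa [← this]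
  rw [h1, coeSubmodule_differentIdeal ℤ ℚ, Submodule.mem_div_iff_forall_mul_mem]
  refine forall_congr' fun y => ?_
  rw [Submodule.mem_traceDual_iff_isIntegral]
  refine imp_congr ?_ ?_
  · constructor
    · intro h a
      exact h a (Submodule.mem_one.2 ⟨a, rfl⟩)
    · intro h z hz
      obtain ⟨a, rfl⟩ := Submodule.mem_one.1 hz
      exact h a
  · rw [Submodule.mem_one]
    constructor
    · rintro ⟨z, hz⟩
      rw [← hz]
      exact z.2
    · intro h
      exact ⟨⟨_, h⟩, rfl⟩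

theorem diff_inv (g : M ≃ₐ[ℚ] M) {x : 𝓞 M} (hx : x ∈ differentIdeal ℤ (𝓞 M)) :
    g • x ∈ differentIdeal ℤ (𝓞 M) := by
  rw [mem_diff_iff] at hx ⊢
  intro y hy
  have h1 : IsIntegral ℤ ((x : M) * (g⁻¹ • y)) := by
    refine hx _ fun a => ?_
    have h2 := hy (g • a)
    have h3 : Algebra.trace ℚ M (y * ((g • a : 𝓞 M) : M)) = Algebra.trace ℚ M (g⁻¹ • y * a) := by
      rw [← Algebra.trace_eq_of_algEquiv g (g⁻¹ • y * a)]
      congr 1
      show y * (g (a : M)) = g (g⁻¹ • y * a)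
      rw [map_mul]
      congr 1
      exact (smul_inv_smul g y).symm
    rwa [h3] at h2
  have h4 := h1.map (g.toAlgHom.restrictScalars ℤ)
  have h5 : (g.toAlgHom.restrictScalars ℤ) ((x : M) * (g⁻¹ • y)) = ((g • x : 𝓞 M) : M) * y := by
    show g ((x : M) * (g⁻¹ • y)) = g (x : M) * y
    rw [map_mul]
    congr 1
    exact smul_inv_smul g y
  rwa [h5] at h4

theorem diff_smul (g : M ≃ₐ[ℚ] M) : g • differentIdeal ℤ (𝓞 M) = differentIdeal ℤ (𝓞 M) := by
  apply le_antisymm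
  · intro x hx
    have h1 : g⁻¹ • x ∈ differentIdeal ℤ (𝓞 M) := Ideal.mem_pointwise_smul_iff_inv_smul_mem.1 hx
    have := diff_inv M g h1
    rwa [smul_inv_smul] at this
  · intro x hx
    exact Ideal.mem_pointwise_smul_iff_inv_smul_mem.2 (diff_inv M g⁻¹ hx)

theorem span_smul (g : M ≃ₐ[ℚ] M) (p : ℕ) : g • Ideal.span {(p : 𝓞 M)} = Ideal.span {(p : 𝓞 M)} := by
  have h : ∀ (g : M ≃ₐ[ℚ] M) (x : 𝓞 M), x ∈ Ideal.span {(p : 𝓞 M)} → g • x ∈ Ideal.span {(p : 𝓞 M)} := by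
    intro g x hx
    rw [Ideal.mem_span_singleton] at hx ⊢
    obtain ⟨y, rfl⟩ := hx
    refine ⟨g • y, ?_⟩
    rw [smul_mul']
    congr 1
    apply RingOfIntegers.ext
    show g ((p : 𝓞 M) : M) = _
    push_cast
    exact map_natCast g p
  apply le_antisymm
  · intro x hx
    have h1 : g⁻¹ • x ∈ _ := Ideal.mem_pointwise_smul_iff_inv_smul_mem.1 hx
    have := h g _ h1
    rwa [smul_inv_smul] at this
  · intro x hx
    exact Ideal.mem_pointwise_smul_iff_inv_smul_mem.2 (h g⁻¹ _ hx)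

theorem count_smul {J : Ideal (𝓞 M)} (hJ : J ≠ 0) (g : M ≃ₐ[ℚ] M) (hg : g • J = J) {P : Ideal (𝓞 M)}
    (hP : Prime P) (hgP : Prime (g • P)) :
    (normalizedFactors J).count (g • P) = (normalizedFactors J).count P := by
  have key : ∀ k : ℕ, (g • P) ^ k ∣ J ↔ P ^ k ∣ J := by
    intro k
    rw [Ideal.dvd_iff_le, Ideal.dvd_iff_le, ← smul_pow']
    conv_lhs => rw [← hg]
    exact Ideal.pointwise_smul_le_pointwise_smul_iff
  apply le_antisymm
  · rw [← pow_dvd_iff hP hJ, ← key, pow_dvd_iff hgP hJ]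
  · rw [← pow_dvd_iff hgP hJ, key, pow_dvd_iff hP hJ]

/-- the trace argument -/
theorem pow_dvd_finrank (p q : ℕ) (hp : p.Prime)
    (h : differentIdeal ℤ (𝓞 M) ≤ Ideal.span {((p : 𝓞 M)) ^ q}) : p ^ q ∣ finrank ℚ M := by
  have hne : Ideal.span {((p : 𝓞 M)) ^ q} ≠ ⊥ := by
    rw [Ne, Ideal.span_singleton_eq_bot]
    exact pow_ne_zero _ (by exact_mod_cast hp.ne_zero)
  have h1 := (differentialIdeal_le_iff (A := ℤ) (K := ℚ) (L := M) hne).1 h
  have hpM : (p : M) ≠ 0 := by exact_mod_cast hp.ne_zero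
  have h2 : (((p : M) ^ q)⁻¹) ∈ (((Ideal.span {((p : 𝓞 M)) ^ q} : Ideal (𝓞 M)) : FractionalIdeal (𝓞 M)⁰ M)⁻¹ :
      FractionalIdeal (𝓞 M)⁰ M) := by
    rw [FractionalIdeal.mem_inv_iff (by
      rw [Ne, FractionalIdeal.coeIdeal_eq_zero]
      exact hne)]
    intro z hz
    obtain ⟨w, hw, rfl⟩ := (FractionalIdeal.mem_coeIdeal _).1 hz
    rw [Ideal.mem_span_singleton] at hw
    obtain ⟨v, rfl⟩ := hw
    refine (FractionalIdeal.mem_one_iff _).2 ⟨v, ?_⟩
    rw [map_mul, map_pow, map_natCast, ← mul_assoc, inv_mul_cancel₀ (pow_ne_zero _ hpM), one_mul]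
  have h3 : Algebra.trace ℚ M ((p : M) ^ q)⁻¹ ∈ (1 : Submodule ℤ ℚ) := h1 ⟨_, h2, rfl⟩
  obtain ⟨m, hm⟩ := Submodule.mem_one.1 h3
  have h4 : ((p : M) ^ q)⁻¹ = algebraMap ℚ M (((p : ℚ) ^ q)⁻¹) := by
    rw [map_inv₀, map_pow, map_natCast]
  rw [h4, Algebra.trace_algebraMap, nsmul_eq_mul] at hm
  have hpQ : (p : ℚ) ^ q ≠ 0 := pow_ne_zero _ (by exact_mod_cast hp.ne_zero)
  have h5 : (m : ℚ) * (p : ℚ) ^ q = (finrank ℚ M : ℚ) := by
    have : (m : ℚ) = (finrank ℚ M : ℚ) * ((p : ℚ) ^ q)⁻¹ := hm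
    rw [this, mul_assoc, inv_mul_cancel₀ hpQ, mul_one]
  have h6 : m * (p : ℤ) ^ q = (finrank ℚ M : ℤ) := by exact_mod_cast h5
  have h7 : ((p ^ q : ℕ) : ℤ) ∣ (finrank ℚ M : ℤ) := by
    refine ⟨m, ?_⟩
    rw [← h6]
    push_cast
    ring
  exact_mod_cast h7

theorem exists_prime_mem (P : Ideal (𝓞 M)) (hP : P.IsMaximal) : ∃ p : ℕ, p.Prime ∧ (p : 𝓞 M) ∈ P := by
  have hne : P ≠ ⊥ := Ideal.IsMaximal.ne_bot_of_isIntegral_int P
  let _ := Ideal.Quotient.field P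
  have : Finite (𝓞 M ⧸ P) := Ideal.finiteQuotientOfFreeOfNeBot _ hne
  cases nonempty_fintype (𝓞 M ⧸ P)
  obtain ⟨p, hc⟩ := CharP.exists (𝓞 M ⧸ P)
  obtain ⟨k, hp, hk⟩ := FiniteField.card (𝓞 M ⧸ P) p
  refine ⟨p, hp, ?_⟩
  rw [← Ideal.Quotient.eq_zero_iff_mem, map_natCast]
  exact CharP.cast_eq_zero _ _

theorem under_eq {P : Ideal (𝓞 M)} (hP : P.IsMaximal) {p : ℕ} (hp : p.Prime) (hpP : (p : 𝓞 M) ∈ P) :
    P.under ℤ = Ideal.span {(p : ℤ)} := by
  have hmax : (Ideal.span {(p : ℤ)}).IsMaximal :=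
    PrincipalIdealRing.isMaximal_of_irreducible (Nat.prime_iff_prime_int.mp hp).irreducible
  refine (hmax.eq_of_le ?_ ?_).symm
  · intro h
    apply hP.ne_top
    rw [Ideal.eq_top_iff_one] at h ⊢
    have : algebraMap ℤ (𝓞 M) 1 ∈ P := h
    rwa [map_one] at this
  · rw [Ideal.span_singleton_le_iff_mem]
    show algebraMap ℤ (𝓞 M) (p : ℤ) ∈ P
    rw [map_natCast]
    exact hpP

theorem diff_dvd [IsGalois ℚ M] (S : Finset ℕ) (hS : ∀ p ∈ S, p.Prime)
    (h : ∀ p : ℕ, p.Prime → p ∉ S → ∀ P : Ideal (𝓞 M), P.IsMaximal → (p : 𝓞 M) ∈ P →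
      ∀ γ : M ≃ₐ[ℚ] M, γ ∈ P.inertia (M ≃ₐ[ℚ] M) → γ = 1) :
    differentIdeal ℤ (𝓞 M) ∣ Ideal.span {((finrank ℚ M * ∏ p ∈ S, p : ℕ) : 𝓞 M)} := by
  classical
  have hG1 : IsGaloisGroup (M ≃ₐ[ℚ] M) ℤ (𝓞 M) :=
    IsGaloisGroup.of_isFractionRing (M ≃ₐ[ℚ] M) ℤ (𝓞 M) ℚ M
  have hD : differentIdeal ℤ (𝓞 M) ≠ 0 := differentIdeal_ne_bot
  have hm0 : finrank ℚ M * ∏ p ∈ S, p ≠ 0 :=
    mul_ne_zero finrank_pos.ne' (Finset.prod_ne_zero_iff.2 fun p hp => (hS p hp).ne_zero)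
  have hm : Ideal.span {((finrank ℚ M * ∏ p ∈ S, p : ℕ) : 𝓞 M)} ≠ 0 := by
    rw [Ne, Ideal.zero_eq_bot, Ideal.span_singleton_eq_bot]
    exact_mod_cast hm0
  refine dvd_of_count hD hm fun P hP => ?_
  have hPp : P.IsPrime := Ideal.isPrime_of_prime hP
  have hP0 : P ≠ ⊥ := hP.ne_zero
  have hPm : P.IsMaximal := hPp.isMaximal hP0
  obtain ⟨p, hp, hpP⟩ := exists_prime_mem M P hPm
  have hspan0 : ∀ r : ℕ, r.Prime → Ideal.span {(r : 𝓞 M)} ≠ 0 := by
    intro r hr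
    rw [Ne, Ideal.zero_eq_bot, Ideal.span_singleton_eq_bot]
    exact_mod_cast hr.ne_zero
  by_cases hpS : p ∈ S
  · set e := (normalizedFactors (Ideal.span {(p : 𝓞 M)})).count P with he
    set k := (normalizedFactors (differentIdeal ℤ (𝓞 M))).count P with hk
    have he1 : 1 ≤ e := by
      rw [he, ← pow_dvd_iff hP (hspan0 p hp), pow_one, Ideal.dvd_span_singleton]
      exact hpP
    have hq : Ideal.span {(p : 𝓞 M)} ^ (k / e) ∣ differentIdeal ℤ (𝓞 M) := by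
      refine dvd_of_count (pow_ne_zero _ (hspan0 p hp)) hD fun Q hQ => ?_
      rw [count_pow]
      by_cases hQp : (p : 𝓞 M) ∈ Q
      · have hQm : Q.IsMaximal := (Ideal.isPrime_of_prime hQ).isMaximal hQ.ne_zero
        have hQ' : Q.IsPrime := Ideal.isPrime_of_prime hQ
        obtain ⟨g, hg⟩ := Algebra.IsInvariant.exists_smul_of_under_eq ℤ (𝓞 M) (M ≃ₐ[ℚ] M) P Q
          ((under_eq M hPm hp hpP).trans (under_eq M hQm hp hQp).symm)
        rw [hg] at hQ ⊢
        rw [count_smul M (hspan0 p hp) g (span_smul M g p) hP hQ,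
          count_smul M hD g (diff_smul M g) hP hQ]
        exact Nat.div_mul_le_self k e
      · have : (normalizedFactors (Ideal.span {(p : 𝓞 M)})).count Q = 0 := by
          by_contra hne
          apply hQp
          have h1 : 1 ≤ (normalizedFactors (Ideal.span {(p : 𝓞 M)})).count Q := Nat.one_le_iff_ne_zero.2 hne
          rw [← pow_dvd_iff hQ (hspan0 p hp), pow_one, Ideal.dvd_span_singleton] at h1
          exact h1
        rw [this, mul_zero]
        exact Nat.zero_le _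
    rw [Ideal.dvd_iff_le, Ideal.span_singleton_pow] at hq
    have h1 := pow_dvd_finrank M p (k / e) hp hq
    have h2 : p ^ (k / e + 1) ∣ finrank ℚ M * ∏ p ∈ S, p := by
      rw [pow_succ]
      exact mul_dvd_mul h1 (Finset.dvd_prod_of_mem _ hpS)
    have h3 : Ideal.span {(p : 𝓞 M)} ^ (k / e + 1) ∣
        Ideal.span {((finrank ℚ M * ∏ p ∈ S, p : ℕ) : 𝓞 M)} := by
      rw [Ideal.span_singleton_pow, Ideal.dvd_span_singleton, Ideal.mem_span_singleton]
      have := Nat.cast_dvd_cast (α := 𝓞 M) h2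
      rwa [Nat.cast_pow] at this
    have h4 := Multiset.le_iff_count.1 ((dvd_iff_normalizedFactors_le_normalizedFactors
      (pow_ne_zero _ (hspan0 p hp)) hm).1 h3) P
    rw [count_pow, ← he] at h4
    refine le_trans ?_ h4
    have h5 : k < (k / e + 1) * e := by
      have := Nat.lt_mul_div_succ k (Nat.lt_of_lt_of_le Nat.zero_lt_one he1)
      rwa [mul_comm] at this
    exact h5.le
  · have h0 : (normalizedFactors (differentIdeal ℤ (𝓞 M))).count P = 0 := by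
      by_contra hne
      have h1 : 1 ≤ (normalizedFactors (differentIdeal ℤ (𝓞 M))).count P := Nat.one_le_iff_ne_zero.2 hne
      rw [← pow_dvd_iff hP hD, pow_one] at h1
      refine (not_dvd_differentIdeal_iff (A := ℤ) (B := 𝓞 M) (P := P)).2 ?_ h1
      have hum : (P.under ℤ).IsMaximal := Ideal.IsMaximal.under ℤ P
      have e1 : Nat.card (P.inertia (M ≃ₐ[ℚ] M)) = P.ramificationIdx ℤ := by
        rw [Ideal.card_inertia_eq_ramificationIdxIn (P.under ℤ),
          Ideal.ramificationIdxIn_eq_ramificationIdx (P.under ℤ) P (M ≃ₐ[ℚ] M)]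
      have e2 : Nat.card (P.inertia (M ≃ₐ[ℚ] M)) = 1 := by
        have : P.inertia (M ≃ₐ[ℚ] M) = ⊥ := by
          rw [eq_bot_iff]
          intro γ hγ
          rw [Subgroup.mem_bot]
          exact h p hp hpS P hPm hpP γ hγ
        rw [this]
        simp
      rw [← Ideal.ramificationIdx_eq_one_iff, ← e1, e2]
    rw [h0]
    exact Nat.zero_le _

theorem discr_le [IsGalois ℚ M] (S : Finset ℕ) (hS : ∀ p ∈ S, p.Prime)
    (h : ∀ p : ℕ, p.Prime → p ∉ S → ∀ P : Ideal (𝓞 M), P.IsMaximal → (p : 𝓞 M) ∈ P →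
      ∀ γ : M ≃ₐ[ℚ] M, γ ∈ P.inertia (M ≃ₐ[ℚ] M) → γ = 1) :
    (discr M).natAbs ≤ (finrank ℚ M * ∏ p ∈ S, p) ^ finrank ℚ M := by
  have h1 := diff_dvd M S hS h
  have h2 := Ideal.absNorm_dvd_absNorm_of_le (Ideal.dvd_iff_le.1 h1)
  rw [absNorm_differentIdeal M, Ideal.absNorm_span_singleton] at h2
  have h3 : Algebra.norm ℤ (((finrank ℚ M * ∏ p ∈ S, p : ℕ)) : 𝓞 M) =
      ((finrank ℚ M * ∏ p ∈ S, p : ℕ) : ℤ) ^ finrank ℚ M := by
    have := Algebra.norm_algebraMap (R := ℤ) (S := 𝓞 M) ((finrank ℚ M * ∏ p ∈ S, p : ℕ) : ℤ)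
    rw [RingOfIntegers.rank, map_natCast] at this
    exact this
  rw [h3, Int.natAbs_pow, Int.natAbs_natCast] at h2
  refine Nat.le_of_dvd ?_ h2
  exact pow_pos (Nat.pos_of_ne_zero (mul_ne_zero finrank_pos.ne'
    (Finset.prod_ne_zero_iff.2 fun p hp => (hS p hp).ne_zero))) _

end field

section group

variable {Ω : Type} [Field Ω] [Algebra ℚ Ω]

theorem coe_smul (σ : Gal(Ω/ℚ)) (x : 𝓞 Ω) : ((σ • x : 𝓞 Ω) : Ω) = σ x := rfl

theorem smulComm (M : IntermediateField ℚ Ω) :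
    SMulCommClass M.fixingSubgroup (𝓞 M) (𝓞 Ω) := by
  refine ⟨fun g a b => ?_⟩
  apply RingOfIntegers.ext
  rw [Subgroup.smul_def, Subgroup.smul_def, coe_smul, Algebra.smul_def, Algebra.smul_def]
  show g.1 ((algebraMap (𝓞 M) (𝓞 Ω) a : 𝓞 Ω) * (b : Ω)) =
    (algebraMap (𝓞 M) (𝓞 Ω) a : 𝓞 Ω) * g.1 b
  rw [map_mul]
  congr 1
  exact g.2 (a : M)

theorem isInv [IsGalois ℚ Ω] (M : IntermediateField ℚ Ω) :
    Algebra.IsInvariant (𝓞 M) (𝓞 Ω) M.fixingSubgroup := by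
  refine ⟨fun b hb => ?_⟩
  have h1 : (b : Ω) ∈ M := by
    rw [← InfiniteGalois.fixedField_fixingSubgroup M]
    intro g
    exact congrArg (fun z : 𝓞 Ω => (z : Ω)) (hb g)
  refine ⟨⟨⟨b, h1⟩, ?_⟩, ?_⟩
  · have h3 : IsIntegral ℤ (algebraMap M Ω ⟨b, h1⟩) := b.2
    exact (isIntegral_algebraMap_iff (algebraMap M Ω).injective).1 h3
  · apply RingOfIntegers.ext
    rfl

/-- inertia groups of a finite Galois extension come from those of the whole Galois group -/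
theorem inert_triv [IsGalois ℚ Ω] (H : Subgroup Gal(Ω/ℚ)) (M : IntermediateField ℚ Ω) [NumberField M]
    [IsGalois ℚ M] (hfix : M.fixingSubgroup = H) (p : ℕ)
    (hI : ∀ P : Ideal (𝓞 Ω), P.IsMaximal → (p : 𝓞 Ω) ∈ P →
      ∀ τ : Gal(Ω/ℚ), (∀ x : 𝓞 Ω, τ • x - x ∈ P) → τ ∈ H) :
    ∀ P : Ideal (𝓞 M), P.IsMaximal → (p : 𝓞 M) ∈ P →
      ∀ γ : M ≃ₐ[ℚ] M, γ ∈ P.inertia (M ≃ₐ[ℚ] M) → γ = 1 := by
  classical
  have hclosed : IsClosed (M.fixingSubgroup : Set Gal(Ω/ℚ)) :=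
    InfiniteGalois.fixingSubgroup_isClosed M
  have hcomm : SMulCommClass M.fixingSubgroup (𝓞 M) (𝓞 Ω) := smulComm M
  have hinv : Algebra.IsInvariant (𝓞 M) (𝓞 Ω) M.fixingSubgroup := isInv M
  have hcpt : CompactSpace M.fixingSubgroup := isCompact_iff_compactSpace.1 hclosed.isCompact
  let _ : TopologicalSpace (𝓞 Ω) := ⊥
  have : DiscreteTopology (𝓞 Ω) := ⟨rfl⟩
  have hcont : ContinuousSMul Gal(Ω/ℚ) (𝓞 Ω) := by
    rw [continuousSMul_iff_stabilizer_isOpen]
    intro x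
    have h1 := stabilizer_isOpen_of_isIntegral (K := ℚ) (x : Ω)
    have h2 : (MulAction.stabilizer Gal(Ω/ℚ) x : Set Gal(Ω/ℚ)) =
        (MulAction.stabilizer Gal(Ω/ℚ) (x : Ω) : Set Gal(Ω/ℚ)) := by
      ext g
      rw [SetLike.mem_coe, SetLike.mem_coe, MulAction.mem_stabilizer_iff, MulAction.mem_stabilizer_iff]
      constructor
      · intro h
        exact congrArg (fun z : 𝓞 Ω => (z : Ω)) h
      · intro h
        exact RingOfIntegers.ext h
    rw [h2]
    exact h1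
  have hcontU : ContinuousSMul M.fixingSubgroup (𝓞 Ω) := inferInstance
  intro P hP hpP γ hγ
  obtain ⟨Q, hQm, hQP⟩ := Ideal.exists_maximal_ideal_liesOver_of_isIntegral (S := 𝓞 Ω) P
  obtain ⟨g0, hg0⟩ := AlgEquiv.restrictNormalHom_surjective (F := ℚ) (K₁ := M) Ω γ
  have hres : ∀ a : 𝓞 M, g0 • (algebraMap (𝓞 M) (𝓞 Ω) a) =
      algebraMap (𝓞 M) (𝓞 Ω) (γ • a) := by
    intro a
    apply RingOfIntegers.ext
    rw [coe_smul]
    have := AlgEquiv.restrictNormal_commutes g0 M (a : M)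
    rw [← hg0]
    exact this.symm
  have hres' : ∀ a : 𝓞 M, g0⁻¹ • (algebraMap (𝓞 M) (𝓞 Ω) a) =
      algebraMap (𝓞 M) (𝓞 Ω) (γ⁻¹ • a) := by
    intro a
    rw [inv_smul_eq_iff, hres, smul_inv_smul]
  have hmemP : ∀ a : 𝓞 M, algebraMap (𝓞 M) (𝓞 Ω) a ∈ Q ↔ a ∈ P := by
    intro a
    rw [hQP.over]
    rfl
  have hpQ : (p : 𝓞 Ω) ∈ Q := by
    have := (hmemP (p : 𝓞 M)).2 hpP
    rwa [map_natCast] at this
  have hQ' : (g0 • Q).IsPrime := inferInstance
  have hunder : (g0 • Q).under (𝓞 M) = Q.under (𝓞 M) := by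
    ext a
    rw [Ideal.under_def, Ideal.mem_comap, Ideal.under_def, Ideal.mem_comap,
      Ideal.mem_pointwise_smul_iff_inv_smul_mem, hres', hmemP, hmemP]
    have h1 : γ⁻¹ • a - a ∈ P := (inv_mem hγ) a
    constructor
    · intro h2
      have := P.sub_mem h2 h1
      rwa [sub_sub_cancel] at this
    · intro h2
      have := P.add_mem h1 h2
      rwa [sub_add_cancel] at this
  obtain ⟨h, hh⟩ := Algebra.IsInvariant.exists_smul_of_under_eq_of_profinite
    (A := 𝓞 M) (G := M.fixingSubgroup) (g0 • Q) Q hunder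
  set g1 : Gal(Ω/ℚ) := h.1 * g0 with hg1
  have hg1Q : g1 • Q = Q := by
    rw [hg1, mul_smul]
    exact hh.symm
  have hres1 : ∀ a : 𝓞 M, g1 • (algebraMap (𝓞 M) (𝓞 Ω) a) =
      algebraMap (𝓞 M) (𝓞 Ω) (γ • a) := by
    intro a
    rw [hg1, mul_smul, hres]
    exact smul_algebraMap h (γ • a)
  have hmap : Q = Q.map (MulSemiringAction.toRingEquiv Gal(Ω/ℚ) (𝓞 Ω) g1 : 𝓞 Ω →+* 𝓞 Ω) := by
    conv_lhs => rw [← hg1Q]
    rw [Ideal.pointwise_smul_def]
    rfl
  let σ : (𝓞 Ω ⧸ Q) ≃ₐ[𝓞 M ⧸ P] (𝓞 Ω ⧸ Q) :=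
    AlgEquiv.ofRingEquiv (f := Ideal.quotientEquiv Q Q
      (MulSemiringAction.toRingEquiv Gal(Ω/ℚ) (𝓞 Ω) g1) hmap) (by
      intro a
      obtain ⟨a, rfl⟩ := Ideal.Quotient.mk_surjective a
      show Ideal.Quotient.mk Q (g1 • algebraMap (𝓞 M) (𝓞 Ω) a) =
        Ideal.Quotient.mk Q (algebraMap (𝓞 M) (𝓞 Ω) a)
      rw [Ideal.Quotient.mk_eq_mk_iff_sub_mem, hres1, ← map_sub, hmemP]
      exact hγ a)
  obtain ⟨k, hk⟩ := Ideal.Quotient.stabilizerHom_surjective_of_profinite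
    (G := M.fixingSubgroup) P Q σ
  have hk' : ∀ x : 𝓞 Ω, g1 • x - k.1.1 • x ∈ Q := by
    intro x
    have h1 := DFunLike.congr_fun hk (Ideal.Quotient.mk Q x)
    rw [Ideal.Quotient.stabilizerHom_apply] at h1
    rw [← Ideal.Quotient.mk_eq_mk_iff_sub_mem]
    exact h1.symm
  obtain ⟨k1, hkU, hkQ, hk'⟩ : ∃ k1 : Gal(Ω/ℚ), k1 ∈ H ∧ k1 • Q = Q ∧
      ∀ x : 𝓞 Ω, g1 • x - k1 • x ∈ Q := ⟨k.1.1, by rw [← hfix]; exact k.1.2, k.2, hk'⟩
  have hτ : ∀ x : 𝓞 Ω, (k1⁻¹ * g1) • x - x ∈ Q := by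
    intro x
    have h1 := hk' x
    rw [← hkQ, Ideal.mem_pointwise_smul_iff_inv_smul_mem, smul_sub, inv_smul_smul,
      ← mul_smul] at h1
    exact h1
  have h5 : k1⁻¹ * g1 ∈ H := hI Q hQm hpQ _ hτ
  have h6 : g0 ∈ H := by
    have h7 : h.1 ∈ H := by rw [← hfix]; exact h.2
    have h8 := H.mul_mem (H.inv_mem h7) (H.mul_mem hkU h5)
    rwa [mul_inv_cancel_left, hg1, inv_mul_cancel_left] at h8
  rw [← hfix, IntermediateField.mem_fixingSubgroup_iff] at h6
  rw [← hg0]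
  ext x
  have h7 := AlgEquiv.restrictNormal_commutes g0 M x
  have h8 := h6 _ x.2
  exact h7.trans h8

end group

/-- **Hermite-Minkowski.** -/
theorem finite_subgroups (S : Finset ℕ) (hS : ∀ p ∈ S, p.Prime) (D : ℕ) :
    {H : Subgroup GQ | H.Normal ∧ IsOpen (H : Set GQ) ∧ H.index ≤ D ∧
      ∀ p : ℕ, p.Prime → p ∉ S → ∀ P : Ideal ZBar, P.IsMaximal → (p : ZBar) ∈ P →
        ∀ τ : GQ, InInertia P τ → τ ∈ H}.Finite := by
  classical
  set N : ℕ := (D * ∏ p ∈ S, p) ^ D with hN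
  have hfin := (NumberField.finite_of_discr_bdd (AlgebraicClosure ℚ) N).image
    (fun K : {F : IntermediateField ℚ (AlgebraicClosure ℚ) // FiniteDimensional ℚ F} => K.1)
  refine Set.Finite.of_finite_image (f := fun H : Subgroup GQ => IntermediateField.fixedField H)
    (hfin.subset ?_) ?_
  · rintro _ ⟨H, ⟨hn, ho, hD, hI⟩, rfl⟩
    have hclosed : IsClosed (H : Set GQ) := Subgroup.isClosed_of_isOpen _ ho
    have hfix : (IntermediateField.fixedField H).fixingSubgroup = H :=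
      InfiniteGalois.fixingSubgroup_fixedField ⟨H, hclosed⟩
    have hfd : FiniteDimensional ℚ (IntermediateField.fixedField H) :=
      (InfiniteGalois.isOpen_iff_finite (IntermediateField.fixedField H)).1 (by rw [hfix]; exact ho)
    have hgal : IsGalois ℚ (IntermediateField.fixedField H) :=
      (InfiniteGalois.normal_iff_isGalois (IntermediateField.fixedField H)).1 (by rw [hfix]; exact hn)
    have hnf : NumberField (IntermediateField.fixedField H) := ⟨⟩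
    refine ⟨⟨IntermediateField.fixedField H, hfd⟩, ?_, rfl⟩
    have h1 := discr_le (IntermediateField.fixedField H) S hS (fun p hp hpS =>
      inert_triv H (IntermediateField.fixedField H) hfix p (hI p hp hpS))
    have h2 : finrank ℚ (IntermediateField.fixedField H) ≤ D := by
      rw [IntermediateField.finrank_eq_fixingSubgroup_index, hfix]
      exact hD
    have hprod : 1 ≤ ∏ p ∈ S, p := Finset.prod_pos fun p hp => (hS p hp).pos
    have h3 : (discr (IntermediateField.fixedField H)).natAbs ≤ N := by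
      refine h1.trans ?_
      rw [hN]
      have hpos : 1 ≤ D := by
        refine le_trans ?_ h2
        exact finrank_pos
      exact (Nat.pow_le_pow_left (Nat.mul_le_mul_right _ h2) _).trans
        (Nat.pow_le_pow_right (Nat.mul_pos hpos hprod) h2)
    show |discr (IntermediateField.fixedField H)| ≤ (N : ℤ)
    rw [Int.abs_eq_natAbs]
    exact_mod_cast h3
  · rintro H ⟨_, ho, _⟩ H' ⟨_, ho', _⟩ h
    have hfix : (IntermediateField.fixedField H).fixingSubgroup = H :=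
      InfiniteGalois.fixingSubgroup_fixedField ⟨H, Subgroup.isClosed_of_isOpen _ ho⟩
    have hfix' : (IntermediateField.fixedField H').fixingSubgroup = H' :=
      InfiniteGalois.fixingSubgroup_fixedField ⟨H', Subgroup.isClosed_of_isOpen _ ho'⟩
    rw [← hfix, ← hfix']
    have h2 : IntermediateField.fixedField H = IntermediateField.fixedField H' := h
    rw [h2]

end Pool.Agent.Y800.HM
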