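import Pool.Agent.Y800.Two
import Pool.Agent.Y800.HM

/-! Existence of Frobenius elements in cosets; uniform finite sets of primes. -/

set_option autoImplicit false
set_option linter.all false

namespace Pool.Agent.Y800

open NumberField Filter Topology IsDedekindDomain MeasureTheory

/-- geometric Frobenius elements exist -/
theorem exists_geom {p : ℕ} (hp : p.Prime) :
    ∃ (P : Ideal ZBar) (σ : GQ), P.IsMaximal ∧ (p : ZBar) ∈ P ∧ IsGeomFrob p P σ := by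
  obtain ⟨⟨P, hP, hpP, σ, hσ⟩, _⟩ := Pool.Agent.W571.FM.main p hp
  exact ⟨P, σ⁻¹, hP, hpP, geom_of_arith hσ⟩

/-- Chebotarev: every coset contains a conjugate of a geometric Frobenius element -/
theorem exists_frob (U : Subgroup GQ) [hn : U.Normal] (hU : IsOpen (U : Set GQ)) (S : Finset ℕ) (g : GQ) :
    ∃ p : ℕ, p.Prime ∧ p ∉ S ∧ ∃ P : Ideal ZBar, P.IsMaximal ∧ (p : ZBar) ∈ P ∧ ∃ σ : GQ,
      IsGeomFrob p P σ ∧ ∃ τ : GQ, τ * σ * τ⁻¹ * g⁻¹ ∈ U := by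
  by_contra hcon
  push Not at hcon
  haveI hfin : Finite (GQ ⧸ U) := Subgroup.quotient_finite_of_isOpen _ hU
  set C : Set GQ := {x | ∃ τ : GQ, τ * x⁻¹ * τ⁻¹ * g⁻¹ ∈ U} with hC
  have hc : (0 : ℝ) < (Nat.card (GQ ⧸ U) : ℝ) := by exact_mod_cast Nat.card_pos
  set c : ℝ := 1 / (2 * (Nat.card (GQ ⧸ U) : ℝ)) with hcdef
  have hcpos : 0 < c := by positivity
  have key := cheb_le U hU C ?_ ?_ (S : Set ℕ) c (cnt_finite S hcpos) ?_
  · have h1 : g⁻¹ ∈ C := ⟨1, by simp⟩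
    have h2 : 1 ≤ ((QuotientGroup.mk : GQ → GQ ⧸ U) '' C).ncard :=
      (Set.ncard_pos (Set.toFinite _)).2 ⟨_, g⁻¹, h1, rfl⟩
    have h3 : (1 : ℝ) ≤ (((QuotientGroup.mk : GQ → GQ ⧸ U) '' C).ncard : ℝ) := by exact_mod_cast h2
    rw [div_le_iff₀ hc] at key
    have h4 : c * (Nat.card (GQ ⧸ U) : ℝ) = 1 / 2 := by
      rw [hcdef]
      field_simp
    linarith
  · rintro x ⟨τ, hτ⟩ y
    refine ⟨τ * y⁻¹, ?_⟩
    have : τ * y⁻¹ * (y * x * y⁻¹)⁻¹ * (τ * y⁻¹)⁻¹ * g⁻¹ = τ * x⁻¹ * τ⁻¹ * g⁻¹ := by group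
    rwa [this]
  · rintro x ⟨τ, hτ⟩ u hu
    refine ⟨τ, ?_⟩
    have : τ * (x * u)⁻¹ * τ⁻¹ * g⁻¹ = (τ * u⁻¹ * τ⁻¹) * (τ * x⁻¹ * τ⁻¹ * g⁻¹) := by group
    rw [this]
    exact U.mul_mem (hn.conj_mem _ (U.inv_mem hu) τ) hτ
  · rintro p hp hpS P hP hpP σ hσ ⟨τ, hτ⟩
    exact hcon p hp (fun h => hpS h) P hP hpP σ⁻¹ (geom_of_arith hσ) τ hτ

/-- a closed conjugation invariant set which contains almost all Frobenius elements is everything -/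
theorem closed_univ (C : Set GQ) (hC : IsClosed C) (hconj : ∀ σ ∈ C, ∀ τ : GQ, τ * σ * τ⁻¹ ∈ C)
    (S : Finset ℕ) (h : ∀ p : ℕ, p.Prime → p ∉ S → ∀ P : Ideal ZBar, P.IsMaximal → (p : ZBar) ∈ P →
      ∀ σ : GQ, IsGeomFrob p P σ → σ ∈ C) (g : GQ) : g ∈ C := by
  by_contra hg
  have h1 : (fun x => x * g) ⁻¹' Cᶜ ∈ 𝓝 (1 : GQ) := by
    refine (continuous_mul_right g).continuousAt.preimage_mem_nhds ?_
    rw [one_mul]
    exact hC.isOpen_compl.mem_nhds hg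
  obtain ⟨W, hW1, hW, hW0⟩ := mem_nhds_iff.mp h1
  obtain ⟨U, hU⟩ := ProfiniteGrp.exist_openNormalSubgroup_sub_open_nhds_of_one hW hW0
  haveI hUn : U.toSubgroup.Normal := U.isNormal'
  obtain ⟨p, hp, hpS, P, hP, hpP, σ, hσ, τ, hτ⟩ := exists_frob U.toSubgroup U.isOpen' S g
  have h2 := hW1 (hU hτ)
  apply h2
  show τ * σ * τ⁻¹ * g⁻¹ * g ∈ C
  rw [inv_mul_cancel_right]
  exact hconj _ (h p hp hpS P hP hpP σ hσ) τ

/-- a uniform finite set of primes -/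
theorem exists_prime_set (S : Finset ℕ) (hS : ∀ p ∈ S, p.Prime) (S' : Finset ℕ) (D : ℕ) :
    ∃ T : Finset ℕ, (∀ p ∈ T, p.Prime ∧ p ∉ S') ∧
      ∀ H : Subgroup GQ, H.Normal → IsOpen (H : Set GQ) → H.index ≤ D →
        (∀ p : ℕ, p.Prime → p ∉ S → ∀ P : Ideal ZBar, P.IsMaximal → (p : ZBar) ∈ P →
          ∀ τ : GQ, InInertia P τ → τ ∈ H) →
        ∀ g : GQ, ∃ p ∈ T, ∃ P : Ideal ZBar, P.IsMaximal ∧ (p : ZBar) ∈ P ∧ ∃ σ : GQ,
          IsGeomFrob p P σ ∧ ∃ τ : GQ, τ * σ * τ⁻¹ * g⁻¹ ∈ H := by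
  classical
  have hfin := HM.finite_subgroups S hS D
  -- for each subgroup a finite set
  have h1 : ∀ H : Subgroup GQ, H.Normal → IsOpen (H : Set GQ) → ∃ T : Finset ℕ,
      (∀ p ∈ T, p.Prime ∧ p ∉ S') ∧ ∀ g : GQ, ∃ p ∈ T, ∃ P : Ideal ZBar, P.IsMaximal ∧ (p : ZBar) ∈ P ∧
        ∃ σ : GQ, IsGeomFrob p P σ ∧ ∃ τ : GQ, τ * σ * τ⁻¹ * g⁻¹ ∈ H := by
    intro H hn ho
    haveI hfin : Finite (GQ ⧸ H) := Subgroup.quotient_finite_of_isOpen _ ho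
    haveI := Fintype.ofFinite (GQ ⧸ H)
    choose f hf1 hf2 hf3 using fun g : GQ => exists_frob H ho S' g
    refine ⟨Finset.univ.image fun a : GQ ⧸ H => f a.out, ?_, fun g => ?_⟩
    · intro p hp
      obtain ⟨a, _, rfl⟩ := Finset.mem_image.1 hp
      exact ⟨hf1 _, hf2 _⟩
    · refine ⟨f (g : GQ ⧸ H).out, Finset.mem_image_of_mem _ (Finset.mem_univ _), ?_⟩
      obtain ⟨P, hP, hpP, σ, hσ, τ, hτ⟩ := hf3 (g : GQ ⧸ H).out
      refine ⟨P, hP, hpP, σ, hσ, τ, ?_⟩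
      have h2 : ((g : GQ ⧸ H).out)⁻¹ * g ∈ H := by
        rw [← QuotientGroup.eq, QuotientGroup.out_eq']
      have h3 : g⁻¹ * (g : GQ ⧸ H).out ∈ H := by
        have := H.inv_mem h2
        rwa [mul_inv_rev, inv_inv] at this
      have h4 : (g : GQ ⧸ H).out * g⁻¹ ∈ H := by
        have := hn.conj_mem _ h3 g
        rwa [mul_inv_cancel_left] at this
      have h5 := H.mul_mem hτ h4
      rwa [mul_assoc (τ * σ * τ⁻¹), inv_mul_cancel_left] at h5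
  choose! f hf1 hf2 using h1
  refine ⟨hfin.toFinset.biUnion f, ?_, ?_⟩
  · intro p hp
    obtain ⟨H, hH, hpH⟩ := Finset.mem_biUnion.1 hp
    rw [Set.Finite.mem_toFinset] at hH
    exact hf1 H hH.1 hH.2.1 p hpH
  · intro H hn ho hD hI g
    obtain ⟨p, hp, h2⟩ := hf2 H hn ho g
    refine ⟨p, Finset.mem_biUnion.2 ⟨H, ?_, hp⟩, h2⟩
    rw [Set.Finite.mem_toFinset]
    exact ⟨hn, ho, hD, hI⟩

end Pool.Agent.Y800
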