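import Pool.Agent.Y800.Null
import Pool.Agent.Y800.Diag

/-! Extension of residue maps to the ring of all algebraic integers; roots of unity. -/

set_option autoImplicit false
set_option linter.all false

namespace Pool.Agent.Y800

open NumberField Polynomial

theorem extend_gen {R S k : Type} [CommRing R] [CommRing S] [Algebra R S] [Algebra.IsIntegral R S]
    [FaithfulSMul R S] [Field k] [IsAlgClosed k] (φ : R →+* k) :
    ∃ ψ : S →+* k, ∀ a : R, ψ (algebraMap R S a) = φ a := by
  have hprime : (RingHom.ker φ).IsPrime := RingHom.ker_isPrime φ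
  obtain ⟨Q, _, hQ, hQφ⟩ := Ideal.exists_ideal_over_prime_of_isIntegral (S := S) (RingHom.ker φ) ⊥ (by
    rw [← RingHom.ker_eq_comap_bot, (RingHom.injective_iff_ker_eq_bot _).1 (FaithfulSMul.algebraMap_injective R S)]
    exact bot_le)
  let R' := R ⧸ RingHom.ker φ
  let S' := S ⧸ Q
  let f : R' →+* S' := Ideal.quotientMap Q (algebraMap R S) (by rw [hQφ])
  have hf : Function.Injective f := Ideal.quotientMap_injective' (by rw [hQφ])
  letI : Algebra R' S' := f.toAlgebra
  let g : R' →+* k := RingHom.kerLift φ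
  have hg : Function.Injective g := RingHom.kerLift_injective φ
  letI : Algebra R' k := g.toAlgebra
  haveI : IsDomain R' := Ideal.Quotient.isDomain _
  haveI : IsDomain S' := Ideal.Quotient.isDomain _
  haveI : Module.IsTorsionFree R' S' := Module.isTorsionFree_iff_algebraMap_injective.2 hf
  haveI : Module.IsTorsionFree R' k := Module.isTorsionFree_iff_algebraMap_injective.2 hg
  haveI : Algebra.IsIntegral R' S' := by
    constructor
    intro x
    obtain ⟨s, rfl⟩ := Ideal.Quotient.mk_surjective x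
    obtain ⟨p, hp, hps⟩ := Algebra.IsIntegral.isIntegral (R := R) s
    refine ⟨p.map (Ideal.Quotient.mk _), hp.map _, ?_⟩
    rw [eval₂_map]
    have h1 : (algebraMap R' S').comp (Ideal.Quotient.mk (RingHom.ker φ)) =
        (Ideal.Quotient.mk Q).comp (algebraMap R S) := by
      ext a
      rfl
    rw [h1, ← Polynomial.hom_eval₂, hps, map_zero]
  haveI : Algebra.IsAlgebraic R' S' := Algebra.IsIntegral.isAlgebraic
  let l : S' →ₐ[R'] k := IsAlgClosed.lift
  refine ⟨(l : S' →+* k).comp (Ideal.Quotient.mk Q), fun a => ?_⟩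
  have h2 : (Ideal.Quotient.mk Q) (algebraMap R S a) = algebraMap R' S' (Ideal.Quotient.mk _ a) := rfl
  rw [RingHom.comp_apply, h2]
  show l (algebraMap R' S' (Ideal.Quotient.mk _ a)) = φ a
  rw [l.commutes]
  rfl

theorem mapRingHom_injective {K L : Type} [Field K] [Field L] (j : K →+* L) :
    Function.Injective (RingOfIntegers.mapRingHom j) := by
  intro x y h
  apply RingOfIntegers.ext
  apply j.injective
  exact congrArg (fun z : 𝓞 L => (z : L)) h

/-- extension of a homomorphism from the ring of integers of `K` to the ring of all algebraic integers -/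
theorem extend {K : Type} [Field K] [NumberField K] {k : Type} [Field k] [IsAlgClosed k] (j : K →+* QBar)
    (φ : 𝓞 K →+* k) : ∃ ψ : ZBar →+* k, ∀ a : 𝓞 K, ψ (RingOfIntegers.mapRingHom j a) = φ a := by
  letI : Algebra (𝓞 K) ZBar := (RingOfIntegers.mapRingHom j).toAlgebra
  haveI : FaithfulSMul (𝓞 K) ZBar :=
    (faithfulSMul_iff_algebraMap_injective (𝓞 K) ZBar).2 (mapRingHom_injective j)
  haveI : Algebra.IsIntegral (𝓞 K) ZBar := by
    constructor
    intro x
    obtain ⟨p, hp, hpx⟩ := Algebra.IsIntegral.isIntegral (R := ℤ) x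
    refine ⟨p.map (Int.castRingHom (𝓞 K)), hp.map _, ?_⟩
    rw [eval₂_map]
    rw [← hpx]
    congr 1
    exact RingHom.ext_int _ _
  exact extend_gen φ

/-- primitive roots of unity in `ZBar` -/
theorem exists_prim (D : ℕ) (hD : 0 < D) : ∃ z : ZBar, IsPrimitiveRoot z D := by
  haveI : NeZero D := ⟨hD.ne'⟩
  haveI : NeZero (D : QBar) := ⟨by exact_mod_cast hD.ne'⟩
  obtain ⟨z, hz⟩ := HasEnoughRootsOfUnity.exists_primitiveRoot QBar D
  have hint : IsIntegral ℤ z := hz.isIntegral hD
  refine ⟨⟨z, hint⟩, ?_⟩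
  have hinj : Function.Injective (algebraMap ZBar QBar) := RingOfIntegers.coe_injective
  exact IsPrimitiveRoot.of_map_of_injective (f := algebraMap ZBar QBar) hz hinj

theorem root_lift (D : ℕ) (hD : 0 < D) {k : Type} [Field k] (ψ : ZBar →+* k) (r : k) (hr : r ^ D = 1) :
    ∃ z : ZBar, z ^ D = 1 ∧ ψ z = r := by
  obtain ⟨w, hw⟩ := exists_prim D hD
  have h1 := X_pow_sub_one_eq_prod hD hw
  have h2 := congrArg (Polynomial.eval₂ ψ r) h1
  rw [eval₂_sub, eval₂_X_pow, eval₂_one, hr, sub_self, eval₂_finset_prod] at h2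
  obtain ⟨z, hz, hz0⟩ := Finset.prod_eq_zero_iff.1 h2.symm
  rw [mem_nthRootsFinset hD] at hz
  rw [eval₂_sub, eval₂_X, eval₂_C, sub_eq_zero] at hz0
  exact ⟨z, hz, hz0.symm⟩

/-- the eigenvalues of a matrix of finite order -/
theorem eig_of_pow {k : Type} [Field k] [IsAlgClosed k] {n : ℕ} (M : Matrix (Fin n) (Fin n) k) (D : ℕ)
    (hM : M ^ D = 1) : ∃ r : Fin n → k, (∀ i, r i ^ D = 1) ∧ M.charpoly = ∏ i, (X - C (r i)) := by
  classical
  have hs := IsAlgClosed.splits M.charpoly
  have h1 := hs.eq_prod_roots_of_monic M.charpoly_monic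
  have h2 : M.charpoly.roots.card = n := by
    rw [← hs.natDegree_eq_card_roots, Matrix.charpoly_natDegree_eq_dim, Fintype.card_fin]
  obtain ⟨l, hl⟩ : ∃ l : List k, (l : Multiset k) = M.charpoly.roots := ⟨_, Multiset.coe_toList _⟩
  have hlen : l.length = n := by rw [← h2, ← hl, Multiset.coe_card]
  subst hlen
  refine ⟨fun i => l.get i, fun i => ?_, ?_⟩
  · have hmem : l.get i ∈ M.charpoly.roots := by
      rw [← hl]
      exact Multiset.mem_coe.2 (l.get_mem i)
    have hroot : M.charpoly.IsRoot (l.get i) := (mem_roots M.charpoly_monic.ne_zero).1 hmem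
    have h3 : Module.End.HasEigenvalue (Matrix.toLin' M) (l.get i) := by
      rw [Module.End.hasEigenvalue_iff_isRoot_charpoly, Matrix.charpoly_toLin']
      exact hroot
    obtain ⟨v, hv, hv0⟩ := h3.exists_hasEigenvector
    rw [Module.End.mem_eigenspace_iff, Matrix.toLin'_apply] at hv
    have h4 : ∀ m : ℕ, (M ^ m).mulVec v = (l.get i) ^ m • v := by
      intro m
      induction m with
      | zero => rw [pow_zero, pow_zero, one_smul, Matrix.one_mulVec]
      | succ m ih => rw [pow_succ, ← Matrix.mulVec_mulVec, hv, Matrix.mulVec_smul, ih, smul_smul, pow_succ, mul_comm]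
    have h5 := h4 D
    rw [hM, Matrix.one_mulVec] at h5
    have h6 : ((l.get i) ^ D - 1) • v = 0 := by rw [sub_smul, one_smul, ← h5, sub_self]
    rcases smul_eq_zero.1 h6 with h | h
    · exact sub_eq_zero.1 h
    · exact absurd h hv0
  · rw [h1, ← hl, Multiset.map_coe, Multiset.prod_coe]
    rw [← List.prod_ofFn]
    congr 1
    apply List.ext_get
    · simp
    · intro m h1 h2
      simp

end Pool.Agent.Y800
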