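import Mathlib

/-! The traces of a continuous representation of a compact group over the algebraic closure of `ℚ_ℓ`
lie in a finite extension of `ℚ_ℓ`. -/

set_option autoImplicit false
set_option linter.all false

namespace Pool.Agent.Y800

open Module IntermediateField

variable {ℓ : ℕ} [Fact ℓ.Prime]

/-- Krasner: algebraic extensions are closed -/
theorem isClosed_field (L : IntermediateField ℚ_[ℓ] (PadicAlgCl ℓ)) : IsClosed (L : Set (PadicAlgCl ℓ)) := by
  rw [← closure_subset_iff_isClosed]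
  intro x hx
  have hint : ∀ z : PadicAlgCl ℓ, IsIntegral ℚ_[ℓ] z := fun z => Algebra.IsIntegral.isIntegral z
  have hfin : {x' : PadicAlgCl ℓ | IsConjRoot ℚ_[ℓ] x x' ∧ x ≠ x'}.Finite := by
    refine ((minpoly ℚ_[ℓ] x).rootSet_finite (PadicAlgCl ℓ)).subset ?_
    rintro x' ⟨h, _⟩
    exact (isConjRoot_iff_mem_minpoly_rootSet (hint x)).1 h
  have hmem : {x' : PadicAlgCl ℓ | IsConjRoot ℚ_[ℓ] x x' ∧ x ≠ x'}ᶜ ∈ nhds x :=
    hfin.isClosed.isOpen_compl.mem_nhds fun h => h.2 rfl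
  obtain ⟨δ, hδ, hball⟩ := Metric.mem_nhds_iff.1 hmem
  obtain ⟨y, hy, hxy⟩ := Metric.mem_closure_iff.1 hx δ hδ
  have hkr : x ∈ ℚ_[ℓ]⟮y⟯ := by
    refine IsKrasner.krasner (minpoly.irreducible (hint x)).separable
      (IsAlgClosed.splits _) (hint y) fun x' h1 h2 => ?_
    by_contra h3
    push Not at h3
    have h4 : x' ∈ Metric.ball x δ := by
      rw [Metric.mem_ball, dist_comm, dist_eq_norm]
      rw [dist_eq_norm] at hxy
      exact lt_of_le_of_lt h3 hxy
    exact hball h4 ⟨h1, h2⟩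
  have h5 : ℚ_[ℓ]⟮y⟯ ≤ L := by
    rw [adjoin_simple_le_iff]
    exact hy
  exact h5 hkr

/-- the traces of a continuous representation of a compact group lie in a finite extension of `ℚ_ℓ` -/
theorem finite_ext {G : Type*} [Group G] [TopologicalSpace G] [IsTopologicalGroup G] [CompactSpace G]
    [T2Space G] {n : ℕ} (ρ : G →* GL (Fin n) (PadicAlgCl ℓ)) (hρ : Continuous ρ) :
    ∃ E : Submodule ℚ_[ℓ] (PadicAlgCl ℓ), FiniteDimensional ℚ_[ℓ] E ∧
      ∀ g, (ρ g : Matrix (Fin n) (Fin n) (PadicAlgCl ℓ)).trace ∈ E := by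
  classical
  have hc0 : Continuous fun g => (ρ g : Matrix (Fin n) (Fin n) (PadicAlgCl ℓ)) :=
    Units.continuous_val.comp hρ
  have hc : ∀ i j, Continuous fun g => (ρ g : Matrix (Fin n) (Fin n) (PadicAlgCl ℓ)) i j := fun i j =>
    hc0.matrix_elem i j
  let f : G → (Fin n → Fin n → PadicAlgCl ℓ) := fun g i j =>
    (ρ g : Matrix (Fin n) (Fin n) (PadicAlgCl ℓ)) i j
  have hf : Continuous f := continuous_pi fun i => continuous_pi fun j => hc i j
  obtain ⟨D, hD, hfD⟩ := (isCompact_range hf).isSeparable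
  have hT : {z : PadicAlgCl ℓ | ∃ d ∈ D, ∃ i j, d i j = z}.Countable := by
    have : {z : PadicAlgCl ℓ | ∃ d ∈ D, ∃ i j, d i j = z} = ⋃ d ∈ D, ⋃ i, ⋃ j, {d i j} := by
      ext z
      simp only [Set.mem_setOf_eq, Set.mem_iUnion, Set.mem_singleton_iff, exists_prop]
      constructor
      · rintro ⟨d, hd, i, j, h⟩; exact ⟨d, hd, i, j, h.symm⟩
      · rintro ⟨d, hd, i, j, h⟩; exact ⟨d, hd, i, j, h.symm⟩
    rw [this]
    exact hD.biUnion fun d _ => Set.countable_iUnion fun i => Set.countable_iUnion fun j =>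
      Set.countable_singleton _
  obtain ⟨t, ht⟩ : ∃ t : ℕ → PadicAlgCl ℓ, {z : PadicAlgCl ℓ | ∃ d ∈ D, ∃ i j, d i j = z} ⊆ Set.range t := by
    rcases Set.eq_empty_or_nonempty {z : PadicAlgCl ℓ | ∃ d ∈ D, ∃ i j, d i j = z} with h | h
    · rw [h]; exact ⟨fun _ => 0, Set.empty_subset _⟩
    · obtain ⟨t, ht⟩ := hT.exists_eq_range h
      exact ⟨t, ht.le⟩
  let K : ℕ → IntermediateField ℚ_[ℓ] (PadicAlgCl ℓ) := fun m => adjoin ℚ_[ℓ] (t '' Set.Iio m)
  have hK : Monotone K := fun a b hab => adjoin.mono _ _ _ (Set.image_mono (Set.Iio_subset_Iio hab))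
  have hKfin : ∀ m, FiniteDimensional ℚ_[ℓ] (K m) := by
    intro m
    haveI : Finite (t '' Set.Iio m) := ((Set.finite_Iio m).image t).to_subtype
    exact finiteDimensional_adjoin fun x _ => Algebra.IsIntegral.isIntegral x
  have hmemK : ∀ z, z ∈ (⨆ m, K m : IntermediateField ℚ_[ℓ] (PadicAlgCl ℓ)) → ∃ m, z ∈ K m := by
    intro z hz
    rw [← SetLike.mem_coe, coe_iSup_of_directed hK.directed_le] at hz
    exact Set.mem_iUnion.1 hz
  have hL : ∀ g i j, (ρ g : Matrix (Fin n) (Fin n) (PadicAlgCl ℓ)) i j ∈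
      (⨆ m, K m : IntermediateField ℚ_[ℓ] (PadicAlgCl ℓ)) := by
    intro g i j
    have h1 : IsClosed {d : Fin n → Fin n → PadicAlgCl ℓ | d i j ∈
        ((⨆ m, K m : IntermediateField ℚ_[ℓ] (PadicAlgCl ℓ)) : Set (PadicAlgCl ℓ))} :=
      (isClosed_field _).preimage (continuous_apply_apply i j)
    have h2 : D ⊆ {d : Fin n → Fin n → PadicAlgCl ℓ | d i j ∈
        ((⨆ m, K m : IntermediateField ℚ_[ℓ] (PadicAlgCl ℓ)) : Set (PadicAlgCl ℓ))} := by
      intro d hd
      obtain ⟨m, hm⟩ := ht ⟨d, hd, i, j, rfl⟩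
      have h3 : d i j ∈ K (m + 1) := by
        rw [← hm]
        exact subset_adjoin _ _ ⟨m, Nat.lt_succ_self m, rfl⟩
      exact le_iSup K (m + 1) h3
    exact closure_minimal h2 h1 (hfD ⟨g, rfl⟩)
  -- Baire
  have hbaire : ∃ m, (interior {g : G | ∀ i j, (ρ g : Matrix (Fin n) (Fin n) (PadicAlgCl ℓ)) i j ∈ K m}).Nonempty := by
    refine nonempty_interior_of_iUnion_of_closed (fun m => ?_) ?_
    · have : {g : G | ∀ i j, (ρ g : Matrix (Fin n) (Fin n) (PadicAlgCl ℓ)) i j ∈ K m} =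
          ⋂ i, ⋂ j, {g : G | (ρ g : Matrix (Fin n) (Fin n) (PadicAlgCl ℓ)) i j ∈ (K m : Set (PadicAlgCl ℓ))} := by
        ext g
        simp only [Set.mem_setOf_eq, Set.mem_iInter, SetLike.mem_coe]
      rw [this]
      exact isClosed_iInter fun i => isClosed_iInter fun j => (isClosed_field _).preimage (hc i j)
    · rw [Set.eq_univ_iff_forall]
      intro g
      choose m hm using fun i j => hmemK _ (hL g i j)
      rw [Set.mem_iUnion]
      refine ⟨Finset.univ.sup fun i => Finset.univ.sup (m i), fun i j => ?_⟩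
      refine hK ?_ (hm i j)
      exact (Finset.le_sup (f := m i) (Finset.mem_univ j)).trans
        (Finset.le_sup (f := fun i => Finset.univ.sup (m i)) (Finset.mem_univ i))
  obtain ⟨m, hm⟩ := hbaire
  obtain ⟨s, hs⟩ := compact_covered_by_mul_left_translates (isCompact_univ (X := G)) hm
  choose m' hm' using fun (g : G) i j => hmemK _ (hL g⁻¹ i j)
  set M : ℕ := max m (s.sup fun g => Finset.univ.sup fun i => Finset.univ.sup (m' g i)) with hM
  refine ⟨(K M).toSubalgebra.toSubmodule, hKfin M, fun x => ?_⟩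
  have hx := hs (Set.mem_univ x)
  simp only [Set.mem_iUnion, Set.mem_preimage, Set.mem_setOf_eq] at hx
  obtain ⟨g, hg, hgx⟩ := hx
  have h1 : ∀ i j, (ρ g⁻¹ : Matrix (Fin n) (Fin n) (PadicAlgCl ℓ)) i j ∈ K M := by
    intro i j
    refine hK ?_ (hm' g i j)
    refine le_trans ?_ (le_max_right _ _)
    refine le_trans ?_ (Finset.le_sup (f := fun g => Finset.univ.sup fun i => Finset.univ.sup (m' g i)) hg)
    exact (Finset.le_sup (f := m' g i) (Finset.mem_univ j)).trans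
      (Finset.le_sup (f := fun i => Finset.univ.sup (m' g i)) (Finset.mem_univ i))
  have h2 : ∀ i j, (ρ (g * x) : Matrix (Fin n) (Fin n) (PadicAlgCl ℓ)) i j ∈ K M := fun i j =>
    hK (le_max_left _ _) (hgx i j)
  have h3 : (ρ x : Matrix (Fin n) (Fin n) (PadicAlgCl ℓ)) =
      (ρ g⁻¹ : Matrix (Fin n) (Fin n) (PadicAlgCl ℓ)) * (ρ (g * x) : Matrix (Fin n) (Fin n) (PadicAlgCl ℓ)) := by
    rw [← Units.val_mul, ← map_mul, inv_mul_cancel_left]
  rw [h3]
  show _ ∈ K M
  rw [Matrix.trace]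
  refine sum_mem fun i _ => ?_
  rw [Matrix.diag_apply, Matrix.mul_apply]
  exact sum_mem fun j _ => mul_mem (h1 i j) (h2 j i)

end Pool.Agent.Y800
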