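import Pool.Agent.Y800.Defs
import Pool.Agent.W528.Ord.Dens
import Pool.Agent.W571.FM.Frob

/-! Chebotarev's theorem over `ℚ` in the form needed. -/

set_option autoImplicit false
set_option linter.all false

namespace Pool.Agent.Y800

open NumberField Filter Topology IsDedekindDomain MeasureTheory
open Pool.Agent.W401.Cheb
open scoped Pointwise

theorem asIdeal_eq {v : HeightOneSpectrum (𝓞 ℚ)} {p : ℕ} (hp : p.Prime)
    (h : (p : 𝓞 ℚ) ∈ v.asIdeal) : v.asIdeal = Pool.Agent.W571.FM.pl p := by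
  have h1 := Pool.Agent.W571.FM.pl_max hp
  have h2 : Pool.Agent.W571.FM.pl p ≤ v.asIdeal := by
    unfold Pool.Agent.W571.FM.pl
    rw [Ideal.span_singleton_le_iff_mem]
    exact h
  exact (h1.eq_of_le v.isPrime.ne_top h2).symm

theorem exists_prime (v : HeightOneSpectrum (𝓞 ℚ)) : ∃ p : ℕ, p.Prime ∧ (p : 𝓞 ℚ) ∈ v.asIdeal := by
  have : v.asIdeal.IsMaximal := v.isMaximal
  let _ := Ideal.Quotient.field v.asIdeal
  have : Finite (𝓞 ℚ ⧸ v.asIdeal) := Ideal.finiteQuotientOfFreeOfNeBot _ v.ne_bot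
  cases nonempty_fintype (𝓞 ℚ ⧸ v.asIdeal)
  obtain ⟨p, hc⟩ := CharP.exists (𝓞 ℚ ⧸ v.asIdeal)
  obtain ⟨k, hp, hk⟩ := FiniteField.card (𝓞 ℚ ⧸ v.asIdeal) p
  refine ⟨p, hp, ?_⟩
  rw [← Ideal.Quotient.eq_zero_iff_mem, map_natCast]
  exact CharP.cast_eq_zero _ _

/-- the number of bad primes up to `N` -/
noncomputable def cnt (Z : Set ℕ) (N : ℕ) : ℕ := {p : ℕ | p.Prime ∧ p ≤ N ∧ p ∈ Z}.ncard

theorem fin_cnt (Z : Set ℕ) (N : ℕ) : {p : ℕ | p.Prime ∧ p ≤ N ∧ p ∈ Z}.Finite :=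
  (Set.finite_Iic N).subset fun _ h => h.2.1

/-- arithmetic Frobenius elements are inverses of geometric ones -/
theorem geom_of_arith {p : ℕ} {P : Ideal ZBar} {σ : GQ} (h : ∀ x : ZBar, σ • x - x ^ p ∈ P) :
    IsGeomFrob p P σ⁻¹ := by
  intro x
  have := h (σ⁻¹ • x)
  rwa [smul_inv_smul] at this

theorem arith_of_geom {p : ℕ} {P : Ideal ZBar} {σ : GQ} (h : IsGeomFrob p P σ) :
    ∀ x : ZBar, σ⁻¹ • x - x ^ p ∈ P := by
  intro x
  have := h (σ⁻¹ • x)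
  rwa [smul_inv_smul] at this

/-- primes with an arithmetic Frobenius element in a set which avoids all good primes -/
theorem dens_le (C : Set GQ) (Z : Set ℕ)
    (hC : ∀ p : ℕ, p.Prime → p ∉ Z → ∀ P : Ideal ZBar, P.IsMaximal → (p : ZBar) ∈ P →
      ∀ σ : GQ, (∀ x : ZBar, σ • x - x ^ p ∈ P) → σ ∉ C) (N : ℕ) :
    dens (fun v : HeightOneSpectrum (𝓞 ℚ) => ∃ σ ∈ C, IsFrob v σ) N ≤
      (cnt Z N : ℝ) / (Nat.primeCounting N : ℝ) := by
  unfold dens cnt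
  apply div_le_div_of_nonneg_right _ (Nat.cast_nonneg _)
  norm_cast
  have e0 : Nat.card {v : HeightOneSpectrum (𝓞 ℚ) // Ideal.absNorm v.asIdeal ≤ N ∧
      ∃ σ ∈ C, IsFrob v σ} = {v : HeightOneSpectrum (𝓞 ℚ) | Ideal.absNorm v.asIdeal ≤ N ∧
      ∃ σ ∈ C, IsFrob v σ}.ncard := rfl
  rw [e0]
  refine Set.ncard_le_ncard_of_injOn (fun v => Ideal.absNorm v.asIdeal) ?_ ?_ (fin_cnt Z N)
  · rintro v ⟨hv, σ, hσ, Q, hQ, hQv, hQσ⟩
    obtain ⟨p, hp, hpv⟩ := exists_prime v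
    have h1 := asIdeal_eq hp hpv
    have h2 : Ideal.absNorm v.asIdeal = p := by rw [h1, Pool.Agent.W571.FM.absNorm_pl]
    have hpQ : (p : ZBar) ∈ Q := by
      rw [← hQv, Ideal.mem_comap, map_natCast] at hpv
      exact hpv
    refine ⟨?_, hv, ?_⟩
    · show (Ideal.absNorm v.asIdeal).Prime
      rw [h2]; exact hp
    · by_contra hpZ
      have hpZ' : p ∉ Z := by
        intro h; apply hpZ
        show Ideal.absNorm v.asIdeal ∈ Z
        rw [h2]; exact h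
      refine hC p hp hpZ' Q hQ hpQ σ (fun x => ?_) hσ
      have := hQσ x
      rwa [h2] at this
  · intro v _ w _ hvw
    obtain ⟨p, hp, hpv⟩ := exists_prime v
    obtain ⟨q, hq, hqw⟩ := exists_prime w
    have h1 := asIdeal_eq hp hpv
    have h2 := asIdeal_eq hq hqw
    have h3 : p = q := by
      have : Ideal.absNorm v.asIdeal = Ideal.absNorm w.asIdeal := hvw
      rwa [h1, h2, Pool.Agent.W571.FM.absNorm_pl, Pool.Agent.W571.FM.absNorm_pl] at this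
    apply HeightOneSpectrum.ext
    rw [h1, h2, h3]

theorem cheb_le (U : Subgroup GQ) [U.Normal] (hU : IsOpen (U : Set GQ)) (C : Set GQ)
    (hconj : ∀ σ ∈ C, ∀ τ : GQ, τ * σ * τ⁻¹ ∈ C) (hCU : ∀ σ ∈ C, ∀ u ∈ U, σ * u ∈ C)
    (Z : Set ℕ) (c : ℝ) (hZ : ∀ᶠ N : ℕ in atTop, (cnt Z N : ℝ) ≤ c * (Nat.primeCounting N : ℝ))
    (hC : ∀ p : ℕ, p.Prime → p ∉ Z → ∀ P : Ideal ZBar, P.IsMaximal → (p : ZBar) ∈ P →
      ∀ σ : GQ, (∀ x : ZBar, σ • x - x ^ p ∈ P) → σ ∉ C) :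
    (((QuotientGroup.mk : GQ → GQ ⧸ U) '' C).ncard : ℝ) / (Nat.card (GQ ⧸ U) : ℝ) ≤ c := by
  have key := Pool.Agent.W528.Ord.chebK ℚ U hU C hconj hCU
  refine le_of_tendsto key ?_
  filter_upwards [hZ, eventually_ge_atTop 2] with N hN hN2
  refine (dens_le C Z hC N).trans ?_
  have hpos : (0 : ℝ) < (Nat.primeCounting N : ℝ) := by
    have : 0 < Nat.primeCounting N := by
      have h1 : Nat.primeCounting 2 ≤ Nat.primeCounting N := Nat.monotone_primeCounting hN2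
      have h2 : Nat.primeCounting 2 = 1 := by decide
      omega
    exact_mod_cast this
  rw [div_le_iff₀ hpos]
  exact hN

/-- a closed set is approximated by unions of cosets -/
theorem exists_approx {G : Type*} [Group G] [TopologicalSpace G] [IsTopologicalGroup G]
    [CompactSpace G] [T2Space G] [MeasurableSpace G] [BorelSpace G] [TotallyDisconnectedSpace G]
    (μ : Measure G) [IsProbabilityMeasure μ]
    [μ.IsMulLeftInvariant] [μ.Regular] (Z : Set G) (hZ : IsClosed Z) (r : ℝ) (hr : 0 < r)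
    (h0 : μ Z < ENNReal.ofReal r) :
    ∃ U : OpenNormalSubgroup G, Finite (G ⧸ U.toSubgroup) ∧
      (((QuotientGroup.mk : G → G ⧸ U.toSubgroup) '' Z).ncard : ℝ) / (Nat.card (G ⧸ U.toSubgroup) : ℝ) < r := by
  obtain ⟨O, hZO, hO, hOμ⟩ := Z.exists_isOpen_lt_of_lt (μ := μ) (ENNReal.ofReal r) h0
  obtain ⟨V, hV, hZV⟩ := compact_open_separated_mul_right hZ.isCompact hO hZO
  obtain ⟨W, hWV, hW, hW1⟩ := mem_nhds_iff.mp hV
  obtain ⟨U, hU⟩ := ProfiniteGrp.exist_openNormalSubgroup_sub_open_nhds_of_one hW hW1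
  have hUo : IsOpen (U.toSubgroup : Set G) := U.isOpen'
  haveI hfin : Finite (G ⧸ U.toSubgroup) := Subgroup.quotient_finite_of_isOpen _ hUo
  refine ⟨U, hfin, ?_⟩
  have h1 := Pool.Agent.W528.Ord.measure_union μ U.toSubgroup hUo ((QuotientGroup.mk : G → G ⧸ U.toSubgroup) '' Z)
  have h2 := Pool.Agent.W528.Ord.measure_U μ U.toSubgroup hUo
  have h3 : μ {x | (QuotientGroup.mk x : G ⧸ U.toSubgroup) ∈
      ((QuotientGroup.mk : G → G ⧸ U.toSubgroup) '' Z)} < ENNReal.ofReal r := by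
    refine lt_of_le_of_lt (measure_mono ?_) hOμ
    rintro x ⟨z, hz, hzx⟩
    apply hZV
    rw [QuotientGroup.eq] at hzx
    refine Set.mem_mul.mpr ⟨z, hz, z⁻¹ * x, hWV (hU hzx), by group⟩
  rw [h1] at h3
  have hc : (0 : ℝ) < (Nat.card (G ⧸ U.toSubgroup) : ℝ) := by exact_mod_cast Nat.card_pos
  have hUt : μ (U.toSubgroup : Set G) ≠ ⊤ := measure_ne_top μ _
  have h4 : (Nat.card (G ⧸ U.toSubgroup) : ℝ) * (μ (U.toSubgroup : Set G)).toReal = 1 := by
    have := congrArg ENNReal.toReal h2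
    rw [ENNReal.toReal_mul, ENNReal.toReal_one, ENNReal.toReal_natCast] at this
    exact this
  have h5 : ((((QuotientGroup.mk : G → G ⧸ U.toSubgroup) '' Z).ncard : ℝ)) *
      (μ (U.toSubgroup : Set G)).toReal < r := by
    have h6 := (ENNReal.toReal_lt_toReal (ENNReal.mul_ne_top (by simp) hUt) ENNReal.ofReal_ne_top).mpr h3
    rw [ENNReal.toReal_mul, ENNReal.toReal_natCast, ENNReal.toReal_ofReal hr.le] at h6
    exact h6
  have h7 : (μ (U.toSubgroup : Set G)).toReal = 1 / (Nat.card (G ⧸ U.toSubgroup) : ℝ) := by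
    rw [eq_div_iff hc.ne', mul_comm]
    exact h4
  rw [h7] at h5
  rwa [mul_one_div] at h5

/-- **Chebotarev for closed sets**: if all primes outside a set of upper density at most `c` have their
geometric Frobenius elements in the closed set `C`, then `C` has Haar measure at least `1 - c`. -/
theorem haar_ge [MeasurableSpace GQ] [BorelSpace GQ] (μ : Measure GQ)
    [IsProbabilityMeasure μ] [μ.IsMulLeftInvariant] [μ.Regular] (C : Set GQ) (hCc : IsClosed C)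
    (hconj : ∀ σ ∈ C, ∀ τ : GQ, τ * σ * τ⁻¹ ∈ C)
    (Z : Set ℕ) (c : ℝ) (hZ : ∀ᶠ N : ℕ in atTop, (cnt Z N : ℝ) ≤ c * (Nat.primeCounting N : ℝ))
    (hC : ∀ p : ℕ, p.Prime → p ∉ Z → ∀ P : Ideal ZBar, P.IsMaximal → (p : ZBar) ∈ P →
      ∀ σ : GQ, IsGeomFrob p P σ → σ ∈ C) :
    ENNReal.ofReal (1 - c) ≤ μ C := by
  by_contra hlt
  push Not at hlt
  have hr : 0 < 1 - c := by
    by_contra h
    rw [ENNReal.ofReal_of_nonpos (not_lt.1 h)] at hlt
    exact not_lt_bot hlt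
  obtain ⟨U, hfin, hU⟩ := exists_approx μ C hCc (1 - c) hr hlt
  have hUo : IsOpen (U.toSubgroup : Set GQ) := U.isOpen'
  haveI hUn : U.toSubgroup.Normal := U.isNormal'
  set q : GQ → GQ ⧸ U.toSubgroup := QuotientGroup.mk with hq
  set E : Set GQ := {σ | q σ⁻¹ ∉ q '' C} with hE
  have h1 : ((q '' E).ncard : ℝ) / (Nat.card (GQ ⧸ U.toSubgroup) : ℝ) ≤ c := by
    refine cheb_le U.toSubgroup hUo E ?_ ?_ Z c hZ ?_
    · rintro σ hσ τ ⟨z, hz, hzσ⟩
      apply hσ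
      refine ⟨τ⁻¹ * z * τ, by simpa using hconj z hz τ⁻¹, ?_⟩
      have e1 : q (τ⁻¹ * z * τ) = (q τ)⁻¹ * q z * q τ := rfl
      have e2 : q ((τ * σ * τ⁻¹)⁻¹) = ((q τ) * q σ * (q τ)⁻¹)⁻¹ := rfl
      have e3 : q σ⁻¹ = (q σ)⁻¹ := rfl
      rw [e1, hzσ, e2, e3]
      group
    · rintro σ hσ u hu ⟨z, hz, hzσ⟩
      apply hσ
      refine ⟨z, hz, ?_⟩
      have e2 : q ((σ * u)⁻¹) = (q σ * q u)⁻¹ := rfl
      have e3 : q σ⁻¹ = (q σ)⁻¹ := rfl
      have e4 : q u = 1 := (QuotientGroup.eq_one_iff u).2 hu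
      rw [hzσ, e2, e3, e4, mul_one]
    · intro p hp hpZ P hP hpP σ hσ hσE
      apply hσE
      exact ⟨σ⁻¹, hC p hp hpZ P hP hpP _ (geom_of_arith hσ), rfl⟩
  -- counting
  have h2 : (q '' E) = (fun x => x⁻¹) ⁻¹' (q '' C)ᶜ := by
    ext x
    obtain ⟨g, rfl⟩ := QuotientGroup.mk_surjective x
    constructor
    · rintro ⟨σ, hσ, hσg⟩
      show (q g)⁻¹ ∈ (q '' C)ᶜ
      have : q g = q σ := hσg.symm
      rw [this]
      exact hσ
    · intro h
      exact ⟨g, h, rfl⟩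
  have h3 : (q '' E).ncard = ((q '' C)ᶜ).ncard := by
    rw [h2]
    have : (fun x : GQ ⧸ U.toSubgroup => x⁻¹) ⁻¹' (q '' C)ᶜ = (fun x => x⁻¹) '' (q '' C)ᶜ := by
      ext x
      simp only [Set.mem_preimage, Set.mem_image]
      constructor
      · intro h; exact ⟨x⁻¹, h, inv_inv x⟩
      · rintro ⟨y, hy, rfl⟩; rwa [inv_inv]
    rw [this, Set.ncard_image_of_injective _ inv_injective]
  have h4 := Set.ncard_add_ncard_compl (q '' C)
  have hc : (0 : ℝ) < (Nat.card (GQ ⧸ U.toSubgroup) : ℝ) := by exact_mod_cast Nat.card_pos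
  rw [h3, div_le_iff₀ hc] at h1
  rw [div_lt_iff₀ hc] at hU
  have h5 : ((q '' C).ncard : ℝ) + ((q '' C)ᶜ).ncard = (Nat.card (GQ ⧸ U.toSubgroup) : ℝ) := by
    exact_mod_cast h4
  nlinarith

end Pool.Agent.Y800
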