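import Mathlib

/-! Galois representations of `ℚ`: definitions. -/

set_option autoImplicit false

namespace Pool.Agent.Y800

open NumberField

/-- The absolute Galois group of the field `F` (with the Krull topology). -/
abbrev AbsGal (F : Type) [Field F] : Type := Gal(AlgebraicClosure F/F)

/-- The absolute Galois group of `ℚ`. -/
abbrev GQ : Type := AbsGal ℚ

/-- The ring of all algebraic integers. -/
abbrev ZBar : Type := 𝓞 (AlgebraicClosure ℚ)

/-- `τ` lies in the inertia group at the maximal ideal `P` of the ring of all algebraic integers. -/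
def InInertia (P : Ideal ZBar) (τ : GQ) : Prop := ∀ x : ZBar, τ • x - x ∈ P

/-- `σ` is a geometric Frobenius element at the maximal ideal `P`, which lies above `p`:
`σ` induces the inverse of `x ↦ x ^ p` on the residue field. -/
def IsGeomFrob (p : ℕ) (P : Ideal ZBar) (σ : GQ) : Prop := ∀ x : ZBar, x - (σ • x) ^ p ∈ P

section reps

variable {k : Type*} [Field k] {n : ℕ}

/-- `ρ` is unramified at the prime number `p`. -/
def Unramified (ρ : GQ →* GL (Fin n) k) (p : ℕ) : Prop :=
  ∀ P : Ideal ZBar, P.IsMaximal → (p : ZBar) ∈ P → ∀ τ : GQ, InInertia P τ → ρ τ = 1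

/-- `ρ` is unramified at `p` and every geometric Frobenius element at `p` is mapped to the
semisimple conjugacy class with the eigenvalues `a i`. -/
def Corresponds (ρ : GQ →* GL (Fin n) k) (p : ℕ) (a : Fin n → k) : Prop :=
  Unramified ρ p ∧ ∀ P : Ideal ZBar, P.IsMaximal → (p : ZBar) ∈ P → ∀ σ : GQ, IsGeomFrob p P σ →
    ∃ h : GL (Fin n) k, (ρ σ : Matrix (Fin n) (Fin n) k) =
      (h : Matrix (Fin n) (Fin n) k) * Matrix.diagonal a * ((h⁻¹ : GL (Fin n) k) : Matrix (Fin n) (Fin n) k)

/-- `ρ` is semisimple: every stable subspace has a stable complement. -/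
def IsSemisimple (ρ : GQ →* GL (Fin n) k) : Prop :=
  ∀ W : Submodule k (Fin n → k), (∀ g, ∀ w ∈ W, (ρ g : Matrix (Fin n) (Fin n) k).mulVec w ∈ W) →
    ∃ W' : Submodule k (Fin n → k), (∀ g, ∀ w ∈ W', (ρ g : Matrix (Fin n) (Fin n) k).mulVec w ∈ W') ∧
      IsCompl W W'

end reps

end Pool.Agent.Y800
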