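import Pool.Agent.Y800.Lin

/-! A semisimple representation with few traces on a large set has small image. -/

set_option autoImplicit false
set_option linter.all false

namespace Pool.Agent.Y800

open MeasureTheory Module

section basis

variable {G : Type*} [Group G] {k : Type*} [Field k]

theorem exists_basis {A : Type*} [Ring A] [Algebra k A] [FiniteDimensional k A] (r : G → A) :
    ∃ s : Finset G, s.card ≤ finrank k A ∧
      ∀ τ : A →ₗ[k] k, (∀ g ∈ s, τ (r g) = 0) → ∀ g, τ (r g) = 0 := by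
  classical
  obtain ⟨b, hb, hspan, hli⟩ := exists_linearIndependent k (Set.range r)
  have hfin : b.Finite := hli.setFinite
  choose f hf using fun x : b => hb x.2
  haveI : Fintype b := hfin.fintype
  refine ⟨Finset.univ.image f, ?_, ?_⟩
  · refine Finset.card_image_le.trans ?_
    rw [Finset.card_univ]
    exact hli.fintype_card_le_finrank
  · intro τ hτ g
    have h1 : Submodule.span k b ≤ LinearMap.ker τ := by
      rw [Submodule.span_le]
      intro x hx
      have := hτ (f ⟨x, hx⟩) (Finset.mem_image_of_mem _ (Finset.mem_univ _))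
      rw [hf] at this
      exact this
    have h2 : r g ∈ Submodule.span k b := by
      rw [hspan]
      exact Submodule.subset_span ⟨g, rfl⟩
    exact h1 h2

/-- **The translation trick**: a linear functional which vanishes on a large set vanishes. -/
theorem functional_zero {A : Type*} [Ring A] [Algebra k A] [FiniteDimensional k A] (r : G →* A)
    (τ : A →ₗ[k] k) (E : Set G)
    (hE : ∀ s : Finset G, s.card ≤ finrank k A → ∃ x, ∀ g ∈ s, g * x ∈ E)
    (h : ∀ g ∈ E, τ (r g) = 0) (g : G) : τ (r g) = 0 := by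
  obtain ⟨s, hs, hs'⟩ := exists_basis (k := k) (r : G → A)
  obtain ⟨x, hx⟩ := hE s hs
  have h1 := hs' (τ ∘ₗ LinearMap.mulRight k (r x)) (fun g hg => by
    rw [LinearMap.comp_apply, LinearMap.mulRight_apply, ← map_mul]
    exact h _ (hx g hg)) (g * x⁻¹)
  rw [LinearMap.comp_apply, LinearMap.mulRight_apply, ← map_mul, inv_mul_cancel_right] at h1
  exact h1

end basis

section haar

variable {G : Type*} [Group G] [TopologicalSpace G] [IsTopologicalGroup G]
  [CompactSpace G] [MeasurableSpace G] [BorelSpace G]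

/-- translates of a large set have a large intersection -/
theorem inter_large (μ : Measure G) [IsProbabilityMeasure μ] [μ.IsMulLeftInvariant]
    (C : Set G) (hC : IsClosed C) (c : ℝ) (hμ : ENNReal.ofReal (1 - c) ≤ μ C) (s : Finset G) :
    ENNReal.ofReal (1 - s.card * c) ≤ μ {x | ∀ g ∈ s, g * x ∈ C} := by
  classical
  have hc0 : 0 ≤ c := by
    have h1 : ENNReal.ofReal (1 - c) ≤ 1 := hμ.trans prob_le_one
    rw [ENNReal.ofReal_le_one] at h1
    linarith
  have hCm : MeasurableSet C := hC.measurableSet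
  have hE : μ Cᶜ ≤ ENNReal.ofReal c := by
    rw [prob_compl_eq_one_sub hCm]
    refine (tsub_le_tsub_left hμ 1).trans ?_
    by_cases h : c ≤ 1
    · rw [← ENNReal.ofReal_one, ← ENNReal.ofReal_sub _ (by linarith)]
      apply le_of_eq
      congr 1
      ring
    · refine tsub_le_self.trans ?_
      rw [ENNReal.one_le_ofReal]
      linarith
  set D : Set G := {x | ∀ g ∈ s, g * x ∈ C} with hD
  have hDc : IsClosed D := by
    have : D = ⋂ g ∈ s, (fun x => g * x) ⁻¹' C := by
      ext x; simp [hD]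
    rw [this]
    exact isClosed_biInter fun g _ => hC.preimage (continuous_mul_left g)
  have h1 : μ Dᶜ ≤ ENNReal.ofReal (s.card * c) := by
    have : Dᶜ = ⋃ g ∈ s, (fun x => g * x) ⁻¹' Cᶜ := by
      ext x; simp [hD]
    rw [this]
    refine (measure_biUnion_finset_le s _).trans ?_
    calc ∑ g ∈ s, μ ((fun x => g * x) ⁻¹' Cᶜ) ≤ ∑ g ∈ s, ENNReal.ofReal c := by
          refine Finset.sum_le_sum fun g _ => ?_
          rw [measure_preimage_mul]
          exact hE
      _ = ENNReal.ofReal (s.card * c) := by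
          rw [Finset.sum_const, nsmul_eq_mul, ENNReal.ofReal_mul (Nat.cast_nonneg _),
            ENNReal.ofReal_natCast]
  have h2 : μ D = 1 - μ Dᶜ := by
    rw [prob_compl_eq_one_sub hDc.measurableSet, ENNReal.sub_sub_cancel ENNReal.one_ne_top prob_le_one]
  rw [h2, ENNReal.ofReal_sub _ (by positivity), ENNReal.ofReal_one]
  exact tsub_le_tsub_left h1 1

theorem exists_translate (μ : Measure G) [IsProbabilityMeasure μ] [μ.IsMulLeftInvariant]
    (C : Set G) (hC : IsClosed C) (c : ℝ) (hμ : ENNReal.ofReal (1 - c) ≤ μ C) (s : Finset G)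
    (hs : s.card * c < 1) : ∃ x, ∀ g ∈ s, g * x ∈ C := by
  have h := inter_large μ C hC c hμ s
  by_contra hne
  push Not at hne
  have : {x | ∀ g ∈ s, g * x ∈ C} = ∅ := by
    ext x
    simp only [Set.mem_setOf_eq, Set.mem_empty_iff_false, iff_false]
    intro hx
    obtain ⟨g, hg, hgx⟩ := hne x
    exact hgx (hx g hg)
  rw [this, measure_empty] at h
  have h1 : ENNReal.ofReal (1 - s.card * c) = 0 := le_antisymm h bot_le
  rw [ENNReal.ofReal_eq_zero] at h1
  linarith

variable {k : Type*} [Field k] {n : ℕ}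

theorem coset_count (μ : Measure G) [IsProbabilityMeasure μ] [μ.IsMulLeftInvariant]
    (U : Subgroup G) (hU : IsClosed (U : Set G)) (t : Finset (G ⧸ U)) :
    (t.card : ENNReal) * μ U ≤ 1 := by
  classical
  have hcoset : ∀ g : G, {x : G | (QuotientGroup.mk x : G ⧸ U) = QuotientGroup.mk g} =
      (fun x => g⁻¹ * x) ⁻¹' (U : Set G) := by
    intro g
    ext x
    simp only [Set.mem_setOf_eq, Set.mem_preimage, SetLike.mem_coe]
    rw [eq_comm, QuotientGroup.eq]
  have h1 : μ (⋃ q ∈ t, {x : G | (QuotientGroup.mk x : G ⧸ U) = q}) = t.card * μ U := by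
    rw [measure_biUnion_finset]
    · have h1 : ∀ q ∈ t, μ {x : G | (QuotientGroup.mk x : G ⧸ U) = q} = μ U := by
        intro q _
        obtain ⟨g, rfl⟩ := QuotientGroup.mk_surjective q
        rw [hcoset, measure_preimage_mul]
      rw [Finset.sum_congr rfl h1, Finset.sum_const, nsmul_eq_mul]
    · intro q _ q' _ hqq
      rw [Function.onFun, Set.disjoint_left]
      intro x hx hx'
      exact hqq (hx.symm.trans hx')
    · intro q _
      obtain ⟨g, rfl⟩ := QuotientGroup.mk_surjective q
      rw [hcoset]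
      exact (hU.preimage (continuous_mul_left g⁻¹)).measurableSet
  rw [← h1]
  exact prob_le_one

/-- **Few traces on a large set**: the image is small. -/
theorem few_traces (μ : Measure G) [IsProbabilityMeasure μ] [μ.IsMulLeftInvariant]
    (ρ : G →* GL (Fin n) k) (hss : IsSemisimpleRep ρ)
    (hn : ∀ m : ℕ, 1 ≤ m → m ≤ n → (m : k) ≠ 0) (T : Finset k) (c : ℝ)
    (hker : IsClosed (ρ.ker : Set G))
    (hC : IsClosed {g : G | (ρ g : Matrix (Fin n) (Fin n) k).trace ∈ T})
    (hμ : ENNReal.ofReal (1 - c) ≤ μ {g : G | (ρ g : Matrix (Fin n) (Fin n) k).trace ∈ T})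
    (hc : c * n ^ 2 < 1) :
    Finite (G ⧸ ρ.ker) ∧ (Nat.card (G ⧸ ρ.ker) : ℝ) * (1 - c * n ^ 2) ≤ (T.card : ℝ) ^ (n ^ 2) := by
  classical
  have hc0 : 0 ≤ c := by
    have h1 : ENNReal.ofReal (1 - c) ≤ 1 := hμ.trans prob_le_one
    rw [ENNReal.ofReal_le_one] at h1
    linarith
  obtain ⟨s, hs, hs'⟩ := exists_basis (k := k) (fun g => (ρ g : Matrix (Fin n) (Fin n) k))
  have hs2 : s.card ≤ n ^ 2 := by
    refine hs.trans ?_
    rw [Module.finrank_matrix, Module.finrank_self, Fintype.card_fin, mul_one, sq]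
  set C : Set G := {g : G | (ρ g : Matrix (Fin n) (Fin n) k).trace ∈ T} with hCdef
  set D : Set G := {x | ∀ g ∈ s, g * x ∈ C} with hD
  have hDμ := inter_large μ C hC c hμ s
  -- elements of `D` are determined by the traces
  have hdet : ∀ x y : G, (∀ g ∈ s, (ρ (g * x) : Matrix (Fin n) (Fin n) k).trace =
      (ρ (g * y) : Matrix (Fin n) (Fin n) k).trace) → ρ x = ρ y := by
    intro x y hxy
    have h1 : (ρ x : Matrix (Fin n) (Fin n) k) - ρ y = 0 := by
      refine eq_zero_of_trace ρ hn hss (sub_mem (mem_Sp ρ x) (mem_Sp ρ y)) ?_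
      have h2 := hs' ((Matrix.traceLinearMap (Fin n) k k) ∘ₗ
        LinearMap.mulRight k ((ρ x : Matrix (Fin n) (Fin n) k) - ρ y)) ?_
      · intro g
        exact h2 g
      · intro g hg
        rw [LinearMap.comp_apply, LinearMap.mulRight_apply, Matrix.traceLinearMap_apply, mul_sub,
          Matrix.trace_sub, sub_eq_zero]
        have h3 := hxy g hg
        rw [map_mul, map_mul, Units.val_mul, Units.val_mul] at h3
        exact h3
    exact Units.ext (sub_eq_zero.1 h1)
  let F : G → (s → k) := fun x g => (ρ (g.1 * x) : Matrix (Fin n) (Fin n) k).trace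
  have hF : ∀ x ∈ D, F x ∈ (Fintype.piFinset fun _ : s => T) := by
    intro x hx
    rw [Fintype.mem_piFinset]
    intro g
    exact hx g.1 g.2
  -- the image of `D`
  have himg : ∃ t : Finset (G ⧸ ρ.ker), t.card ≤ T.card ^ s.card ∧
      ∀ x ∈ D, (QuotientGroup.mk x : G ⧸ ρ.ker) ∈ t := by
    have hfin : (F '' D).Finite := (Finset.finite_toSet _).subset (by
      rintro _ ⟨x, hx, rfl⟩; exact hF x hx)
    choose! φ hφ using fun (y : s → k) (hy : y ∈ F '' D) => hy
    refine ⟨(hfin.toFinset).image fun y => QuotientGroup.mk (φ y), ?_, ?_⟩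
    · refine Finset.card_image_le.trans ?_
      have h1 : hfin.toFinset ⊆ (Fintype.piFinset fun _ : s => T) := by
        intro y hy
        rw [Set.Finite.mem_toFinset] at hy
        obtain ⟨x, hx, rfl⟩ := hy
        exact hF x hx
      refine (Finset.card_le_card h1).trans ?_
      rw [Fintype.card_piFinset, Finset.prod_const, Finset.card_univ, Fintype.card_coe]
    · intro x hx
      rw [Finset.mem_image]
      refine ⟨F x, by rw [Set.Finite.mem_toFinset]; exact ⟨x, hx, rfl⟩, ?_⟩
      have h1 := hφ (F x) ⟨x, hx, rfl⟩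
      rw [QuotientGroup.eq, MonoidHom.mem_ker, map_mul, map_inv, inv_mul_eq_one]
      apply hdet
      intro g hg
      exact congrFun h1.2 ⟨g, hg⟩
  obtain ⟨t, ht, htD⟩ := himg
  have hcoset : ∀ g : G, {x : G | (QuotientGroup.mk x : G ⧸ ρ.ker) = QuotientGroup.mk g} =
      (fun x => g⁻¹ * x) ⁻¹' (ρ.ker : Set G) := by
    intro g
    ext x
    simp only [Set.mem_setOf_eq, Set.mem_preimage, SetLike.mem_coe]
    rw [eq_comm, QuotientGroup.eq]
  have h3 : μ D ≤ t.card * μ (ρ.ker : Set G) := by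
    have hsub : D ⊆ ⋃ q ∈ t, {x : G | (QuotientGroup.mk x : G ⧸ ρ.ker) = q} := by
      intro x hx
      rw [Set.mem_iUnion₂]
      exact ⟨_, htD x hx, rfl⟩
    refine (measure_mono hsub).trans ((measure_biUnion_finset_le t _).trans ?_)
    have h1 : ∀ q ∈ t, μ {x : G | (QuotientGroup.mk x : G ⧸ ρ.ker) = q} = μ (ρ.ker : Set G) := by
      intro q _
      obtain ⟨g, rfl⟩ := QuotientGroup.mk_surjective q
      rw [hcoset, measure_preimage_mul]
    rw [Finset.sum_congr rfl h1, Finset.sum_const, nsmul_eq_mul]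
  set m : ℝ := (μ (ρ.ker : Set G)).toReal with hm
  have hmt : μ (ρ.ker : Set G) ≠ ⊤ := measure_ne_top μ _
  have hscard : (s.card : ℝ) ≤ (n : ℝ) ^ 2 := by exact_mod_cast hs2
  have h4 : 1 - c * n ^ 2 ≤ t.card * m := by
    have h5 : ENNReal.ofReal (1 - s.card * c) ≤ ENNReal.ofReal (t.card * m) := by
      refine hDμ.trans (h3.trans ?_)
      rw [ENNReal.ofReal_mul (Nat.cast_nonneg _), ENNReal.ofReal_natCast, hm, ENNReal.ofReal_toReal hmt]
    rw [ENNReal.ofReal_le_ofReal_iff (by positivity)] at h5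
    nlinarith
  have hpos : 0 < 1 - c * n ^ 2 := by linarith
  have hm0 : 0 < m := by
    by_contra h
    have : (t.card : ℝ) * m ≤ 0 := mul_nonpos_of_nonneg_of_nonpos (Nat.cast_nonneg _) (not_lt.1 h)
    linarith
  have h6 : ∀ u : Finset (G ⧸ ρ.ker), (u.card : ℝ) * m ≤ 1 := by
    intro u
    have h7 := coset_count μ ρ.ker hker u
    have h8 := ENNReal.toReal_mono ENNReal.one_ne_top h7
    rwa [ENNReal.toReal_mul, ENNReal.toReal_natCast, ENNReal.toReal_one] at h8
  have hfin : Finite (G ⧸ ρ.ker) := by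
    by_contra h
    have hinf : Infinite (G ⧸ ρ.ker) := not_finite_iff_infinite.1 h
    obtain ⟨N, hN⟩ := exists_nat_gt (1 / m)
    obtain ⟨u, hu⟩ := Infinite.exists_subset_card_eq (G ⧸ ρ.ker) N
    have := h6 u
    rw [hu] at this
    rw [div_lt_iff₀ hm0] at hN
    linarith
  refine ⟨hfin, ?_⟩
  have := Fintype.ofFinite (G ⧸ ρ.ker)
  have h9 := h6 Finset.univ
  rw [Finset.card_univ, ← Nat.card_eq_fintype_card] at h9
  have h10 : (t.card : ℝ) ≤ (T.card : ℝ) ^ (n ^ 2) := by
    have h11 : t.card ≤ T.card ^ (n ^ 2) := by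
      refine ht.trans ?_
      rcases Nat.eq_zero_or_pos T.card with hT | hT
      · -- then `n = 0`
        rcases Nat.eq_zero_or_pos (n ^ 2) with h0 | h0
        · rw [h0] at hs2 ⊢
          rw [Nat.le_zero.1 hs2]
        · exfalso
          have hCe : C = ∅ := by
            ext g
            rw [Finset.card_eq_zero] at hT
            simp [hCdef, hT]
          rw [hCe, measure_empty] at hμ
          have h1 : ENNReal.ofReal (1 - c) = 0 := le_antisymm hμ bot_le
          rw [ENNReal.ofReal_eq_zero] at h1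
          have h2 : (1 : ℝ) ≤ (n : ℝ) ^ 2 := by exact_mod_cast h0
          nlinarith
      · exact Nat.pow_le_pow_right hT hs2
    exact_mod_cast h11
  have hcard : (0 : ℝ) ≤ (Nat.card (G ⧸ ρ.ker) : ℝ) := Nat.cast_nonneg _
  calc (Nat.card (G ⧸ ρ.ker) : ℝ) * (1 - c * n ^ 2)
      ≤ (Nat.card (G ⧸ ρ.ker) : ℝ) * (t.card * m) := mul_le_mul_of_nonneg_left h4 hcard
    _ = t.card * ((Nat.card (G ⧸ ρ.ker) : ℝ) * m) := by ring
    _ ≤ t.card * 1 := mul_le_mul_of_nonneg_left h9 (Nat.cast_nonneg _)
    _ ≤ (T.card : ℝ) ^ (n ^ 2) := by rw [mul_one]; exact h10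

end haar

end Pool.Agent.Y800
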