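import Pool.Agent.Y800.Ext

/-! Lifting of representations of finite groups to characteristic zero, for infinitely many residue
characteristics at the same time. -/

set_option autoImplicit false
set_option linter.all false

namespace Pool.Agent.Y800

open NumberField Polynomial

/-- matrices `x i` with the multiplication table `mul` and the eigenvalues `φ (z i a)` -/
def Realizes {m n : ℕ} (mul : Fin m → Fin m → Fin m) (z : Fin m → Fin n → ZBar) {k : Type} [Field k]
    (φ : ZBar →+* k) (x : Fin m → Matrix (Fin n) (Fin n) k) : Prop :=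
  (∀ i j, x i * x j = x (mul i j)) ∧ ∀ i, (x i).charpoly = ∏ a, (X - C (φ (z i a)))

theorem lift_real {m n : ℕ} (mul : Fin m → Fin m → Fin m) (z : Fin m → Fin n → ZBar)
    (h : ∀ N : ℤ, N ≠ 0 → ∃ (k : Type) (_ : Field k) (φ : ZBar →+* k)
      (x : Fin m → Matrix (Fin n) (Fin n) k), φ (N : ZBar) ≠ 0 ∧ Realizes mul z φ x) :
    ∃ x : Fin m → Matrix (Fin n) (Fin n) QBar, Realizes mul z (algebraMap ZBar QBar) x := by
  let σ := Fin m × Fin n × Fin n
  let Xg : Fin m → Matrix (Fin n) (Fin n) (MvPolynomial σ ZBar) := fun i =>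
    Matrix.of fun a b => MvPolynomial.X (i, a, b)
  let F₁ : Set (MvPolynomial σ ZBar) := {f | ∃ i j a b, f = (Xg i * Xg j - Xg (mul i j)) a b}
  let F₂ : Set (MvPolynomial σ ZBar) := {f | ∃ i d, f = (Xg i).charpoly.coeff d -
    MvPolynomial.C ((∏ a, (X - C (z i a))).coeff d)}
  -- evaluation
  have hev : ∀ (k : Type) [Field k] (φ : ZBar →+* k) (x : Fin m → Matrix (Fin n) (Fin n) k) (i : Fin m),
      (Xg i).map (MvPolynomial.eval₂Hom φ (fun s : σ => x s.1 s.2.1 s.2.2)) = x i := by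
    intro k _ φ x i
    ext a b
    simp [Xg]
  have hF₁ : ∀ (k : Type) [Field k] (φ : ZBar →+* k) (x : Fin m → Matrix (Fin n) (Fin n) k),
      (∀ f ∈ F₁, MvPolynomial.eval₂Hom φ (fun s : σ => x s.1 s.2.1 s.2.2) f = 0) ↔
        ∀ i j, x i * x j = x (mul i j) := by
    intro k _ φ x
    have h1 : ∀ i j, (Xg i * Xg j - Xg (mul i j)).map
        (MvPolynomial.eval₂Hom φ (fun s : σ => x s.1 s.2.1 s.2.2)) = x i * x j - x (mul i j) := by
      intro i j
      rw [Matrix.map_sub _ (map_sub _), Matrix.map_mul, hev, hev, hev]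
    constructor
    · intro h i j
      rw [← sub_eq_zero, ← h1]
      ext a b
      exact h _ ⟨i, j, a, b, rfl⟩
    · rintro h _ ⟨i, j, a, b, rfl⟩
      have h2 := congrFun (congrFun (h1 i j) a) b
      rw [h i j, sub_self] at h2
      exact h2
  have hF₂ : ∀ (k : Type) [Field k] (φ : ZBar →+* k) (x : Fin m → Matrix (Fin n) (Fin n) k),
      (∀ f ∈ F₂, MvPolynomial.eval₂Hom φ (fun s : σ => x s.1 s.2.1 s.2.2) f = 0) ↔
        ∀ i, (x i).charpoly = ∏ a, (X - C (φ (z i a))) := by
    intro k _ φ x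
    have h1 : ∀ i d, MvPolynomial.eval₂Hom φ (fun s : σ => x s.1 s.2.1 s.2.2)
        ((Xg i).charpoly.coeff d - MvPolynomial.C ((∏ a, (X - C (z i a))).coeff d)) =
        (x i).charpoly.coeff d - (∏ a, (X - C (φ (z i a)))).coeff d := by
      intro i d
      rw [map_sub, MvPolynomial.eval₂Hom_C, ← Polynomial.coeff_map, ← Matrix.charpoly_map, hev]
      congr 1
      rw [← Polynomial.coeff_map, Polynomial.map_prod]
      simp
    constructor
    · intro h i
      ext d
      rw [← sub_eq_zero, ← h1]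
      exact h _ ⟨i, d, rfl⟩
    · rintro h _ ⟨i, d, rfl⟩
      rw [h1, h, sub_self]
  obtain ⟨y, hy⟩ := null (σ := σ) (F₁ ∪ F₂) (fun N hN => by
    obtain ⟨k, _, φ, x, hφ, hx1, hx2⟩ := h N hN
    refine ⟨k, inferInstance, φ, fun s => x s.1 s.2.1 s.2.2, hφ, ?_⟩
    rintro f (hf | hf)
    · exact (hF₁ k φ x).2 hx1 f hf
    · exact (hF₂ k φ x).2 hx2 f hf)
  refine ⟨fun i => Matrix.of fun a b => y (i, a, b), ?_, ?_⟩
  · refine (hF₁ QBar (algebraMap ZBar QBar) _).1 fun f hf => ?_
    exact hy f (Or.inl hf)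
  · refine (hF₂ QBar (algebraMap ZBar QBar) _).1 fun f hf => ?_
    exact hy f (Or.inr hf)

/-- The homomorphism given by a realisation. -/
theorem hom_of_real {m n : ℕ} {mul : Fin m → Fin m → Fin m} {z : Fin m → Fin n → ZBar} {D : ℕ} (hD : 0 < D)
    (hz : ∀ i a, z i a ^ D = 1)
    {x : Fin m → Matrix (Fin n) (Fin n) QBar} (hx : Realizes mul z (algebraMap ZBar QBar) x)
    {G : Type*} [Group G] (e : G → Fin m) (he : ∀ g h, e (g * h) = mul (e g) (e h)) :
    ∃ ρ : G →* GL (Fin n) QBar, ∀ g, (ρ g : Matrix (Fin n) (Fin n) QBar) = x (e g) := by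
  have hdet : ∀ i, IsUnit (x i) := by
    intro i
    rw [Matrix.isUnit_iff_isUnit_det, isUnit_iff_ne_zero]
    intro h0
    have h1 := Matrix.det_eq_sign_charpoly_coeff (x i)
    rw [h0, hx.2 i, Polynomial.coeff_zero_eq_eval_zero, Polynomial.eval_prod] at h1
    have h2 : ∏ a, eval 0 (X - C (algebraMap ZBar QBar (z i a))) ≠ 0 := by
      rw [Finset.prod_ne_zero_iff]
      intro a _
      rw [eval_sub, eval_X, eval_C, zero_sub, neg_ne_zero]
      intro h3
      have h4 : algebraMap ZBar QBar (z i a) ^ D = 1 := by rw [← map_pow, hz, map_one]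
      rw [h3, zero_pow hD.ne'] at h4
      exact zero_ne_one h4
    have h3 : ((-1 : QBar) ^ Fintype.card (Fin n)) ≠ 0 := pow_ne_zero _ (by norm_num)
    exact (mul_ne_zero h3 h2) h1.symm
  have hmul : ∀ g h, x (e (g * h)) = x (e g) * x (e h) := by
    intro g h
    rw [he, hx.1]
  have hone : x (e 1) = 1 := by
    have h1 := hmul 1 1
    rw [mul_one] at h1
    have h2 : x (e 1) * x (e 1) = x (e 1) * 1 := by rw [mul_one]; exact h1.symm
    exact (hdet (e 1)).mul_left_cancel h2
  let f : G →* Matrix (Fin n) (Fin n) QBar :=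
    { toFun := fun g => x (e g), map_one' := hone, map_mul' := hmul }
  exact ⟨f.toHomUnits, fun g => rfl⟩

end Pool.Agent.Y800
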