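import Mathlib

/-! Linear algebra: groups of matrices which act semisimply, and the trace form. -/

set_option autoImplicit false

namespace Pool.Agent.Y800

open Polynomial Matrix Module

section defs

variable {G : Type*} [Group G] {k : Type*} [Field k] {n : ℕ}

/-- The subspace `W` is stable under all `ρ g`. -/
def Stable (ρ : G →* GL (Fin n) k) (W : Submodule k (Fin n → k)) : Prop :=
  ∀ g : G, ∀ w ∈ W, (ρ g : Matrix (Fin n) (Fin n) k).mulVec w ∈ W

/-- The representation `ρ` is semisimple: every stable subspace has a stable complement. -/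
def IsSemisimpleRep (ρ : G →* GL (Fin n) k) : Prop :=
  ∀ W : Submodule k (Fin n → k), Stable ρ W → ∃ W' : Submodule k (Fin n → k), Stable ρ W' ∧ IsCompl W W'

end defs

section idem

variable {k : Type*} [Field k] {n : ℕ}

/-- a nonzero idempotent matrix has nonzero trace if `1, ..., n` are invertible -/
theorem idem_trace {e : Matrix (Fin n) (Fin n) k} (he : e * e = e)
    (hn : ∀ m : ℕ, 1 ≤ m → m ≤ n → (m : k) ≠ 0) (ht : e.trace = 0) : e = 0 := by
  have hff : IsIdempotentElem (Matrix.toLin' e) := by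
    unfold IsIdempotentElem
    rw [Module.End.mul_eq_comp, ← Matrix.toLin'_mul, he]
  have h1 := (LinearMap.IsIdempotentElem.isProj_range _ hff).trace
  have h2 : LinearMap.trace k (Fin n → k) (Matrix.toLin' e) = e.trace := by
    rw [Matrix.trace_toLin'_eq]
  rw [h2, ht] at h1
  have h3 : finrank k (LinearMap.range (Matrix.toLin' e)) ≤ n := by
    have := Submodule.finrank_le (LinearMap.range (Matrix.toLin' e))
    rwa [Module.finrank_fin_fun] at this
  have h4 : finrank k (LinearMap.range (Matrix.toLin' e)) = 0 := by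
    by_contra h
    exact hn _ (Nat.one_le_iff_ne_zero.2 h) h3 h1.symm
  rw [Submodule.finrank_eq_zero, LinearMap.range_eq_bot] at h4
  exact (Matrix.toLin'.map_eq_zero_iff).1 h4

/-- If all products of `y` with polynomials in `y` have trace zero, then `y` is nilpotent. -/
theorem nilpotent_of_trace {y : Matrix (Fin n) (Fin n) k}
    (hn : ∀ m : ℕ, 1 ≤ m → m ≤ n → (m : k) ≠ 0)
    (ht : ∀ f : k[X], (aeval y f * y).trace = 0) : IsNilpotent y := by
  -- write `minpoly = X^s * m` with `m(0) ≠ 0`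
  have h0 : y.charpoly ≠ 0 := y.charpoly_monic.ne_zero
  obtain ⟨m, hm, hm0⟩ := Polynomial.exists_eq_pow_rootMultiplicity_mul_and_not_dvd y.charpoly h0 0
  set s := rootMultiplicity 0 y.charpoly with hs
  rw [C_0, sub_zero] at hm hm0
  have hcop : IsCoprime ((X : k[X]) ^ (s + 1)) m :=
    IsCoprime.pow_left ((Polynomial.irreducible_X.coprime_iff_not_dvd).2 hm0)
  obtain ⟨u, v, huv⟩ := hcop
  set e := aeval y (u * X ^ (s + 1)) with he
  have hz : aeval y (X ^ (s + 1) * m) = 0 := by
    have : (X : k[X]) ^ (s + 1) * m = X * y.charpoly := by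
      rw [hm, pow_succ]; ring
    rw [this, map_mul, Matrix.aeval_self_charpoly, mul_zero]
  have hid : e * e = e := by
    have h1 : e * (1 - e) = 0 := by
      have : (1 : Matrix (Fin n) (Fin n) k) - e = aeval y (v * m) := by
        have h2 : v * m = 1 - u * X ^ (s + 1) := by rw [← huv]; ring
        rw [h2, map_sub, map_one]
      rw [this, he, ← map_mul]
      have h3 : u * X ^ (s + 1) * (v * m) = (u * v) * (X ^ (s + 1) * m) := by ring
      rw [h3, map_mul, hz, mul_zero]
    rw [mul_sub, mul_one, sub_eq_zero] at h1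
    exact h1.symm
  have htr : e.trace = 0 := by
    have : e = aeval y (u * X ^ s) * y := by
      rw [he, show u * (X : k[X]) ^ (s + 1) = (u * X ^ s) * X by rw [pow_succ]; ring, map_mul, aeval_X]
    rw [this]
    exact ht _
  have he0 := idem_trace hid hn htr
  refine ⟨s + 1, ?_⟩
  have h5 : aeval y (u * X ^ (s + 1) + v * m) = 1 := by rw [huv, map_one]
  rw [map_add, ← he, he0, zero_add] at h5
  calc y ^ (s + 1) = aeval y ((X : k[X]) ^ (s + 1)) * 1 := by simp
    _ = aeval y ((X : k[X]) ^ (s + 1)) * aeval y (v * m) := by rw [h5]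
    _ = 0 := by
      rw [← map_mul]
      have h3 : (X : k[X]) ^ (s + 1) * (v * m) = v * (X ^ (s + 1) * m) := by ring
      rw [h3, map_mul, hz, mul_zero]

end idem

section nondeg

variable {G : Type*} [Group G] {k : Type*} [Field k] {n : ℕ}

/-- the span of the matrices `ρ g` -/
def Sp (ρ : G →* GL (Fin n) k) : Submodule k (Matrix (Fin n) (Fin n) k) :=
  Submodule.span k (Set.range fun g => (ρ g : Matrix (Fin n) (Fin n) k))

variable (ρ : G →* GL (Fin n) k)

theorem mem_Sp (g : G) : (ρ g : Matrix (Fin n) (Fin n) k) ∈ Sp ρ := Submodule.subset_span ⟨g, rfl⟩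

theorem one_mem_Sp : (1 : Matrix (Fin n) (Fin n) k) ∈ Sp ρ := by
  have := mem_Sp ρ 1
  rwa [map_one, Units.val_one] at this

theorem mul_mem_Sp {a b : Matrix (Fin n) (Fin n) k} (ha : a ∈ Sp ρ) (hb : b ∈ Sp ρ) : a * b ∈ Sp ρ := by
  unfold Sp at ha hb
  induction ha using Submodule.span_induction with
  | mem x hx =>
    obtain ⟨g, rfl⟩ := hx
    induction hb using Submodule.span_induction with
    | mem y hy =>
      obtain ⟨h, rfl⟩ := hy
      have := mem_Sp ρ (g * h)
      rwa [map_mul, Units.val_mul] at this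
    | zero => rw [mul_zero]; exact zero_mem _
    | add y z _ _ hy hz => rw [mul_add]; exact add_mem hy hz
    | smul c y _ hy => rw [mul_smul_comm]; exact Submodule.smul_mem _ _ hy
  | zero => rw [zero_mul]; exact zero_mem _
  | add y z _ _ hy hz => rw [add_mul]; exact add_mem hy hz
  | smul c y _ hy => rw [smul_mul_assoc]; exact Submodule.smul_mem _ _ hy

theorem aeval_mem_Sp {a : Matrix (Fin n) (Fin n) k} (ha : a ∈ Sp ρ) (f : k[X]) : aeval a f ∈ Sp ρ := by
  induction f using Polynomial.induction_on' with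
  | add p q hp hq => rw [map_add]; exact add_mem hp hq
  | monomial m c =>
    rw [aeval_monomial, ← Algebra.smul_def]
    apply Submodule.smul_mem
    induction m with
    | zero => rw [pow_zero]; exact one_mem_Sp ρ
    | succ m ih => rw [pow_succ]; exact mul_mem_Sp ρ ih ha

theorem Sp_stable {W : Submodule k (Fin n → k)} (hW : Stable ρ W) {a : Matrix (Fin n) (Fin n) k}
    (ha : a ∈ Sp ρ) : ∀ w ∈ W, a.mulVec w ∈ W := by
  unfold Sp at ha
  induction ha using Submodule.span_induction with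
  | mem x hx =>
    obtain ⟨g, rfl⟩ := hx
    exact hW g
  | zero => intro w _; rw [Matrix.zero_mulVec]; exact zero_mem _
  | add y z _ _ hy hz => intro w hw; rw [Matrix.add_mulVec]; exact add_mem (hy w hw) (hz w hw)
  | smul c y _ hy => intro w hw; rw [Matrix.smul_mulVec]; exact Submodule.smul_mem _ _ (hy w hw)

/-- the radical of the trace form -/
def Rad : Submodule k (Matrix (Fin n) (Fin n) k) where
  carrier := {y | y ∈ Sp ρ ∧ ∀ a ∈ Sp ρ, (a * y).trace = 0}
  add_mem' := by
    rintro y z ⟨hy, hy'⟩ ⟨hz, hz'⟩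
    exact ⟨add_mem hy hz, fun a ha => by rw [mul_add, Matrix.trace_add, hy' a ha, hz' a ha, add_zero]⟩
  zero_mem' := ⟨zero_mem _, fun a _ => by rw [mul_zero, Matrix.trace_zero]⟩
  smul_mem' := by
    rintro c y ⟨hy, hy'⟩
    exact ⟨Submodule.smul_mem _ _ hy, fun a ha => by
      rw [mul_smul_comm, Matrix.trace_smul, hy' a ha, smul_zero]⟩

theorem mul_mem_Rad {a y : Matrix (Fin n) (Fin n) k} (ha : a ∈ Sp ρ) (hy : y ∈ Rad ρ) : a * y ∈ Rad ρ :=
  ⟨mul_mem_Sp ρ ha hy.1, fun b hb => by rw [← mul_assoc]; exact hy.2 _ (mul_mem_Sp ρ hb ha)⟩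

theorem mem_Rad_mul {a y : Matrix (Fin n) (Fin n) k} (ha : a ∈ Sp ρ) (hy : y ∈ Rad ρ) : y * a ∈ Rad ρ :=
  ⟨mul_mem_Sp ρ hy.1 ha, fun b hb => by
    rw [← mul_assoc, Matrix.trace_mul_comm, ← mul_assoc]; exact hy.2 _ (mul_mem_Sp ρ ha hb)⟩

theorem Rad_nil (hn : ∀ m : ℕ, 1 ≤ m → m ≤ n → (m : k) ≠ 0) {y : Matrix (Fin n) (Fin n) k}
    (hy : y ∈ Rad ρ) : IsNilpotent y :=
  nilpotent_of_trace hn fun f => hy.2 _ (aeval_mem_Sp ρ hy.1 f)

/-- **Nondegeneracy of the trace form.** -/
theorem Rad_eq_bot (hn : ∀ m : ℕ, 1 ≤ m → m ≤ n → (m : k) ≠ 0) (hss : IsSemisimpleRep ρ) :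
    Rad ρ = ⊥ := by
  -- the common kernel of the radical
  let W₀ : Submodule k (Fin n → k) :=
    { carrier := {v | ∀ y ∈ Rad ρ, y.mulVec v = 0}
      add_mem' := fun {v w} hv hw y hy => by rw [Matrix.mulVec_add, hv y hy, hw y hy, add_zero]
      zero_mem' := fun y _ => Matrix.mulVec_zero y
      smul_mem' := fun c v hv y hy => by rw [Matrix.mulVec_smul, hv y hy, smul_zero] }
  have hW₀ : Stable ρ W₀ := by
    intro g v hv y hy
    rw [Matrix.mulVec_mulVec]
    exact hv _ (mem_Rad_mul ρ (mem_Sp ρ g) hy)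
  obtain ⟨W', hW', hc⟩ := hss W₀ hW₀
  have hbot : W' = ⊥ := by
    by_contra hne
    classical
    have hex : ∃ d : ℕ, ∃ W : Submodule k (Fin n → k), Stable ρ W ∧ W ≤ W' ∧ W ≠ ⊥ ∧ finrank k W = d :=
      ⟨_, W', hW', le_rfl, hne, rfl⟩
    obtain ⟨W, hW, hWW, hWne, hWd⟩ := Nat.find_spec hex
    have hmin : ∀ V : Submodule k (Fin n → k), Stable ρ V → V ≤ W → V ≠ ⊥ → V = W := by
      intro V hV hVW hVne
      have h1 := Nat.find_min' hex ⟨V, hV, hVW.trans hWW, hVne, rfl⟩
      rw [← hWd] at h1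
      exact Submodule.eq_of_le_of_finrank_le hVW h1
    -- some element of the radical acts nontrivially
    have h2 : ∃ y ∈ Rad ρ, ∃ w ∈ W, y.mulVec w ≠ 0 := by
      by_contra h
      push Not at h
      apply hWne
      rw [eq_bot_iff, ← hc.inf_eq_bot]
      exact fun w hw => ⟨fun y hy => h y hy w hw, hWW hw⟩
    obtain ⟨y, hy, w, hw, hyw⟩ := h2
    let V : Submodule k (Fin n → k) :=
      { carrier := {v | ∃ z ∈ Rad ρ, z.mulVec w = v}
        add_mem' := by
          rintro _ _ ⟨z, hz, rfl⟩ ⟨z', hz', rfl⟩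
          exact ⟨z + z', add_mem hz hz', Matrix.add_mulVec _ _ _⟩
        zero_mem' := ⟨0, zero_mem _, Matrix.zero_mulVec _⟩
        smul_mem' := by
          rintro c _ ⟨z, hz, rfl⟩
          exact ⟨c • z, Submodule.smul_mem _ _ hz, Matrix.smul_mulVec _ _ _⟩ }
    have hVs : Stable ρ V := by
      rintro g _ ⟨z, hz, rfl⟩
      exact ⟨_, mul_mem_Rad ρ (mem_Sp ρ g) hz, by rw [Matrix.mulVec_mulVec]⟩
    have hVW : V ≤ W := by
      rintro _ ⟨z, hz, rfl⟩
      exact Sp_stable ρ hW hz.1 w hw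
    have hVne : V ≠ ⊥ := by
      intro h
      apply hyw
      have : y.mulVec w ∈ V := ⟨y, hy, rfl⟩
      rw [h] at this
      exact (Submodule.mem_bot k).1 this
    have hVeq := hmin V hVs hVW hVne
    have hwV : w ∈ V := by rw [hVeq]; exact hw
    obtain ⟨z, hz, hzw⟩ := hwV
    obtain ⟨N, hN⟩ := Rad_nil ρ hn hz
    have h3 : ∀ m : ℕ, (z ^ m).mulVec w = w := by
      intro m
      induction m with
      | zero => rw [pow_zero, Matrix.one_mulVec]
      | succ m ih => rw [pow_succ, ← Matrix.mulVec_mulVec, hzw, ih]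
    have h4 := h3 N
    rw [hN, Matrix.zero_mulVec] at h4
    apply hyw
    rw [← h4, Matrix.mulVec_zero]
  have htop : W₀ = ⊤ := by
    have := hc.sup_eq_top
    rwa [hbot, sup_bot_eq] at this
  rw [eq_bot_iff]
  intro y hy
  rw [Submodule.mem_bot]
  have h5 : ∀ v, y.mulVec v = 0 := fun v => by
    have : v ∈ W₀ := by rw [htop]; trivial
    exact this y hy
  apply Matrix.toLin'.injective
  refine LinearMap.ext fun v => ?_
  rw [Matrix.toLin'_apply, h5, map_zero, LinearMap.zero_apply]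

theorem eq_zero_of_trace (hn : ∀ m : ℕ, 1 ≤ m → m ≤ n → (m : k) ≠ 0) (hss : IsSemisimpleRep ρ)
    {x : Matrix (Fin n) (Fin n) k} (hx : x ∈ Sp ρ)
    (ht : ∀ g : G, ((ρ g : Matrix (Fin n) (Fin n) k) * x).trace = 0) : x = 0 := by
  have h1 : x ∈ Rad ρ := by
    refine ⟨hx, fun a ha => ?_⟩
    unfold Sp at ha
    induction ha using Submodule.span_induction with
    | mem z hz =>
      obtain ⟨g, rfl⟩ := hz
      exact ht g
    | zero => rw [zero_mul, Matrix.trace_zero]
    | add y z _ _ hy hz => rw [add_mul, Matrix.trace_add, hy, hz, add_zero]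
    | smul c y _ hy => rw [smul_mul_assoc, Matrix.trace_smul, hy, smul_zero]
  rw [Rad_eq_bot ρ hn hss] at h1
  exact (Submodule.mem_bot k).1 h1

end nondeg

end Pool.Agent.Y800
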