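import Pool.Agent.Y800.Defs

/-! A system of polynomial equations over the ring of all algebraic integers, which is solvable in
fields of residue characteristics prime to any given integer, has an algebraic solution. -/

set_option autoImplicit false
set_option linter.all false

namespace Pool.Agent.Y800

open NumberField

abbrev QBar : Type := AlgebraicClosure ℚ

theorem isAlgebraic_gen (K : Type) [Field K] [NumberField K] (x : AlgebraicClosure K) : IsAlgebraic ℚ x := by
  have : Algebra.IsAlgebraic ℚ (AlgebraicClosure K) := Algebra.IsAlgebraic.trans ℚ K _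
  exact Algebra.IsAlgebraic.isAlgebraic x

theorem exists_int (x : QBar) : ∃ (m : ℤ) (r : ZBar), m ≠ 0 ∧ (m : QBar) * x = (r : QBar) := by
  have h1 : IsAlgebraic ℚ x := isAlgebraic_gen ℚ x
  have h2 : IsAlgebraic ℤ x := (IsFractionRing.isAlgebraic_iff ℤ ℚ QBar).2 h1
  obtain ⟨y, hy, h⟩ := h2.exists_integral_multiple
  refine ⟨y, ⟨y • x, h⟩, hy, ?_⟩
  show (y : AlgebraicClosure ℚ) * x = y • x
  rw [zsmul_eq_mul]

/-- nonzero algebraic integers divide nonzero integers -/
theorem exists_int_mul {d : ZBar} (hd : d ≠ 0) : ∃ (m : ℤ) (r : ZBar), m ≠ 0 ∧ d * r = m := by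
  have hd' : (d : QBar) ≠ 0 := by
    intro h
    exact hd (RingOfIntegers.ext h)
  obtain ⟨m, r, hm, hr⟩ := exists_int ((d : QBar)⁻¹)
  refine ⟨m, r, hm, ?_⟩
  apply RingOfIntegers.ext
  have h1 : ((d * r : ZBar) : QBar) = (d : QBar) * (r : QBar) := rfl
  have h2 : (((m : ℤ) : ZBar) : QBar) = (m : QBar) := map_intCast (algebraMap ZBar QBar) m
  rw [h1, h2, ← hr, mul_comm (m : QBar), mul_inv_cancel_left₀ hd']

/-- common denominators -/
theorem clear {σ : Type} (g : MvPolynomial σ QBar) : ∃ (m : ℤ) (g' : MvPolynomial σ ZBar), m ≠ 0 ∧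
    (m : MvPolynomial σ QBar) * g = MvPolynomial.map (algebraMap ZBar QBar) g' := by
  induction g using MvPolynomial.induction_on with
  | C a =>
    obtain ⟨m, r, hm, hr⟩ := exists_int a
    refine ⟨m, MvPolynomial.C r, hm, ?_⟩
    have h1 : (m : MvPolynomial σ QBar) = MvPolynomial.C (m : QBar) := (map_intCast (MvPolynomial.C : QBar →+* MvPolynomial σ QBar) m).symm
    rw [h1, ← map_mul, hr, MvPolynomial.map_C]
  | add p q hp hq =>
    obtain ⟨m, p', hm, hp⟩ := hp
    obtain ⟨l, q', hl, hq⟩ := hq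
    refine ⟨m * l, (l : MvPolynomial σ ZBar) * p' + (m : MvPolynomial σ ZBar) * q', mul_ne_zero hm hl, ?_⟩
    rw [map_add, map_mul, map_mul, map_intCast, map_intCast, ← hp, ← hq, Int.cast_mul]
    ring
  | mul_X p i hp =>
    obtain ⟨m, p', hm, hp⟩ := hp
    refine ⟨m, p' * MvPolynomial.X i, hm, ?_⟩
    rw [map_mul, MvPolynomial.map_X, ← hp, mul_assoc]

theorem clear_ideal {σ : Type} (F : Set (MvPolynomial σ ZBar)) (g : MvPolynomial σ QBar)
    (hg : g ∈ Ideal.span (MvPolynomial.map (algebraMap ZBar QBar) '' F)) :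
    ∃ (m : ℤ) (g' : MvPolynomial σ ZBar), m ≠ 0 ∧ g' ∈ Ideal.span F ∧
    (m : MvPolynomial σ QBar) * g = MvPolynomial.map (algebraMap ZBar QBar) g' := by
  induction hg using Submodule.span_induction with
  | mem x hx =>
    obtain ⟨f, hf, rfl⟩ := hx
    exact ⟨1, f, one_ne_zero, Ideal.subset_span hf, by simp⟩
  | zero => exact ⟨1, 0, one_ne_zero, zero_mem _, by simp⟩
  | add p q _ _ hp hq =>
    obtain ⟨m, p', hm, hpm, hp⟩ := hp
    obtain ⟨l, q', hl, hqm, hq⟩ := hq
    refine ⟨m * l, (l : MvPolynomial σ ZBar) * p' + (m : MvPolynomial σ ZBar) * q', mul_ne_zero hm hl,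
      add_mem (Ideal.mul_mem_left _ _ hpm) (Ideal.mul_mem_left _ _ hqm), ?_⟩
    rw [map_add, map_mul, map_mul, map_intCast, map_intCast, ← hp, ← hq, Int.cast_mul]
    ring
  | smul a p _ hp =>
    obtain ⟨m, p', hm, hpm, hp⟩ := hp
    obtain ⟨l, a', hl, ha⟩ := clear a
    refine ⟨l * m, a' * p', mul_ne_zero hl hm, Ideal.mul_mem_left _ _ hpm, ?_⟩
    rw [map_mul, ← hp, ← ha, smul_eq_mul, Int.cast_mul]
    ring

theorem null {σ : Type} [Finite σ] (F : Set (MvPolynomial σ ZBar))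
    (h : ∀ m : ℤ, m ≠ 0 → ∃ (k : Type) (_ : Field k) (φ : ZBar →+* k) (x : σ → k), φ (m : ZBar) ≠ 0 ∧
      ∀ f ∈ F, MvPolynomial.eval₂ φ x f = 0) :
    ∃ x : σ → QBar, ∀ f ∈ F, MvPolynomial.eval₂ (algebraMap ZBar QBar) x f = 0 := by
  by_cases hJ : Ideal.span (MvPolynomial.map (algebraMap ZBar QBar) '' F) = ⊤
  · exfalso
    obtain ⟨m, g, hm, hg, hmg⟩ := clear_ideal F 1 (by rw [hJ]; trivial)
    obtain ⟨k, _, φ, x, hm0, hx⟩ := h m hm
    have h1 : Ideal.span F ≤ RingHom.ker (MvPolynomial.eval₂Hom φ x) := by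
      rw [Ideal.span_le]
      intro f hf
      exact hx f hf
    have h2 := h1 hg
    have h3 : g = (m : MvPolynomial σ ZBar) := by
      apply MvPolynomial.map_injective (algebraMap ZBar QBar) RingOfIntegers.coe_injective
      rw [← hmg, mul_one, map_intCast]
    rw [RingHom.mem_ker, h3, map_intCast] at h2
    apply hm0
    rw [map_intCast, h2]
  · obtain ⟨M, hM, hJM⟩ := Ideal.exists_le_maximal _ hJ
    obtain ⟨x, hx⟩ := MvPolynomial.eq_vanishingIdeal_singleton_of_isMaximal QBar hM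
    refine ⟨x, fun f hf => ?_⟩
    have h1 : MvPolynomial.map (algebraMap ZBar QBar) f ∈ M :=
      hJM (Ideal.subset_span ⟨f, hf, rfl⟩)
    rw [hx, MvPolynomial.mem_vanishingIdeal_singleton_iff] at h1
    rw [← MvPolynomial.eval_map]
    simpa using h1

end Pool.Agent.Y800
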