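import Pool.Agent.Y800.Cheb
import Pool.Agent.Y800.FinImg
import Pool.Agent.Y800.Diag

/-! Representations of the absolute Galois group of `ℚ` with finite image. -/

set_option autoImplicit false
set_option linter.all false

namespace Pool.Agent.Y800

open NumberField Filter Topology MeasureTheory Module Polynomial

theorem exists_haar : ∃ (m : MeasurableSpace GQ) (_ : BorelSpace GQ) (μ : Measure GQ),
    IsProbabilityMeasure μ ∧ μ.IsMulLeftInvariant ∧ μ.Regular := by
  letI : MeasurableSpace GQ := borel GQ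
  haveI : BorelSpace GQ := ⟨rfl⟩
  refine ⟨inferInstance, inferInstance, Measure.haarMeasure (⊤ : TopologicalSpace.PositiveCompacts GQ), ?_, ?_, ?_⟩
  · constructor
    have := Measure.haarMeasure_self (G := GQ) (K₀ := ⊤)
    exact this
  · infer_instance
  · infer_instance

section openker

variable {G : Type*} [Group G] [TopologicalSpace G] [IsTopologicalGroup G] {H : Type*} [Group H]

theorem isOpen_preimage (f : G →* H) (h : IsOpen (f.ker : Set G)) (S : Set H) : IsOpen (f ⁻¹' S) := by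
  rw [isOpen_iff_mem_nhds]
  intro g hg
  have h1 : (fun x => g⁻¹ * x) ⁻¹' (f.ker : Set G) ∈ 𝓝 g := by
    refine (continuous_mul_left g⁻¹).continuousAt.preimage_mem_nhds ?_
    rw [inv_mul_cancel]
    exact h.mem_nhds f.ker.one_mem
  refine mem_of_superset h1 fun x hx => ?_
  have hx' : f (g⁻¹ * x) = 1 := hx
  rw [map_mul, map_inv, inv_mul_eq_one] at hx'
  show f x ∈ S
  rw [← hx']
  exact hg

theorem isClosed_preimage (f : G →* H) (h : IsOpen (f.ker : Set G)) (S : Set H) : IsClosed (f ⁻¹' S) := by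
  rw [← isOpen_compl_iff, ← Set.preimage_compl]
  exact isOpen_preimage f h _

theorem continuous_of_ker [TopologicalSpace H] (f : G →* H) (h : IsOpen (f.ker : Set G)) : Continuous f :=
  ⟨fun S _ => isOpen_preimage f h S⟩

end openker

theorem finite_quot {H : Type*} [Group H] (f : GQ →* H) (h : IsOpen (f.ker : Set GQ)) :
    Finite (GQ ⧸ f.ker) := Subgroup.quotient_finite_of_isOpen _ h

theorem exists_pow {G : Type*} [Group G] {H : Type*} [Group H] (f : G →* H) (h : Finite (G ⧸ f.ker)) :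
    ∃ N : ℕ, 0 < N ∧ ∀ g, (f g) ^ N = 1 := by
  refine ⟨Nat.card (G ⧸ f.ker), Nat.card_pos, fun g => ?_⟩
  rw [← map_pow, ← MonoidHom.mem_ker, ← QuotientGroup.eq_one_iff, QuotientGroup.mk_pow]
  exact pow_card_eq_one'

theorem exists_pow_mat {G : Type*} [Group G] {k : Type*} [Field k] {n : ℕ} (f : G →* GL (Fin n) k)
    (h : Finite (G ⧸ f.ker)) :
    ∃ N : ℕ, 0 < N ∧ ∀ g, (f g : Matrix (Fin n) (Fin n) k) ^ N = 1 := by
  obtain ⟨N, hN, hg⟩ := exists_pow f h
  refine ⟨N, hN, fun g => ?_⟩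
  rw [← Units.val_pow_eq_pow_val, hg, Units.val_one]

section

variable {k : Type*} [Field k] {n : ℕ}

theorem trace_conj_inv (ρ : GQ →* GL (Fin n) k) (σ τ : GQ) :
    (ρ (τ * σ * τ⁻¹) : Matrix (Fin n) (Fin n) k).trace = (ρ σ : Matrix (Fin n) (Fin n) k).trace := by
  rw [map_mul, map_mul, Units.val_mul, Units.val_mul, Matrix.trace_mul_comm, ← mul_assoc,
    ← Units.val_mul, ← map_mul, inv_mul_cancel, map_one, Units.val_one, one_mul]

/-- **Finite image.** -/
theorem finite_image [TopologicalSpace k] [IsTopologicalRing k] [T2Space k] [CharZero k]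
    (ρ : GQ →* GL (Fin n) k) (hρ : Continuous ρ) (hss : IsSemisimpleRep ρ) (T : Finset k) (Z : Set ℕ)
    (c : ℝ) (hc : c * n ^ 2 < 1)
    (hZ : ∀ᶠ N : ℕ in atTop, (cnt Z N : ℝ) ≤ c * (Nat.primeCounting N : ℝ))
    (hT : ∀ p : ℕ, p.Prime → p ∉ Z → ∀ P : Ideal ZBar, P.IsMaximal → (p : ZBar) ∈ P →
      ∀ σ : GQ, IsGeomFrob p P σ → (ρ σ : Matrix (Fin n) (Fin n) k).trace ∈ T) :
    IsOpen (ρ.ker : Set GQ) := by
  obtain ⟨m, hm, μ, h1, h2, h3⟩ := exists_haar
  have hker : IsClosed (ρ.ker : Set GQ) := by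
    have : (ρ.ker : Set GQ) = ρ ⁻¹' {1} := rfl
    rw [this]
    exact isClosed_singleton.preimage hρ
  have hC : IsClosed {g : GQ | (ρ g : Matrix (Fin n) (Fin n) k).trace ∈ T} := by
    have hcont : Continuous fun g : GQ => (ρ g : Matrix (Fin n) (Fin n) k).trace :=
      (Units.continuous_val.comp hρ).matrix_trace
    exact (Finset.finite_toSet T).isClosed.preimage hcont
  have hμ := haar_ge μ {g : GQ | (ρ g : Matrix (Fin n) (Fin n) k).trace ∈ T} hC
    (fun σ hσ τ => by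
      show (ρ (τ * σ * τ⁻¹) : Matrix (Fin n) (Fin n) k).trace ∈ T
      rw [trace_conj_inv]; exact hσ) Z c hZ hT
  have h4 := few_traces μ ρ hss (fun m hm _ => by exact_mod_cast (by omega : m ≠ 0)) T c hker hC hμ hc
  haveI := h4.1
  haveI : ρ.ker.FiniteIndex := Subgroup.finiteIndex_of_finite_quotient
  exact Subgroup.isOpen_of_isClosed_of_finiteIndex _ hker

/-- Two representations with open kernel whose traces agree on a large set of primes have the same
traces. -/
theorem traces_eq (ρ₁ ρ₂ : GQ →* GL (Fin n) k) (h₁ : IsOpen (ρ₁.ker : Set GQ))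
    (h₂ : IsOpen (ρ₂.ker : Set GQ)) (Z : Set ℕ) (c : ℝ) (hc : c * (2 * n ^ 2) < 1)
    (hZ : ∀ᶠ N : ℕ in atTop, (cnt Z N : ℝ) ≤ c * (Nat.primeCounting N : ℝ))
    (hT : ∀ p : ℕ, p.Prime → p ∉ Z → ∀ P : Ideal ZBar, P.IsMaximal → (p : ZBar) ∈ P →
      ∀ σ : GQ, IsGeomFrob p P σ → (ρ₁ σ : Matrix (Fin n) (Fin n) k).trace =
        (ρ₂ σ : Matrix (Fin n) (Fin n) k).trace) (g : GQ) :
    (ρ₁ g : Matrix (Fin n) (Fin n) k).trace = (ρ₂ g : Matrix (Fin n) (Fin n) k).trace := by
  obtain ⟨m, hm, μ, i1, i2, i3⟩ := exists_haar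
  set E : Set GQ := {g | (ρ₁ g : Matrix (Fin n) (Fin n) k).trace =
    (ρ₂ g : Matrix (Fin n) (Fin n) k).trace} with hE
  have hEc : IsClosed E := by
    have hker : IsOpen ((ρ₁.prod ρ₂).ker : Set GQ) := by
      have : ((ρ₁.prod ρ₂).ker : Set GQ) = (ρ₁.ker : Set GQ) ∩ (ρ₂.ker : Set GQ) := by
        ext x
        simp only [SetLike.mem_coe, MonoidHom.mem_ker, MonoidHom.prod_apply, Prod.mk_eq_one,
          Set.mem_inter_iff]
      rw [this]
      exact h₁.inter h₂
    have := isClosed_preimage (ρ₁.prod ρ₂) hker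
      {x | (x.1 : Matrix (Fin n) (Fin n) k).trace = (x.2 : Matrix (Fin n) (Fin n) k).trace}
    exact this
  have hμ := haar_ge μ E hEc (fun σ hσ τ => by
      show (ρ₁ (τ * σ * τ⁻¹) : Matrix (Fin n) (Fin n) k).trace =
        (ρ₂ (τ * σ * τ⁻¹) : Matrix (Fin n) (Fin n) k).trace
      rw [trace_conj_inv, trace_conj_inv]; exact hσ) Z c hZ hT
  have hc0 : 0 ≤ c := by
    have h1 : ENNReal.ofReal (1 - c) ≤ 1 := hμ.trans prob_le_one
    rw [ENNReal.ofReal_le_one] at h1
    linarith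
  let r : GQ →* (Matrix (Fin n) (Fin n) k × Matrix (Fin n) (Fin n) k) :=
    ((Units.coeHom _).comp ρ₁).prod ((Units.coeHom _).comp ρ₂)
  let τ : (Matrix (Fin n) (Fin n) k × Matrix (Fin n) (Fin n) k) →ₗ[k] k :=
    (Matrix.traceLinearMap (Fin n) k k) ∘ₗ LinearMap.fst k _ _ -
      (Matrix.traceLinearMap (Fin n) k k) ∘ₗ LinearMap.snd k _ _
  have hfr : finrank k (Matrix (Fin n) (Fin n) k × Matrix (Fin n) (Fin n) k) = 2 * n ^ 2 := by
    rw [Module.finrank_prod, Module.finrank_matrix, Module.finrank_self, Fintype.card_fin, mul_one]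
    ring
  have h0 := functional_zero (k := k) r τ E (fun s hs => ?_) (fun g hg => ?_) g
  · exact sub_eq_zero.1 h0
  · refine exists_translate μ E hEc c hμ s ?_
    rw [hfr] at hs
    have : (s.card : ℝ) ≤ 2 * (n : ℝ) ^ 2 := by exact_mod_cast hs
    nlinarith
  · exact sub_eq_zero.2 hg

end

section corr

variable {k : Type*} [Field k] {n : ℕ}

theorem corr_charpoly {ρ : GQ →* GL (Fin n) k} {p : ℕ} {a : Fin n → k} (h : Corresponds ρ p a)
    {P : Ideal ZBar} (hP : P.IsMaximal) (hpP : (p : ZBar) ∈ P) {σ : GQ} (hσ : IsGeomFrob p P σ) :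
    (ρ σ : Matrix (Fin n) (Fin n) k).charpoly = ∏ i, (X - C (a i)) := by
  obtain ⟨g, hg⟩ := h.2 P hP hpP σ hσ
  rw [hg, charpoly_conj, charpoly_diag]

theorem corr_trace {ρ : GQ →* GL (Fin n) k} {p : ℕ} {a : Fin n → k} (h : Corresponds ρ p a)
    {P : Ideal ZBar} (hP : P.IsMaximal) (hpP : (p : ZBar) ∈ P) {σ : GQ} (hσ : IsGeomFrob p P σ) :
    (ρ σ : Matrix (Fin n) (Fin n) k).trace = ∑ i, a i := by
  obtain ⟨g, hg⟩ := h.2 P hP hpP σ hσ
  rw [hg, Matrix.trace_mul_comm, ← mul_assoc, ← Units.val_mul, inv_mul_cancel, Units.val_one, one_mul,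
    Matrix.trace_diagonal]

/-- transport along a ring homomorphism -/
theorem corr_map {k' : Type*} [Field k'] (j : k →+* k') {ρ : GQ →* GL (Fin n) k} {p : ℕ} {a : Fin n → k}
    (h : Corresponds ρ p a) :
    Corresponds ((Matrix.GeneralLinearGroup.map j).comp ρ) p (fun i => j (a i)) := by
  refine ⟨fun P hP hpP τ hτ => ?_, fun P hP hpP σ hσ => ?_⟩
  · rw [MonoidHom.comp_apply, h.1 P hP hpP τ hτ, map_one]
  · obtain ⟨g, hg⟩ := h.2 P hP hpP σ hσ
    refine ⟨Matrix.GeneralLinearGroup.map j g, ?_⟩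
    rw [← map_inv, MonoidHom.comp_apply]
    show (ρ σ : Matrix (Fin n) (Fin n) k).map j = (g : Matrix (Fin n) (Fin n) k).map j *
      Matrix.diagonal (fun i => j (a i)) * ((g⁻¹ : GL (Fin n) k) : Matrix (Fin n) (Fin n) k).map j
    rw [hg, Matrix.map_mul, Matrix.map_mul]
    congr 2
    exact Matrix.diagonal_map (map_zero j)

theorem ker_map {k' : Type*} [Field k'] (j : k →+* k') (ρ : GQ →* GL (Fin n) k) :
    ((Matrix.GeneralLinearGroup.map j).comp ρ).ker = ρ.ker := by
  ext g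
  rw [MonoidHom.mem_ker, MonoidHom.mem_ker, MonoidHom.comp_apply]
  constructor
  · intro h
    apply Units.ext
    have h1 := congrArg (fun x : GL (Fin n) k' => (x : Matrix (Fin n) (Fin n) k')) h
    have h2 : (ρ g : Matrix (Fin n) (Fin n) k).map j = (1 : Matrix (Fin n) (Fin n) k).map j := by
      rw [Matrix.map_one j (map_zero j) (map_one j)]
      exact h1
    exact Matrix.map_injective j.injective h2
  · intro h
    rw [h, map_one]

end corr

end Pool.Agent.Y800
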