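import Pool.Agent.Y800.Rat

/-! Two primes suffice. -/

set_option autoImplicit false
set_option linter.all false

namespace Pool.Agent.Y800

open NumberField Filter Topology MeasureTheory Module Polynomial

variable {n : ℕ}

theorem cnt_finite_le (S : Finset ℕ) (N : ℕ) : cnt (S : Set ℕ) N ≤ S.card := by
  unfold cnt
  rw [← Set.ncard_coe_finset]
  exact Set.ncard_le_ncard (fun p hp => hp.2.2) (Finset.finite_toSet _)

theorem cnt_union_le (Z Z' : Set ℕ) (N : ℕ) : cnt (Z ∪ Z') N ≤ cnt Z N + cnt Z' N := by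
  unfold cnt
  refine le_trans (Set.ncard_le_ncard ?_ ((fin_cnt Z N).union (fin_cnt Z' N)))
    (Set.ncard_union_le _ _)
  rintro p ⟨h1, h2, h3 | h3⟩
  · exact Or.inl ⟨h1, h2, h3⟩
  · exact Or.inr ⟨h1, h2, h3⟩

theorem cnt_mono {Z Z' : Set ℕ} (h : Z ⊆ Z') (N : ℕ) : cnt Z N ≤ cnt Z' N :=
  Set.ncard_le_ncard (fun _ hp => ⟨hp.1, hp.2.1, h hp.2.2⟩) (fin_cnt Z' N)

theorem tendsto_pi : Tendsto (fun N : ℕ => (Nat.primeCounting N : ℝ)) atTop atTop :=
  tendsto_natCast_atTop_atTop.comp Nat.tendsto_primeCounting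

/-- finitely many more bad primes do not matter -/
theorem cnt_add_finite {Z : Set ℕ} {c c' : ℝ} (hc : c < c')
    (hZ : ∀ᶠ N : ℕ in atTop, (cnt Z N : ℝ) ≤ c * (Nat.primeCounting N : ℝ)) (S : Finset ℕ) :
    ∀ᶠ N : ℕ in atTop, (cnt (Z ∪ S) N : ℝ) ≤ c' * (Nat.primeCounting N : ℝ) := by
  have h1 : ∀ᶠ N : ℕ in atTop, (S.card : ℝ) / (c' - c) ≤ (Nat.primeCounting N : ℝ) :=
    tendsto_pi.eventually_ge_atTop _
  filter_upwards [hZ, h1] with N hN hN1
  rw [div_le_iff₀ (by linarith)] at hN1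
  have h2 : (cnt (Z ∪ S) N : ℝ) ≤ cnt Z N + S.card := by
    exact_mod_cast (cnt_union_le Z S N).trans (Nat.add_le_add_left (cnt_finite_le S N) _)
  nlinarith

theorem cnt_finite (S : Finset ℕ) {c : ℝ} (hc : 0 < c) :
    ∀ᶠ N : ℕ in atTop, (cnt (S : Set ℕ) N : ℝ) ≤ c * (Nat.primeCounting N : ℝ) := by
  have h0 : ∀ᶠ N : ℕ in atTop, (cnt (∅ : Set ℕ) N : ℝ) ≤ 0 * (Nat.primeCounting N : ℝ) := by
    filter_upwards with N
    have : cnt (∅ : Set ℕ) N = 0 := by
      unfold cnt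
      simp
    rw [this]; simp
  have := cnt_add_finite hc h0 S
  simpa using this

/-- From a continuous semisimple `ℓ`-adic representation to a complex one with open kernel. -/
theorem to_complex {k : Type} [Field k] [TopologicalSpace k] [IsTopologicalRing k] [T2Space k] [CharZero k]
    (ι : k ≃+* ℂ) (α : ℕ → Fin n → ℂ) (Z : Set ℕ) (T : Finset ℂ) (c : ℝ) (hc : c * n ^ 2 < 1)
    (hZ : ∀ᶠ N : ℕ in atTop, (cnt Z N : ℝ) ≤ c * (Nat.primeCounting N : ℝ))
    (hT : ∀ p : ℕ, p.Prime → p ∉ Z → ∑ i, α p i ∈ T)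
    (ρ : GQ →* GL (Fin n) k) (hρ : Continuous ρ) (hss : IsSemisimpleRep ρ)
    (hcorr : ∀ p : ℕ, p.Prime → p ∉ Z → Corresponds ρ p (fun i => ι.symm (α p i))) :
    IsOpen (ρ.ker : Set GQ) := by
  classical
  refine finite_image ρ hρ hss (T.image ι.symm) Z c hc hZ ?_
  intro p hp hpZ P hP hpP σ hσ
  rw [corr_trace (hcorr p hp hpZ) hP hpP hσ, ← map_sum]
  exact Finset.mem_image_of_mem _ (hT p hp hpZ)

/-- matching at one more prime -/
theorem corr_of_other (R₁ R₂ : GQ →* GL (Fin n) ℂ) (h₁ : IsOpen (R₁.ker : Set GQ))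
    (ht : ∀ g, (R₁ g : Matrix (Fin n) (Fin n) ℂ).trace = (R₂ g : Matrix (Fin n) (Fin n) ℂ).trace)
    {p : ℕ} {a : Fin n → ℂ} (h : Corresponds R₂ p a) : Corresponds R₁ p a := by
  have hch := charpoly_of_traces R₁ R₂ ht
  obtain ⟨N, hN, hpow⟩ := exists_pow_mat R₁ (finite_quot R₁ h₁)
  refine ⟨fun P hP hpP τ hτ => ?_, fun P hP hpP σ hσ => ?_⟩
  · apply Units.ext
    rw [Units.val_one]
    refine eq_one_of_charpoly _ N hN (hpow τ) ?_
    rw [hch, h.1 P hP hpP τ hτ, Units.val_one]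
  · refine conj_diag _ N hN (hpow σ) a ?_
    rw [hch, corr_charpoly h hP hpP hσ]

/-- the representation over an arbitrary topological field -/
theorem from_complex {k : Type*} [Field k] [TopologicalSpace k] [CharZero k] (j : ℂ →+* k)
    (R : GQ →* GL (Fin n) ℂ) (hR : IsOpen (R.ker : Set GQ)) :
    Continuous ((Matrix.GeneralLinearGroup.map j).comp R) ∧
    IsSemisimpleRep ((Matrix.GeneralLinearGroup.map j).comp R) ∧
    (Set.range ((Matrix.GeneralLinearGroup.map j).comp R)).Finite ∧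
    ∀ (p : ℕ) (a : Fin n → ℂ), Corresponds R p a →
      Corresponds ((Matrix.GeneralLinearGroup.map j).comp R) p (fun i => j (a i)) := by
  have hk := ker_map j R
  have ho : IsOpen (((Matrix.GeneralLinearGroup.map j).comp R).ker : Set GQ) := by
    rw [hk]; exact hR
  have hfin := finite_quot _ ho
  refine ⟨continuous_of_ker _ ho, semisimple_of_finite _ hfin, ?_, fun p a h => corr_map j h⟩
  have e := QuotientGroup.quotientKerEquivRange ((Matrix.GeneralLinearGroup.map j).comp R)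
  have : Finite ((Matrix.GeneralLinearGroup.map j).comp R).range := Finite.of_equiv _ e.toEquiv
  exact Set.toFinite (((Matrix.GeneralLinearGroup.map j).comp R).range : Set (GL (Fin n) k))

end Pool.Agent.Y800
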